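import Mathlib
import Pool.Agent.W5h22.GS.V

set_option autoImplicit false

/-! Equidistribution modulo the squarefree integers suffices for the weighted representations of almost all `n`. -/

namespace Pool.Agent.W5h22.CR
open Finset Filter Topology
open Pool.Agent.W5h22.GS

/-- the weighted number of representations -/
def rep (f : ℕ → ℝ) (n : ℕ) : ℝ := ∑ p ∈ G1 n, f p

open Classical in
/-- it is small for almost all `n` -/
def Sm (f : ℕ → ℝ) : Prop := ∀ ε : ℝ, 0 < ε → ∀ᶠ x : ℕ in atTop,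
  (fails (fun n : ℕ => ¬ (ε * ((n : ℝ) / Real.log n ^ 2) < |rep f n|)) x : ℝ) ≤ ε * x

/-- the primes `≤ x` in a residue class -/
def cl (q a x : ℕ) : Finset ℕ := (Icc 1 x).filter (fun p => p.Prime ∧ p ≡ a [MOD q])

/-- the weight has mean value zero on the primes in the classes modulo squarefree integers -/
def Eq (f : ℕ → ℝ) : Prop := ∀ q : ℕ, Squarefree q → ∀ a : ℕ, a.Coprime q →
  Tendsto (fun x : ℕ => (∑ p ∈ cl q a x, f p) * Real.log x / x) atTop (𝓝 0)

lemma Eq.unif {f : ℕ → ℝ} (h : Eq f) (q : ℕ) (hq : Squarefree q) (ε : ℝ) (hε : 0 < ε) : ∀ᶠ x : ℕ in atTop,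
    ∀ a ∈ range q, a.Coprime q → |∑ p ∈ cl q a x, f p| ≤ ε * (x / Real.log x) := by
  rw [eventually_all_finset]
  intro a _
  by_cases ha : a.Coprime q
  · have h1 := (h q hq a ha).abs
    rw [abs_zero] at h1
    filter_upwards [h1.eventually_le_const hε, eventually_ge_atTop 3] with x hx hx3
    intro _
    have hx0 : (0 : ℝ) < x := by exact_mod_cast (by omega : 0 < x)
    have hl : 0 < Real.log x := Real.log_pos (by exact_mod_cast (by omega : 1 < x))
    rw [abs_div, abs_mul, abs_of_pos hl, abs_of_pos hx0, div_le_iff₀ hx0] at hx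
    rw [← mul_div_assoc, le_div_iff₀ hl]
    exact hx
  · exact Eventually.of_forall fun x h => absurd h ha

/-- the sum over the primes with `n - p` coprime to `W` -/
lemma G2_bound {f : ℕ → ℝ} (hf : ∀ p, |f p| ≤ 1) (W : ℕ) (hW : 0 < W) (n : ℕ) (hn : 1 ≤ n) (δ : ℝ) (hδ : 0 ≤ δ)
    (h : ∀ a ∈ range W, a.Coprime W → |∑ p ∈ cl W a (n - 1), f p| ≤ δ) : |∑ p ∈ G2 W n, f p| ≤ W * (δ + (W + 1)) := by
  classical
  have h1 : ∑ p ∈ G2 W n, f p = ∑ a ∈ range W, ∑ p ∈ (G2 W n).filter (fun p => p % W = a), f p := by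
    rw [sum_fiberwise_of_maps_to]
    intro p _
    exact mem_range.2 (Nat.mod_lt _ hW)
  have h2 : ∀ a ∈ range W, |∑ p ∈ (G2 W n).filter (fun p => p % W = a), f p| ≤ δ + (W + 1) := by
    intro a ha
    have haW := mem_range.1 ha
    by_cases hc : a.Coprime W
    · rcases ((G2 W n).filter (fun p => p % W = a)).eq_empty_or_nonempty with he | ⟨p₀, hp₀⟩
      · rw [he, sum_empty, abs_zero]; positivity
      · have h3 : (G2 W n).filter (fun p => p % W = a) = cl W a (n - 1) := by
          ext p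
          simp only [cl, G2, mem_filter, mem_range, mem_Icc]
          simp only [G2, mem_filter, mem_range] at hp₀
          obtain ⟨⟨k1, k2, k3⟩, k4⟩ := hp₀
          constructor
          · rintro ⟨⟨l1, l2, l3⟩, l4⟩
            refine ⟨⟨l2.one_le, by omega⟩, l2, ?_⟩
            unfold Nat.ModEq
            rw [l4, Nat.mod_eq_of_lt haW]
          · rintro ⟨⟨l1, l2⟩, l3, l4⟩
            have l5 : p % W = a := by
              unfold Nat.ModEq at l4
              rw [l4, Nat.mod_eq_of_lt haW]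
            refine ⟨⟨by omega, l3, ?_⟩, l5⟩
            have l6 : p ≡ p₀ [MOD W] := by
              unfold Nat.ModEq
              rw [l5, k4]
            have l7 : n - p ≡ n - p₀ [MOD W] := by
              have h8 : (n - p) + p ≡ (n - p₀) + p₀ [MOD W] := by
                rw [Nat.sub_add_cancel (by omega), Nat.sub_add_cancel (by omega)]
              exact Nat.ModEq.add_right_cancel l6 h8
            rw [Nat.Coprime, l7.gcd_eq]
            exact k3
        rw [h3]
        have := h a ha hc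
        have hW0 : (0 : ℝ) ≤ W := Nat.cast_nonneg _
        linarith
    · have h3 : (G2 W n).filter (fun p => p % W = a) ⊆ range (W + 1) := by
        intro p hp
        simp only [G2, mem_filter, mem_range] at hp
        obtain ⟨⟨k1, k2, k3⟩, k4⟩ := hp
        rw [mem_range]
        have h4 : ¬ p.Coprime W := by
          intro h5
          apply hc
          have h6 : p ≡ a [MOD W] := by
            unfold Nat.ModEq; rw [k4, Nat.mod_eq_of_lt haW]
          rw [Nat.Coprime, ← h6.gcd_eq]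
          exact h5
        rw [Nat.Prime.coprime_iff_not_dvd k2, not_not] at h4
        have := Nat.le_of_dvd hW h4
        omega
      calc |∑ p ∈ (G2 W n).filter (fun p => p % W = a), f p| ≤ ∑ p ∈ (G2 W n).filter (fun p => p % W = a), |f p| := abs_sum_le_sum_abs _ _
        _ ≤ ∑ p ∈ (G2 W n).filter (fun p => p % W = a), 1 := sum_le_sum fun p _ => hf p
        _ = #((G2 W n).filter (fun p => p % W = a)) := by rw [sum_const, nsmul_eq_mul, mul_one]
        _ ≤ ((W + 1 : ℕ) : ℝ) := by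
            have := card_le_card h3
            rw [card_range] at this
            exact_mod_cast this
        _ ≤ δ + (W + 1) := by push_cast; linarith
  rw [h1]
  calc |∑ a ∈ range W, ∑ p ∈ (G2 W n).filter (fun p => p % W = a), f p| ≤ ∑ a ∈ range W, |∑ p ∈ (G2 W n).filter (fun p => p % W = a), f p| :=
        abs_sum_le_sum_abs _ _
    _ ≤ ∑ _a ∈ range W, (δ + (W + 1)) := sum_le_sum h2
    _ = _ := by rw [sum_const, card_range, nsmul_eq_mul]

lemma ev_const (K c : ℝ) (hc : 0 < c) : ∀ᶠ X : ℕ in atTop, K ≤ c * (X / Real.log X) :=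
  Pool.Agent.W5h22.PV.evt_div_log K c hc

/-- the sufficiency, dyadic form -/
lemma suff_dyadic {f : ℕ → ℝ} (hf : ∀ p, |f p| ≤ 1) (h : Eq f) (ε : ℝ) (hε : 0 < ε) : ∀ᶠ X : ℕ in atTop,
    (#((Ioc X (2 * X)).filter (fun n : ℕ => ε * ((X : ℝ) / Real.log X ^ 2) < |rep f n|)) : ℝ) ≤ ε * X := by
  obtain ⟨w, hw⟩ := ltg (ε / 2) (by linarith)
  have h1 := hw w le_rfl
  have hP := PM_pos w
  have hsq : Squarefree (PM w) := by rw [PM_primorial]; exact squarefree_primorial w
  have hφ : (0 : ℝ) < (PM w).totient := by exact_mod_cast Nat.totient_pos.2 hP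
  have hP0 : (0 : ℝ) < PM w := by exact_mod_cast hP
  set A : ℝ := ((PM w : ℕ) : ℝ) / ((PM w).totient : ℝ) with hA
  have hA0 : 0 < A := by positivity
  set W : ℝ := ((PM w : ℕ) : ℝ) with hW
  set δ : ℝ := ε / (8 * A * W) with hδ
  have hδ0 : 0 < δ := by positivity
  obtain ⟨x₀, hx₀⟩ := eventually_atTop.1 (h.unif (PM w) hsq δ hδ0)
  filter_upwards [h1, ev_const (W + 1) δ hδ0, eventually_ge_atTop (x₀ + 3)] with X hX1 hX2 hX3
  have hX0 : (0 : ℝ) < X := by exact_mod_cast (by omega : 0 < X)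
  have hlX : 0 < Real.log X := Real.log_pos (by exact_mod_cast (by omega : 1 < X))
  refine le_trans ?_ ((hX1 f hf).trans (by nlinarith))
  have hsub : (Ioc X (2 * X)).filter (fun n : ℕ => ε * ((X : ℝ) / Real.log X ^ 2) < |rep f n|) ⊆
      (Ioc X (2 * X)).filter (fun n : ℕ => ε / 2 * ((X : ℝ) / Real.log X ^ 2) <
        |∑ p ∈ G1 n, f p - A / Real.log X * ∑ p ∈ G2 (PM w) n, f p|) := by
    intro n hn
    rw [mem_filter, mem_Ioc] at hn ⊢
    refine ⟨hn.1, ?_⟩
    obtain ⟨⟨hn1, hn2⟩, hn3⟩ := hn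
    have hb := G2_bound hf (PM w) hP n (by omega) (2 * δ * (X / Real.log X)) (by positivity) (by
      intro a ha hac
      have h2 := hx₀ (n - 1) (by omega) a ha hac
      refine h2.trans ?_
      have e1 : ((n - 1 : ℕ) : ℝ) ≤ 2 * X := by
        have : n - 1 ≤ 2 * X := by omega
        exact_mod_cast this
      have e2 : Real.log X ≤ Real.log (n - 1 : ℕ) := Real.log_le_log hX0 (by exact_mod_cast (by omega : X ≤ n - 1))
      calc δ * (((n - 1 : ℕ) : ℝ) / Real.log (n - 1 : ℕ)) ≤ δ * (2 * X / Real.log X) := by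
            apply mul_le_mul_of_nonneg_left _ hδ0.le
            exact div_le_div₀ (by positivity) e1 hlX e2
        _ = _ := by ring)
    have hb2 : |A / Real.log X * ∑ p ∈ G2 (PM w) n, f p| ≤ ε / 2 * (X / Real.log X ^ 2) := by
      rw [abs_mul, abs_of_pos (show 0 < A / Real.log X by positivity)]
      calc A / Real.log X * |∑ p ∈ G2 (PM w) n, f p| ≤ A / Real.log X * (W * (2 * δ * (X / Real.log X) + (W + 1))) :=
            mul_le_mul_of_nonneg_left hb (by positivity)
        _ ≤ A / Real.log X * (W * (2 * δ * (X / Real.log X) + δ * (X / Real.log X))) := by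
            apply mul_le_mul_of_nonneg_left _ (by positivity)
            apply mul_le_mul_of_nonneg_left _ (by positivity)
            linarith
        _ = 3 * (δ * A * W) * (X / Real.log X ^ 2) := by field_simp; ring
        _ ≤ _ := by
            apply mul_le_mul_of_nonneg_right _ (by positivity)
            have : δ * A * W = ε / 8 := by rw [hδ]; field_simp
            rw [this]; linarith
    unfold rep at hn3
    have h5 : |∑ p ∈ G1 n, f p| ≤ |∑ p ∈ G1 n, f p - A / Real.log X * ∑ p ∈ G2 (PM w) n, f p| + |A / Real.log X * ∑ p ∈ G2 (PM w) n, f p| := by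
      have := abs_add_le (∑ p ∈ G1 n, f p - A / Real.log X * ∑ p ∈ G2 (PM w) n, f p) (A / Real.log X * ∑ p ∈ G2 (PM w) n, f p)
      rwa [sub_add_cancel] at this
    linarith
  exact_mod_cast card_le_card hsub

lemma log2_sq : ∀ᶠ X : ℕ in atTop, ∀ n : ℕ, X < n → n ≤ 2 * X → 1 / 2 * ((X : ℝ) / Real.log X ^ 2) ≤ (n : ℝ) / Real.log n ^ 2 ∧
    (n : ℝ) / Real.log n ^ 2 ≤ 2 * ((X : ℝ) / Real.log X ^ 2) := by
  filter_upwards [ev_log2, eventually_ge_atTop 3] with X h1 h2
  intro n hn1 hn2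
  have hX0 : (0 : ℝ) < X := by exact_mod_cast (by omega : 0 < X)
  have hlX : 0 < Real.log X := Real.log_pos (by exact_mod_cast (by omega : 1 < X))
  have hn0 : (X : ℝ) ≤ n := by exact_mod_cast hn1.le
  have hn3 : (n : ℝ) ≤ 2 * X := by exact_mod_cast hn2
  have hln1 : Real.log X ≤ Real.log n := Real.log_le_log hX0 hn0
  have hln2 : Real.log n ≤ 11 / 10 * Real.log X := (Real.log_le_log (by linarith) hn3).trans h1.2
  constructor
  · calc 1 / 2 * ((X : ℝ) / Real.log X ^ 2) ≤ X / (11 / 10 * Real.log X) ^ 2 := by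
          have : (X : ℝ) / (11 / 10 * Real.log X) ^ 2 = 100 / 121 * (X / Real.log X ^ 2) := by field_simp; ring
          rw [this]
          apply mul_le_mul_of_nonneg_right (by norm_num) (by positivity)
      _ ≤ _ := by
          apply div_le_div₀ (by linarith) hn0 (by nlinarith)
          exact pow_le_pow_left₀ (by linarith) hln2 2
  · calc (n : ℝ) / Real.log n ^ 2 ≤ 2 * X / Real.log X ^ 2 := by
          apply div_le_div₀ (by positivity) hn3 (by positivity)
          exact pow_le_pow_left₀ hlX.le hln1 2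
      _ = _ := by ring

theorem suff {f : ℕ → ℝ} (hf : ∀ p, |f p| ≤ 1) (h : Eq f) : Sm f := by
  classical
  intro ε hε
  have h1 := suff_dyadic hf h (ε / 8) (by linarith)
  obtain ⟨X₀, hX₀⟩ := eventually_atTop.1 (h1.and (log2_sq.and (eventually_ge_atTop 1)))
  have h2 := dyadic (fun n : ℕ => ¬ (ε * ((n : ℝ) / Real.log n ^ 2) < |rep f n|)) (max (2 * X₀ + 2) (⌈16 / ε⌉₊ + 1)) (ε / 4) (by positivity) (by
    intro X hX
    have hXa : 2 * X₀ + 2 ≤ X := le_trans (le_max_left _ _) hX
    have hXb : ⌈16 / ε⌉₊ + 1 ≤ X := le_trans (le_max_right _ _) hX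
    set Y := X / 2 with hY
    obtain ⟨k1, k2, k3⟩ := hX₀ Y (by omega)
    have hsub : (Ioc Y X).filter (fun n : ℕ => ¬ ¬ (ε * ((n : ℝ) / Real.log n ^ 2) < |rep f n|)) ⊆
        (Ioc Y (2 * Y)).filter (fun n : ℕ => ε / 8 * ((Y : ℝ) / Real.log Y ^ 2) < |rep f n|) ∪ {X} := by
      intro n hn
      rw [mem_filter, mem_Ioc, not_not] at hn
      rw [mem_union, mem_singleton, mem_filter, mem_Ioc]
      by_cases hnX : n = X
      · exact Or.inr hnX
      · left
        have h3 : n ≤ 2 * Y := by omega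
        refine ⟨⟨hn.1.1, h3⟩, ?_⟩
        have h4 := (k2 n hn.1.1 h3).1
        refine lt_of_le_of_lt ?_ hn.2
        have h5 : 0 ≤ (Y : ℝ) / Real.log Y ^ 2 := by positivity
        nlinarith
    have h3 := (card_le_card hsub).trans (card_union_le _ _)
    rw [card_singleton] at h3
    have h4 : (#((Ioc Y X).filter (fun n : ℕ => ¬ ¬ (ε * ((n : ℝ) / Real.log n ^ 2) < |rep f n|))) : ℝ) ≤
        #((Ioc Y (2 * Y)).filter (fun n : ℕ => ε / 8 * ((Y : ℝ) / Real.log Y ^ 2) < |rep f n|)) + 1 := by exact_mod_cast h3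
    have h5 : (Y : ℝ) ≤ X := by exact_mod_cast (by omega : Y ≤ X)
    have h6 : 16 / ε ≤ X := (Nat.le_ceil _).trans (by exact_mod_cast (by omega : ⌈16 / ε⌉₊ ≤ X))
    rw [div_le_iff₀ hε] at h6
    have h7 : (#((Ioc Y X).filter (fun n : ℕ => ¬ ¬ (ε * ((n : ℝ) / Real.log n ^ 2) < |rep f n|))) : ℝ) ≤ ε / 4 * X := by nlinarith
    convert h7)
  have h3 : ∀ᶠ x : ℕ in atTop, ((max (2 * X₀ + 2) (⌈16 / ε⌉₊ + 1) : ℕ) : ℝ) * (2 / ε) ≤ x := tendsto_natCast_atTop_atTop.eventually_ge_atTop _
  filter_upwards [h3] with x hx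
  refine (h2 x).trans ?_
  have h4 : ((max (2 * X₀ + 2) (⌈16 / ε⌉₊ + 1) : ℕ) : ℝ) ≤ ε / 2 * x := by
    have := mul_le_mul_of_nonneg_left hx (show 0 ≤ ε / 2 by positivity)
    calc ((max (2 * X₀ + 2) (⌈16 / ε⌉₊ + 1) : ℕ) : ℝ) = ε / 2 * (((max (2 * X₀ + 2) (⌈16 / ε⌉₊ + 1) : ℕ) : ℝ) * (2 / ε)) := by field_simp
      _ ≤ _ := this
  linarith

end Pool.Agent.W5h22.CR
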