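import Mathlib
import Pool.Agent.W5h22.CR.A

set_option autoImplicit false

/-! The second moment of the number of representations with two weights. -/

namespace Pool.Agent.W5h22.CR
open Finset Filter Topology
open Pool.Agent.Helper602.MK
open Pool.Agent.H373R2.NB
open Pool.Agent.W5h22.PV
open Pool.Agent.W5h22.GS
open Pool.Agent.W5h22.JW (second_w)

/-- representations with two weights -/
noncomputable def rep2 (f g : ℕ → ℝ) (n : ℕ) : ℝ := ∑ p ∈ G1 n, f p * g (n - p)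

theorem second_two : ∃ C : ℝ, 0 < C ∧ ∃ k0 : ℕ, 2 ≤ k0 ∧ ∀ k : ℕ, k0 ≤ k →
    ∀ M : ℕ, [NeZero M] → k < M → M ≤ 100 * k → ∀ f g : ℕ → ℝ, (∀ p, |f p| ≤ 1) → (∀ p, |g p| ≤ 1) → ∀ δ : ℝ, 0 ≤ δ →
      (∀ ξ : ZMod M, ‖hat (wZ f k M) ξ‖ * ‖hat (wZ g k M) ξ‖ ≤ δ ^ 2 * (k / Real.log k) ^ 2) →
      ∑ n : ZMod M, (∑ p ∈ PP k, f p * wZ g k M (n - (p : ZMod M))) ^ 2 ≤ C * δ * ((k : ℝ) / Real.log k) ^ 4 / M := by
  obtain ⟨C₁, hC₁, k1, hk1, h1⟩ := restr_w (1 / 2) (by norm_num) (by norm_num)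
  refine ⟨C₁, hC₁, k1, hk1, ?_⟩
  intro k hk M hM hkM hM100 f g hf1 hg1 δ hδ hprod
  have hk2 : 2 ≤ k := hk1.trans hk
  have hkpos : (0 : ℝ) < k := by exact_mod_cast (by omega : 0 < k)
  have hlk : 0 < Real.log k := Real.log_pos (by exact_mod_cast hk2)
  have hM0 : (0 : ℝ) < M := by exact_mod_cast (by omega : 0 < M)
  set v : ZMod M → ℝ := wZ g k M with hv
  have hid := second_w v (PP k) f (fun p => -((p : ℕ) : ZMod M))
  set F : ZMod M → ℝ := fun ξ => ‖hat (wZ f k M) ξ‖ ^ 2 * (Real.log k / k) ^ 2 with hF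
  set G : ZMod M → ℝ := fun ξ => ‖hat v ξ‖ ^ 2 * (Real.log k / k) ^ 2 with hG
  have hF0 : ∀ ξ, 0 ≤ F ξ := fun ξ => by positivity
  have hG0 : ∀ ξ, 0 ≤ G ξ := fun ξ => by positivity
  have hFG : ∀ ξ, G ξ * F ξ ≤ δ ^ 4 := by
    intro ξ
    have h2 := hprod ξ
    have h3 : G ξ * F ξ = (‖hat (wZ f k M) ξ‖ * ‖hat (wZ g k M) ξ‖) ^ 2 / (k / Real.log k) ^ 4 := by
      simp only [hF, hG, hv]
      field_simp
    rw [h3, div_le_iff₀ (by positivity)]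
    calc _ ≤ (δ ^ 2 * (k / Real.log k) ^ 2) ^ 2 := pow_le_pow_left₀ (by positivity) h2 2
      _ = _ := by ring
  have hs1 : ∑ ξ, F ξ ^ (3 / 2 : ℝ) ≤ C₁ := by
    have := h1 k hk M hkM hM100 f hf1
    norm_num at this ⊢
    exact this
  have hs2 : ∑ ξ, G ξ ^ (3 / 2 : ℝ) ≤ C₁ := by
    have := h1 k hk M hkM hM100 g hg1
    norm_num at this ⊢
    exact this
  have hterm : ∀ ξ, G ξ * F ξ ≤ δ * ((F ξ ^ (3 / 2 : ℝ) + G ξ ^ (3 / 2 : ℝ)) / 2) := by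
    intro ξ
    have a1 := hF0 ξ
    have a2 := hG0 ξ
    have a3 : 0 ≤ G ξ * F ξ := mul_nonneg a2 a1
    have a4 : (G ξ * F ξ) ^ (1 / 4 : ℝ) ≤ δ := by
      calc (G ξ * F ξ) ^ (1 / 4 : ℝ) ≤ (δ ^ 4) ^ (1 / 4 : ℝ) := Real.rpow_le_rpow a3 (hFG ξ) (by norm_num)
        _ = δ := by
            rw [← Real.rpow_natCast, ← Real.rpow_mul hδ]
            norm_num
    have a5 : G ξ * F ξ = (G ξ * F ξ) ^ (1 / 4 : ℝ) * (G ξ * F ξ) ^ (3 / 4 : ℝ) := by
      rw [← Real.rpow_add_of_nonneg a3 (by norm_num) (by norm_num)]; norm_num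
    have a6 : (G ξ * F ξ) ^ (3 / 4 : ℝ) ≤ (F ξ ^ (3 / 2 : ℝ) + G ξ ^ (3 / 2 : ℝ)) / 2 := by
      rw [Real.mul_rpow a2 a1]
      have b1 : F ξ ^ (3 / 2 : ℝ) = (F ξ ^ (3 / 4 : ℝ)) ^ 2 := by
        rw [← Real.rpow_natCast, ← Real.rpow_mul a1]; norm_num
      have b2 : G ξ ^ (3 / 2 : ℝ) = (G ξ ^ (3 / 4 : ℝ)) ^ 2 := by
        rw [← Real.rpow_natCast, ← Real.rpow_mul a2]; norm_num
      rw [b1, b2]
      nlinarith [sq_nonneg (F ξ ^ (3 / 4 : ℝ) - G ξ ^ (3 / 4 : ℝ))]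
    calc G ξ * F ξ = (G ξ * F ξ) ^ (1 / 4 : ℝ) * (G ξ * F ξ) ^ (3 / 4 : ℝ) := a5
      _ ≤ δ * ((F ξ ^ (3 / 2 : ℝ) + G ξ ^ (3 / 2 : ℝ)) / 2) := mul_le_mul a4 a6 (Real.rpow_nonneg a3 _) hδ
  have hsum : ∑ ξ, G ξ * F ξ ≤ C₁ * δ := by
    calc ∑ ξ, G ξ * F ξ ≤ ∑ ξ, δ * ((F ξ ^ (3 / 2 : ℝ) + G ξ ^ (3 / 2 : ℝ)) / 2) := sum_le_sum fun ξ _ => hterm ξ
      _ = δ * ((∑ ξ, F ξ ^ (3 / 2 : ℝ) + ∑ ξ, G ξ ^ (3 / 2 : ℝ)) / 2) := by rw [← mul_sum, ← sum_div, sum_add_distrib]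
      _ ≤ δ * ((C₁ + C₁) / 2) := by
          apply mul_le_mul_of_nonneg_left _ hδ
          linarith
      _ = _ := by ring
  -- the exponential sum over the primes
  have hexp : ∀ ξ : ZMod M, ‖∑ p ∈ PP k, (f p : ℂ) * (ZMod.stdAddChar (ξ * -((p : ℕ) : ZMod M)) : ℂ)‖ = ‖hat (wZ f k M) ξ‖ := by
    intro ξ
    rw [hat_wZ f k hkM]
    have h3 : ∑ p ∈ PP k, (f p : ℂ) * (ZMod.stdAddChar (ξ * -((p : ℕ) : ZMod M)) : ℂ) =
        (starRingEnd ℂ) (∑ p ∈ PP k, (f p : ℂ) * ee ((ξ.val : ℝ) * p / M)) := by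
      rw [map_sum]
      apply sum_congr rfl
      intro p _
      have e1 : ∀ z : ℂ, (starRingEnd ℂ) ((f p : ℂ) * z) = (f p : ℂ) * (starRingEnd ℂ) z := fun z => by
        rw [map_mul, Complex.conj_ofReal]
      rw [e1, ← chi_eq, chi_conj, mul_neg]
    rw [h3, RCLike.norm_conj]
  have hkey : (M : ℝ) * ∑ n : ZMod M, (∑ p ∈ PP k, f p * v (n - (p : ZMod M))) ^ 2 ≤ C₁ * δ * ((k : ℝ) / Real.log k) ^ 4 := by
    have h2 : ∑ n : ZMod M, (∑ p ∈ PP k, f p * v (n - (p : ZMod M))) ^ 2 = ∑ n : ZMod M, (∑ p ∈ PP k, f p * v (n + -(p : ZMod M))) ^ 2 := by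
      simp_rw [sub_eq_add_neg]
    rw [h2, hid]
    have h3 : ∀ ξ : ZMod M, ‖hat v ξ‖ ^ 2 * ‖∑ p ∈ PP k, (f p : ℂ) * (ZMod.stdAddChar (ξ * -((p : ℕ) : ZMod M)) : ℂ)‖ ^ 2 =
        (G ξ * F ξ) * ((k : ℝ) / Real.log k) ^ 4 := by
      intro ξ
      rw [hexp ξ]
      simp only [hG, hF]
      have : Real.log k ≠ 0 := hlk.ne'
      field_simp
    rw [sum_congr rfl fun ξ _ => h3 ξ, ← sum_mul]
    exact mul_le_mul_of_nonneg_right hsum (by positivity)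
  rw [le_div_iff₀ hM0, mul_comm]
  exact hkey

/-- passing to the weights on `ZMod` -/
lemma rep_cmp2 (ρ : ℝ) (hρ : 0 < ρ) : ∀ᶠ X : ℕ in atTop, ∀ f g : ℕ → ℝ, (∀ p, |f p| ≤ 1) → (∀ p, |g p| ≤ 1) → ∀ n : ℕ, X < n → n ≤ 2 * X →
    |rep2 f g n - ∑ p ∈ PP (2 * X), f p * wZ g (2 * X) (5 * X) ((n : ZMod (5 * X)) - p)| ≤ ρ * (X / Real.log X ^ 2) := by
  filter_upwards [ev_sqrt 2 ρ (by norm_num) hρ, eventually_ge_atTop 3] with X hsq hX3
  intro f g hf hg n hn1 hn2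
  have hX0 : (0 : ℝ) < X := by exact_mod_cast (by omega : 0 < X)
  have hlX : 0 < Real.log X := Real.log_pos (by exact_mod_cast (by omega : 1 < X))
  have : NeZero (5 * X) := ⟨by omega⟩
  set s := Nat.sqrt (2 * X) with hs
  have h1 : ∑ p ∈ PP (2 * X), f p * wZ g (2 * X) (5 * X) ((n : ZMod (5 * X)) - p) =
      ∑ p ∈ (G1 n).filter (fun p => p ∈ PP (2 * X) ∧ n - p ∈ PP (2 * X)), f p * g (n - p) := by
    have h2 : (G1 n).filter (fun p => p ∈ PP (2 * X) ∧ n - p ∈ PP (2 * X)) =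
        (PP (2 * X)).filter (fun p : ℕ => n - p ∈ PP (2 * X)) := by
      ext p
      simp only [G1, mem_filter, mem_range, mem_PP]
      constructor
      · tauto
      · rintro ⟨h3, h4⟩
        have := h4.2.1.pos
        have h5 : p < n := by omega
        tauto
    rw [h2, sum_filter]
    apply sum_congr rfl
    intro p hp
    have hp2 := ((mem_PP _ _).1 hp).1
    unfold wZ
    by_cases hpn : p ≤ n
    · have e1 : ((n : ZMod (5 * X)) - p).val = n - p := by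
        rw [← Nat.cast_sub hpn, ZMod.val_natCast_of_lt (by omega)]
      rw [e1]
      split_ifs <;> ring
    · have e1 : ((n : ZMod (5 * X)) - p).val = 5 * X + n - p := by
        have e2 : ((n : ZMod (5 * X)) - p) = ((5 * X + n - p : ℕ) : ZMod (5 * X)) := by
          rw [Nat.cast_sub (by omega), Nat.cast_add, ZMod.natCast_self, zero_add]
        rw [e2, ZMod.val_natCast_of_lt (by omega)]
      rw [e1]
      have e3 : ¬ (5 * X + n - p ∈ PP (2 * X)) := by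
        rw [mem_PP]; omega
      have e4 : ¬ (n - p ∈ PP (2 * X)) := by
        rw [mem_PP, show n - p = 0 by omega]
        intro h; exact Nat.not_prime_zero h.2.1
      rw [if_neg e3, if_neg e4, mul_zero]
  have h2 : rep2 f g n - ∑ p ∈ (G1 n).filter (fun p => p ∈ PP (2 * X) ∧ n - p ∈ PP (2 * X)), f p * g (n - p) =
      ∑ p ∈ (G1 n).filter (fun p => ¬ (p ∈ PP (2 * X) ∧ n - p ∈ PP (2 * X))), f p * g (n - p) := by
    unfold rep2
    rw [← sum_filter_add_sum_filter_not (G1 n) (fun p => p ∈ PP (2 * X) ∧ n - p ∈ PP (2 * X))]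
    ring
  rw [h1, h2]
  have h3 : (G1 n).filter (fun p => ¬ (p ∈ PP (2 * X) ∧ n - p ∈ PP (2 * X))) ⊆ range (s + 1) ∪ (range (s + 1)).image (fun q => n - q) := by
    intro p hp
    simp only [G1, mem_filter, mem_range, mem_PP] at hp
    obtain ⟨⟨h3, h4, h5⟩, h6⟩ := hp
    rw [mem_union, mem_range, mem_image]
    by_cases h7 : 2 * X < p ^ 2
    · right
      have h8 : ¬ (2 * X < (n - p) ^ 2) := by
        intro h8
        exact h6 ⟨⟨by omega, h4, h7⟩, ⟨by omega, h5, h8⟩⟩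
      refine ⟨n - p, ?_, by omega⟩
      rw [mem_range, Nat.lt_succ_iff, hs, Nat.le_sqrt, ← sq]
      omega
    · left
      rw [Nat.lt_succ_iff, hs, Nat.le_sqrt, ← sq]
      omega
  have h4 : #((G1 n).filter (fun p => ¬ (p ∈ PP (2 * X) ∧ n - p ∈ PP (2 * X)))) ≤ 2 * (s + 1) := by
    refine (card_le_card h3).trans ((card_union_le _ _).trans ?_)
    have := card_image_le (s := range (s + 1)) (f := fun q => n - q)
    rw [card_range] at this ⊢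
    omega
  calc |∑ p ∈ (G1 n).filter (fun p => ¬ (p ∈ PP (2 * X) ∧ n - p ∈ PP (2 * X))), f p * g (n - p)| ≤
      ∑ p ∈ (G1 n).filter (fun p => ¬ (p ∈ PP (2 * X) ∧ n - p ∈ PP (2 * X))), |f p * g (n - p)| := abs_sum_le_sum_abs _ _
    _ ≤ ∑ p ∈ (G1 n).filter (fun p => ¬ (p ∈ PP (2 * X) ∧ n - p ∈ PP (2 * X))), 1 := sum_le_sum fun p _ => by
        rw [abs_mul]; exact mul_le_one₀ (hf p) (abs_nonneg _) (hg _)
    _ = #((G1 n).filter (fun p => ¬ (p ∈ PP (2 * X) ∧ n - p ∈ PP (2 * X)))) := by rw [sum_const, nsmul_eq_mul, mul_one]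
    _ ≤ 2 * (s + 1) := by exact_mod_cast h4
    _ ≤ _ := by
        rw [← mul_div_assoc, le_div_iff₀ (by positivity)]
        exact hsq

/-- the sum over the integers of a window -/
lemma win_le {M X : ℕ} [NeZero M] (hM : M = 5 * X) (H : ZMod M → ℝ) (hH0 : ∀ n, 0 ≤ H n) :
    ∑ n ∈ Ioc X (2 * X), H ((n : ℕ) : ZMod M) ≤ ∑ n : ZMod M, H n := by
  subst hM
  rcases Nat.eq_zero_or_pos X with h0 | h0
  · subst h0
    simp only [mul_zero, Ioc_self, sum_empty]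
    exact sum_nonneg fun n _ => hH0 n
  rw [← sum_image (s := Ioc X (2 * X)) (g := fun n : ℕ => (n : ZMod (5 * X))) (f := H)]
  · exact sum_le_sum_of_subset_of_nonneg (subset_univ _) (fun n _ _ => hH0 n)
  · intro a ha b hb hab
    rw [mem_coe, mem_Ioc] at ha hb
    simp only at hab
    have e1 := congrArg ZMod.val hab
    rwa [ZMod.val_natCast_of_lt (by omega), ZMod.val_natCast_of_lt (by omega)] at e1

/-- the trivial bound for the transform -/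
lemma hat_triv : ∀ k : ℕ, 2 ≤ k → ∀ M : ℕ, [NeZero M] → k < M → ∀ f : ℕ → ℝ, (∀ p, |f p| ≤ 1) → ∀ ξ : ZMod M,
    ‖hat (wZ f k M) ξ‖ ≤ 4 * (k / Real.log k) := by
  intro k hk M hM hkM f hf ξ
  have hkpos : (0 : ℝ) < k := by exact_mod_cast (by omega : 0 < k)
  have hlk : 0 < Real.log k := Real.log_pos (by exact_mod_cast hk)
  rw [hat_wZ f k hkM]
  calc ‖∑ p ∈ PP k, (f p : ℂ) * ee ((ξ.val : ℝ) * p / M)‖ ≤ ∑ p ∈ PP k, ‖(f p : ℂ) * ee ((ξ.val : ℝ) * p / M)‖ := norm_sum_le _ _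
    _ ≤ ∑ _p ∈ PP k, (1 : ℝ) := sum_le_sum fun p _ => by
        rw [norm_mul, N_J5b.norm_ee, mul_one, Complex.norm_real, Real.norm_eq_abs]; exact hf p
    _ = #(PP k) := by rw [sum_const, nsmul_eq_mul, mul_one]
    _ ≤ 2 * Real.log 4 * (k / Real.log k) := N_J6.j6_card k hk
    _ ≤ _ := by
        apply mul_le_mul_of_nonneg_right _ (by positivity)
        have : Real.log 4 ≤ 2 := by
          rw [show (4 : ℝ) = 2 ^ 2 by norm_num, Real.log_pow]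
          have := Real.log_two_lt_d9
          push_cast; linarith
        linarith

/-- the second moment of the weighted representations in a window -/
theorem window_two : ∃ C : ℝ, 0 < C ∧ ∀ δ : ℝ, 0 < δ → ∀ᶠ X : ℕ in atTop, ∀ f g : ℕ → ℝ, (∀ p, |f p| ≤ 1) → (∀ p, |g p| ≤ 1) →
    (∀ M : ℕ, [NeZero M] → M = 5 * X → ∀ ξ : ZMod M,
      ‖hat (wZ f (2 * X) M) ξ‖ * ‖hat (wZ g (2 * X) M) ξ‖ ≤ δ ^ 2 * (((2 * X : ℕ) : ℝ) / Real.log ((2 * X : ℕ) : ℝ)) ^ 2) →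
    ∑ n ∈ Ioc X (2 * X), (rep2 f g n) ^ 2 ≤ C * δ * ((X : ℝ) ^ 3 / Real.log X ^ 4) := by
  obtain ⟨C, hC, k0, hk0, h1⟩ := second_two
  refine ⟨8 * C + 2, by linarith, ?_⟩
  intro δ hδ
  filter_upwards [rep_cmp2 (min 1 δ) (by positivity), eventually_ge_atTop (k0 + 4)] with X h2 hX
  intro f g hf hg hprod
  have hX0 : (0 : ℝ) < X := by exact_mod_cast (by omega : 0 < X)
  have hlX : 0 < Real.log X := Real.log_pos (by exact_mod_cast (by omega : 1 < X))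
  have : NeZero (5 * X) := ⟨by omega⟩
  have h3 := h1 (2 * X) (by omega) (5 * X) (by omega) (by omega) f g hf hg δ hδ.le (fun ξ => hprod (5 * X) rfl ξ)
  set H : ZMod (5 * X) → ℝ := fun n => (∑ p ∈ PP (2 * X), f p * wZ g (2 * X) (5 * X) (n - (p : ZMod (5 * X)))) ^ 2 with hH
  have hH0 : ∀ n, 0 ≤ H n := fun n => sq_nonneg _
  have h4 := win_le (X := X) rfl H hH0
  have hterm : ∀ n ∈ Ioc X (2 * X), (rep2 f g n) ^ 2 ≤ 2 * H ((n : ℕ) : ZMod (5 * X)) + 2 * (δ * (X / Real.log X ^ 2) ^ 2) := by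
    intro n hn
    rw [mem_Ioc] at hn
    have h5 := h2 f g hf hg n hn.1 hn.2
    set R := ∑ p ∈ PP (2 * X), f p * wZ g (2 * X) (5 * X) ((n : ZMod (5 * X)) - p) with hR
    have h6 : H ((n : ℕ) : ZMod (5 * X)) = R ^ 2 := rfl
    rw [h6]
    have h7 : (rep2 f g n - R) ^ 2 ≤ δ * (X / Real.log X ^ 2) ^ 2 := by
      rw [← sq_abs]
      calc |rep2 f g n - R| ^ 2 ≤ (min 1 δ * (X / Real.log X ^ 2)) ^ 2 := pow_le_pow_left₀ (abs_nonneg _) h5 2
        _ = (min 1 δ) ^ 2 * (X / Real.log X ^ 2) ^ 2 := by ring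
        _ ≤ δ * (X / Real.log X ^ 2) ^ 2 := by
            apply mul_le_mul_of_nonneg_right _ (by positivity)
            have a1 : min 1 δ ≤ 1 := min_le_left _ _
            have a2 : min 1 δ ≤ δ := min_le_right _ _
            have a3 : 0 < min 1 δ := by positivity
            nlinarith
    nlinarith [sq_nonneg (rep2 f g n - 2 * R)]
  have hl2 : Real.log X ≤ Real.log (2 * X) := Real.log_le_log hX0 (by linarith)
  have h7 : (((2 * X : ℕ) : ℝ) / Real.log ((2 * X : ℕ) : ℝ)) ^ 4 ≤ (2 * X / Real.log X) ^ 4 := by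
    push_cast
    apply pow_le_pow_left₀ (div_nonneg (by positivity) (hlX.le.trans hl2))
    exact div_le_div_of_nonneg_left (by positivity) hlX hl2
  calc ∑ n ∈ Ioc X (2 * X), (rep2 f g n) ^ 2 ≤ ∑ n ∈ Ioc X (2 * X), (2 * H ((n : ℕ) : ZMod (5 * X)) + 2 * (δ * (X / Real.log X ^ 2) ^ 2)) := sum_le_sum hterm
    _ = 2 * ∑ n ∈ Ioc X (2 * X), H ((n : ℕ) : ZMod (5 * X)) + X * (2 * (δ * (X / Real.log X ^ 2) ^ 2)) := by
        rw [sum_add_distrib, ← mul_sum, sum_const, Nat.card_Ioc, nsmul_eq_mul]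
        congr 2
        rw [show 2 * X - X = X by omega]
    _ ≤ 2 * (C * δ * (2 * X / Real.log X) ^ 4 / ((5 * X : ℕ) : ℝ)) + X * (2 * (δ * (X / Real.log X ^ 2) ^ 2)) := by
        have h8 : C * δ * (((2 * X : ℕ) : ℝ) / Real.log ((2 * X : ℕ) : ℝ)) ^ 4 / ((5 * X : ℕ) : ℝ) ≤ C * δ * (2 * X / Real.log X) ^ 4 / ((5 * X : ℕ) : ℝ) := by
          gcongr
        linarith
    _ = (32 / 5 * C + 2) * δ * ((X : ℝ) ^ 3 / Real.log X ^ 4) := by
        push_cast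
        field_simp
        ring
    _ ≤ _ := by
        apply mul_le_mul_of_nonneg_right _ (by positivity)
        apply mul_le_mul_of_nonneg_right _ hδ.le
        linarith

lemma rep2_one (f : ℕ → ℝ) (n : ℕ) : rep2 f (fun _ => 1) n = rep f n := by
  unfold rep2 rep
  exact sum_congr rfl fun p _ => mul_one _

/-- the second moment of the number of representations -/
theorem l2b : ∃ C : ℝ, 0 < C ∧ ∀ᶠ X : ℕ in atTop, ∑ n ∈ Ioc X (2 * X), (#(G1 n) : ℝ) ^ 2 ≤ C * ((X : ℝ) ^ 3 / Real.log X ^ 4) := by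
  obtain ⟨C, hC, h⟩ := window_two
  refine ⟨C * 4, by positivity, ?_⟩
  filter_upwards [h 4 (by norm_num), eventually_ge_atTop 2] with X h1 hX
  have h2 := h1 (fun _ => 1) (fun _ => 1) (by intro p; norm_num) (by intro p; norm_num) (by
    intro M hM0 hM ξ
    subst hM
    have h3 := hat_triv (2 * X) (by omega) (5 * X) (by omega) (fun _ => 1) (by intro p; norm_num) ξ
    calc _ ≤ (4 * (((2 * X : ℕ) : ℝ) / Real.log ((2 * X : ℕ) : ℝ))) * (4 * (((2 * X : ℕ) : ℝ) / Real.log ((2 * X : ℕ) : ℝ))) :=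
          mul_le_mul h3 h3 (norm_nonneg _) ((norm_nonneg _).trans h3)
      _ = _ := by ring)
  refine le_trans (le_of_eq ?_) h2
  apply sum_congr rfl
  intro n _
  congr 1
  unfold rep2
  rw [sum_congr rfl fun p _ => mul_one (1 : ℝ), sum_const, nsmul_eq_mul, mul_one]

end Pool.Agent.W5h22.CR
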