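import Mathlib
import Pool.Agent.W5h22.CR.B

set_option autoImplicit false

/-! From the representations back to the distribution of the weight in residue classes. -/

namespace Pool.Agent.W5h22.CR
open Finset Filter Topology
open Pool.Agent.H373R2.NB
open Pool.Agent.W5h22.GS

open Classical in
/-- a function on the integers which is `o(n/log²n)` for almost all `n` -/
def SmF (R : ℕ → ℝ) : Prop := ∀ ε : ℝ, 0 < ε → ∀ᶠ x : ℕ in atTop,
  (fails (fun n : ℕ => ¬ (ε * ((n : ℝ) / Real.log n ^ 2) < |R n|)) x : ℝ) ≤ ε * x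

/-- the sum over a window of a function which is small for almost all `n` -/
theorem sum_small (R : ℕ → ℝ) (hR : ∀ n, |R n| ≤ #(G1 n)) (h : SmF R) (κ : ℝ) (hκ : 0 < κ) : ∀ᶠ y : ℕ in atTop,
    ∑ n ∈ Ioc y (2 * y), |R n| ≤ κ * ((y : ℝ) / Real.log y) ^ 2 := by
  classical
  obtain ⟨C, hC, hl2⟩ := l2b
  set ε : ℝ := min (κ / 8) (κ ^ 2 / (8 * C)) with hε
  have hε0 : 0 < ε := by positivity
  have hε1 : ε ≤ κ / 8 := min_le_left _ _
  have hε2 : ε * C ≤ κ ^ 2 / 8 := by
    have := min_le_right (κ / 8) (κ ^ 2 / (8 * C))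
    rw [← hε, le_div_iff₀ (by positivity)] at this
    linarith
  obtain ⟨x₀, hx₀⟩ := eventually_atTop.1 (h ε hε0)
  filter_upwards [hl2, log2_sq, eventually_ge_atTop (x₀ + 3)] with y h1 h2 hy
  have hy0 : (0 : ℝ) < y := by exact_mod_cast (by omega : 0 < y)
  have hly : 0 < Real.log y := Real.log_pos (by exact_mod_cast (by omega : 1 < y))
  have h3 := hx₀ (2 * y) (by omega)
  set B := (Ioc y (2 * y)).filter (fun n : ℕ => ε * ((n : ℝ) / Real.log n ^ 2) < |R n|) with hB
  have hBc : (#B : ℝ) ≤ 2 * ε * y := by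
    have h4 : #B ≤ fails (fun n : ℕ => ¬ (ε * ((n : ℝ) / Real.log n ^ 2) < |R n|)) (2 * y) := by
      unfold fails
      apply card_le_card
      intro n hn
      rw [hB, mem_filter, mem_Ioc] at hn
      simp only [mem_filter, mem_Icc, not_not]
      exact ⟨⟨by omega, hn.1.2⟩, hn.2⟩
    calc (#B : ℝ) ≤ fails (fun n : ℕ => ¬ (ε * ((n : ℝ) / Real.log n ^ 2) < |R n|)) (2 * y) := by exact_mod_cast h4
      _ ≤ ε * ((2 * y : ℕ) : ℝ) := h3
      _ = _ := by push_cast; ring
  have h5 : ∑ n ∈ B, |R n| ≤ κ / 2 * ((y : ℝ) / Real.log y) ^ 2 := by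
    have h6 : (∑ n ∈ B, (#(G1 n) : ℝ)) ^ 2 ≤ #B * ∑ n ∈ B, (#(G1 n) : ℝ) ^ 2 := sq_sum_le_card_mul_sum_sq
    have h7 : ∑ n ∈ B, (#(G1 n) : ℝ) ^ 2 ≤ C * ((y : ℝ) ^ 3 / Real.log y ^ 4) :=
      (sum_le_sum_of_subset_of_nonneg (filter_subset _ _) fun _ _ _ => sq_nonneg _).trans h1
    have h8 : (∑ n ∈ B, (#(G1 n) : ℝ)) ^ 2 ≤ (κ / 2 * ((y : ℝ) / Real.log y) ^ 2) ^ 2 := by
      calc _ ≤ (#B : ℝ) * ∑ n ∈ B, (#(G1 n) : ℝ) ^ 2 := h6
        _ ≤ (2 * ε * y) * (C * ((y : ℝ) ^ 3 / Real.log y ^ 4)) := mul_le_mul hBc h7 (sum_nonneg fun _ _ => sq_nonneg _) (by positivity)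
        _ = 2 * (ε * C) * ((y : ℝ) / Real.log y) ^ 4 := by field_simp
        _ ≤ κ ^ 2 / 4 * ((y : ℝ) / Real.log y) ^ 4 := mul_le_mul_of_nonneg_right (by linarith) (by positivity)
        _ = _ := by ring
    have h9 := abs_le_of_sq_le_sq h8 (by positivity)
    calc ∑ n ∈ B, |R n| ≤ ∑ n ∈ B, (#(G1 n) : ℝ) := sum_le_sum fun n _ => hR n
      _ ≤ _ := (le_abs_self _).trans h9
  have h6 : ∑ n ∈ (Ioc y (2 * y)).filter (fun n : ℕ => ¬ (ε * ((n : ℝ) / Real.log n ^ 2) < |R n|)), |R n| ≤ κ / 2 * ((y : ℝ) / Real.log y) ^ 2 := by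
    calc _ ≤ ∑ n ∈ (Ioc y (2 * y)).filter (fun n : ℕ => ¬ (ε * ((n : ℝ) / Real.log n ^ 2) < |R n|)), ε * (2 * ((y : ℝ) / Real.log y ^ 2)) := by
          apply sum_le_sum
          intro n hn
          rw [mem_filter, mem_Ioc, not_lt] at hn
          exact hn.2.trans (mul_le_mul_of_nonneg_left (h2 n hn.1.1 hn.1.2).2 hε0.le)
      _ = #((Ioc y (2 * y)).filter (fun n : ℕ => ¬ (ε * ((n : ℝ) / Real.log n ^ 2) < |R n|))) * (ε * (2 * ((y : ℝ) / Real.log y ^ 2))) := by
          rw [sum_const, nsmul_eq_mul]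
      _ ≤ y * (ε * (2 * ((y : ℝ) / Real.log y ^ 2))) := by
          apply mul_le_mul_of_nonneg_right _ (by positivity)
          have h7 := card_filter_le (Ioc y (2 * y)) (fun n : ℕ => ¬ (ε * ((n : ℝ) / Real.log n ^ 2) < |R n|))
          rw [Nat.card_Ioc] at h7
          have h8 : #((Ioc y (2 * y)).filter (fun n : ℕ => ¬ (ε * ((n : ℝ) / Real.log n ^ 2) < |R n|))) ≤ y := by omega
          exact_mod_cast h8
      _ = 2 * ε * ((y : ℝ) / Real.log y) ^ 2 := by field_simp
      _ ≤ _ := by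
          apply mul_le_mul_of_nonneg_right _ (by positivity)
          linarith
  rw [← sum_filter_add_sum_filter_not (Ioc y (2 * y)) (fun n : ℕ => ε * ((n : ℝ) / Real.log n ^ 2) < |R n|)]
  linarith

/-- the primes in the progressions, uniformly up to `2y` -/
lemma pi_near (q : ℕ) (hq : 1 ≤ q) (ε : ℝ) (hε : 0 < ε) : ∀ᶠ y : ℕ in atTop, ∀ N : ℕ, N ≤ 2 * y → ∀ b : ℕ, b.Coprime q →
    |(piA q b N : ℝ) - N / (q.totient * Real.log y)| ≤ ε * (y / Real.log y) := by
  obtain ⟨C, hC, hps⟩ := primes_short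
  set θ : ℝ := min (1 / 2) (ε / (2 * C)) with hθ
  have hθ0 : 0 < θ := by positivity
  have hθ1 : θ ≤ 1 / 2 := min_le_left _ _
  have hθ2 : C * θ ≤ ε / 2 := by
    have := min_le_right (1 / 2) (ε / (2 * C))
    rw [← hθ, le_div_iff₀ (by positivity)] at this
    linarith
  have hφ1 : (1 : ℝ) ≤ q.totient := by exact_mod_cast Nat.totient_pos.2 hq
  set γ : ℝ := min (ε / 6) 1 with hγ
  have hγ0 : 0 < γ := by positivity
  have hγ1 : γ ≤ 1 := min_le_right _ _
  have hγ2 : γ ≤ ε / 6 := min_le_left _ _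
  obtain ⟨N₀, hN₀⟩ := piA_unif q hq γ hγ0
  set L : ℝ := Real.log (2 / θ) with hL
  have hL0 : 0 < L := Real.log_pos (by rw [lt_div_iff₀ hθ0]; linarith)
  have e1 : ∀ᶠ y : ℕ in atTop, 2 * L + 2 * L / γ + 1 ≤ Real.log y :=
    (Real.tendsto_log_atTop.comp tendsto_natCast_atTop_atTop).eventually_ge_atTop _
  have e2 : ∀ᶠ y : ℕ in atTop, ((N₀ : ℝ) + 2) / θ ≤ y := tendsto_natCast_atTop_atTop.eventually_ge_atTop _
  filter_upwards [hps θ hθ0, e1, e2, eventually_ge_atTop 3] with y h1 h2 h3 hy3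
  intro N hN b hb
  have hy0 : (0 : ℝ) < y := by exact_mod_cast (by omega : 0 < y)
  have hly : 0 < Real.log y := by
    have : 0 < 2 * L / γ := by positivity
    linarith
  have hN2 : (N : ℝ) ≤ 2 * y := by exact_mod_cast hN
  rcases lt_or_ge (N : ℝ) (θ * y) with hc | hc
  · have h4 := h1 0 ((Icc 1 N).filter (fun p => p.Prime ∧ p ≡ b [MOD q])) (by
      intro p hp
      rw [mem_filter, mem_Icc] at hp
      refine ⟨hp.2.1, Nat.zero_le _, ?_⟩
      have : (p : ℝ) ≤ N := by exact_mod_cast hp.1.2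
      push_cast; linarith)
    have h5 : (piA q b N : ℝ) ≤ ε / 2 * (y / Real.log y) := by
      refine h4.trans ?_
      exact mul_le_mul_of_nonneg_right hθ2 (by positivity)
    have h6 : (N : ℝ) / (q.totient * Real.log y) ≤ ε / 2 * (y / Real.log y) := by
      calc (N : ℝ) / (q.totient * Real.log y) ≤ (θ * y) / (1 * Real.log y) := by
            apply div_le_div₀ (by positivity) hc.le (by positivity)
            exact mul_le_mul_of_nonneg_right hφ1 hly.le
        _ = θ * (y / Real.log y) := by rw [one_mul, mul_div_assoc]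
        _ ≤ _ := by
            apply mul_le_mul_of_nonneg_right _ (by positivity)
            nlinarith
    have h7 : (0 : ℝ) ≤ piA q b N := Nat.cast_nonneg _
    have h8 : (0 : ℝ) ≤ (N : ℝ) / (q.totient * Real.log y) := by positivity
    rw [abs_le]; constructor <;> linarith
  · have hNN : N₀ ≤ N := by
      rw [div_le_iff₀ hθ0] at h3
      have : (N₀ : ℝ) ≤ N := by linarith
      exact_mod_cast this
    have hN0 : (0 : ℝ) < N := lt_of_lt_of_le (by positivity) hc
    have h4 := hN₀ N hNN b hb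
    have h5 : |Real.log N - Real.log y| ≤ L := by
      rw [abs_le]
      constructor
      · have h6 : Real.log (θ * y) ≤ Real.log N := Real.log_le_log (by positivity) hc
        rw [Real.log_mul hθ0.ne' hy0.ne'] at h6
        have h7 : L = Real.log 2 - Real.log θ := by rw [hL, Real.log_div (by norm_num) hθ0.ne']
        have h8 : 0 < Real.log 2 := Real.log_pos (by norm_num)
        linarith
      · have h6 : Real.log N ≤ Real.log (2 * y) := Real.log_le_log hN0 hN2
        rw [Real.log_mul (by norm_num) hy0.ne'] at h6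
        have h7 : L = Real.log 2 - Real.log θ := by rw [hL, Real.log_div (by norm_num) hθ0.ne']
        have h8 : Real.log θ < 0 := Real.log_neg hθ0 (by linarith)
        linarith
    have hg : 2 * L / γ ≤ Real.log y := by linarith [hL0.le]
    rw [div_le_iff₀ hγ0] at hg
    have hlN : Real.log y / 2 ≤ Real.log N := by
      have := (abs_le.1 h5).1
      have : 0 < 2 * L / γ := by positivity
      linarith
    have hlN0 : 0 < Real.log N := by linarith
    set P : ℝ := (piA q b N : ℝ) with hP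
    have hP0 : 0 ≤ P := Nat.cast_nonneg _
    have h6 : P * Real.log N ≤ 2 * N := by
      have h7 := (abs_le.1 h4).2
      have h8 : (N : ℝ) / q.totient ≤ N := div_le_self hN0.le hφ1
      nlinarith
    have h7 : |P * Real.log y - P * Real.log N| ≤ 2 * γ * N := by
      rw [← mul_sub, abs_mul, abs_of_nonneg hP0, abs_sub_comm]
      have h8 : |Real.log N - Real.log y| ≤ γ * Real.log N := by
        refine h5.trans ?_
        have : L ≤ γ * (Real.log y / 2) := by linarith
        exact this.trans (mul_le_mul_of_nonneg_left hlN hγ0.le)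
      calc P * |Real.log N - Real.log y| ≤ P * (γ * Real.log N) := mul_le_mul_of_nonneg_left h8 hP0
        _ = γ * (P * Real.log N) := by ring
        _ ≤ γ * (2 * N) := mul_le_mul_of_nonneg_left h6 hγ0.le
        _ = _ := by ring
    have h8 : |P * Real.log y - N / q.totient| ≤ 3 * γ * N := by
      have := abs_sub_le (P * Real.log y) (P * Real.log N) (N / q.totient)
      linarith
    have h9 : P - N / (q.totient * Real.log y) = (P * Real.log y - N / q.totient) / Real.log y := by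
      have : (q.totient : ℝ) ≠ 0 := by positivity
      field_simp
    rw [h9, abs_div, abs_of_pos hly, ← mul_div_assoc]
    apply div_le_div_of_nonneg_right _ hly.le
    nlinarith

lemma piA_not (q b N : ℕ) (hq : 1 ≤ q) (hb : ¬ b.Coprime q) : piA q b N ≤ q := by
  unfold piA
  have h1 : (Icc 1 N).filter (fun p => p.Prime ∧ p ≡ b [MOD q]) ⊆ Icc 1 q := by
    intro p hp
    rw [mem_filter, mem_Icc] at hp
    rw [mem_Icc]
    refine ⟨hp.1.1, ?_⟩
    have h2 : ¬ p.Coprime q := by
      intro h3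
      apply hb
      rw [Nat.Coprime, ← hp.2.2.gcd_eq]
      exact h3
    rw [Nat.Prime.coprime_iff_not_dvd hp.2.1, not_not] at h2
    exact Nat.le_of_dvd hq h2
  refine (card_le_card h1).trans ?_
  rw [Nat.card_Icc]; omega

/-- the primes `n - p` -/
lemma cnt_eq (q : ℕ) (hq : 1 ≤ q) (c p y H : ℕ) (hp : p ≤ y) :
    piA q (c + (q - 1) * p) (y - p) + #((Ioc y (y + H)).filter (fun n => n ≡ c [MOD q] ∧ (n - p).Prime)) =
      piA q (c + (q - 1) * p) (y + H - p) := by
  have h1 : ∀ r : ℕ, r ≡ c + (q - 1) * p [MOD q] ↔ r + p ≡ c [MOD q] := by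
    intro r
    have h2 : c + (q - 1) * p + p ≡ c [MOD q] := by
      have : c + (q - 1) * p + p = c + q * p := by
        obtain ⟨k, rfl⟩ : ∃ k, q = k + 1 := ⟨q - 1, by omega⟩
        rw [Nat.add_sub_cancel]; ring
      rw [this]
      have h3 : q * p ≡ 0 [MOD q] := (Nat.modEq_zero_iff_dvd).2 (dvd_mul_right _ _)
      exact Nat.ModEq.add_left c h3
    constructor
    · intro h
      exact (Nat.ModEq.add_right p h).trans h2
    · intro h
      exact Nat.ModEq.add_right_cancel' p (h.trans h2.symm)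
  have h2 : #((Ioc y (y + H)).filter (fun n => n ≡ c [MOD q] ∧ (n - p).Prime)) =
      #((Ioc (y - p) (y + H - p)).filter (fun r => r.Prime ∧ r ≡ c + (q - 1) * p [MOD q])) := by
    apply card_bij' (fun n _ => n - p) (fun r _ => r + p)
    · intro n hn
      rw [mem_filter, mem_Ioc] at hn ⊢
      refine ⟨⟨by omega, by omega⟩, hn.2.2, ?_⟩
      rw [h1, Nat.sub_add_cancel (by omega)]
      exact hn.2.1
    · intro r hr
      rw [mem_filter, mem_Ioc] at hr ⊢
      refine ⟨⟨by omega, by omega⟩, (h1 r).1 hr.2.2, ?_⟩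
      rw [Nat.add_sub_cancel]; exact hr.2.1
    · intro n hn
      rw [mem_filter, mem_Ioc] at hn
      omega
    · intro r hr
      omega
  rw [h2]
  unfold piA
  rw [← card_union_of_disjoint]
  · congr 1
    ext r
    simp only [mem_union, mem_filter, mem_Icc, mem_Ioc]
    constructor
    · rintro (⟨⟨k1, k2⟩, k3⟩ | ⟨⟨k1, k2⟩, k3⟩)
      · exact ⟨⟨k1, by omega⟩, k3⟩
      · exact ⟨⟨by omega, k2⟩, k3⟩
    · rintro ⟨⟨k1, k2⟩, k3⟩
      by_cases hr : r ≤ y - p
      · exact Or.inl ⟨⟨k1, hr⟩, k3⟩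
      · exact Or.inr ⟨⟨by omega, k2⟩, k3⟩
  · rw [disjoint_left]
    intro r hr hr'
    rw [mem_filter, mem_Icc] at hr
    rw [mem_filter, mem_Ioc] at hr'
    omega

/-- double counting -/
lemma sum_rep (f : ℕ → ℝ) (y H q c : ℕ) :
    ∑ n ∈ (Ioc y (y + H)).filter (fun n => n ≡ c [MOD q]), rep f n =
      ∑ p ∈ (Icc 1 (y + H)).filter Nat.Prime, f p * #((Ioc y (y + H)).filter (fun n => n ≡ c [MOD q] ∧ (n - p).Prime)) := by
  have h1 : ∀ n ∈ (Ioc y (y + H)).filter (fun n => n ≡ c [MOD q]), rep f n =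
      ∑ p ∈ (Icc 1 (y + H)).filter Nat.Prime, if (n - p).Prime then f p else 0 := by
    intro n hn
    rw [mem_filter, mem_Ioc] at hn
    rw [← sum_filter]
    unfold rep
    apply sum_congr _ (fun _ _ => rfl)
    ext p
    simp only [G1, mem_filter, mem_range, mem_Icc]
    constructor
    · rintro ⟨k1, k2, k3⟩
      exact ⟨⟨⟨k2.one_le, by omega⟩, k2⟩, k3⟩
    · rintro ⟨⟨k1, k2⟩, k3⟩
      have := k3.pos
      exact ⟨by omega, k2, k3⟩
  rw [sum_congr rfl h1, sum_comm]
  apply sum_congr rfl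
  intro p _
  rw [← sum_filter, sum_const, nsmul_eq_mul, filter_filter, mul_comm]

/-- the weighted number of the primes `p ≤ y` with `t - p` invertible modulo `q` -/
noncomputable def Uf (f : ℕ → ℝ) (q c y : ℕ) : ℝ := ∑ p ∈ (Icc 1 y).filter Nat.Prime, if (c + (q - 1) * p).Coprime q then f p else 0

theorem U_small {f : ℕ → ℝ} (hf : ∀ p, |f p| ≤ 1) (h : Sm f) (q : ℕ) (hq : 1 ≤ q) (c : ℕ) (κ : ℝ) (hκ : 0 < κ) :
    ∀ᶠ y : ℕ in atTop, |Uf f q c y| ≤ κ * (y / Real.log y) := by
  classical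
  obtain ⟨C, hC, hps⟩ := primes_short
  have hφ0 : (0 : ℝ) < q.totient := by exact_mod_cast Nat.totient_pos.2 hq
  set φ : ℝ := (q.totient : ℝ) with hφ
  set η : ℝ := min 1 (κ / (2 * φ * (C ^ 2 + 4))) with hη
  have hη0 : 0 < η := by positivity
  have hη1 : η ≤ 1 := min_le_left _ _
  have hη2 : 2 * φ * (C ^ 2 + 4) * η ≤ κ := by
    have := min_le_right 1 (κ / (2 * φ * (C ^ 2 + 4)))
    rw [← hη, le_div_iff₀ (by positivity)] at this
    linarith
  set ε : ℝ := η ^ 2 / C with hε
  have hε0 : 0 < ε := by positivity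
  have hεC : C * ε = η ^ 2 := by rw [hε]; field_simp
  have hR : ∀ n, |rep f n| ≤ #(G1 n) := by
    intro n
    unfold rep
    calc |∑ p ∈ G1 n, f p| ≤ ∑ p ∈ G1 n, |f p| := abs_sum_le_sum_abs _ _
      _ ≤ ∑ p ∈ G1 n, 1 := sum_le_sum fun p _ => hf p
      _ = _ := by rw [sum_const, nsmul_eq_mul, mul_one]
  have e1 := sum_small (rep f) hR h (η ^ 2) (by positivity)
  have e2 := pi_near q hq ε hε0
  have e3 : ∀ᶠ y : ℕ in atTop, 2 / η ≤ (y : ℝ) := tendsto_natCast_atTop_atTop.eventually_ge_atTop _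
  filter_upwards [e1, e2, e3, hps η hη0, hps 1 one_pos, ev_const q ε hε0, eventually_ge_atTop 3] with y k1 k2 k3 k4 k5 k6 hy3
  have hy0 : (0 : ℝ) < y := by exact_mod_cast (by omega : 0 < y)
  have hly : 0 < Real.log y := Real.log_pos (by exact_mod_cast (by omega : 1 < y))
  set Z : ℝ := (y : ℝ) / Real.log y with hZ
  have hZ0 : 0 < Z := by positivity
  set H : ℕ := ⌊η * y⌋₊ with hH
  have hH1 : (H : ℝ) ≤ η * y := Nat.floor_le (by positivity)
  have hH2 : η * y / 2 ≤ H := by
    have := Nat.lt_floor_add_one (η * (y : ℝ))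
    rw [← hH] at this
    rw [div_le_iff₀ hη0] at k3
    linarith
  have hHy : H ≤ y := by
    have : (H : ℝ) ≤ y := by nlinarith
    exact_mod_cast this
  have hH0 : (0 : ℝ) < H := lt_of_lt_of_le (by positivity) hH2
  -- the sum of the representations
  set S : ℝ := ∑ n ∈ (Ioc y (y + H)).filter (fun n => n ≡ c [MOD q]), rep f n with hS
  have hSb : |S| ≤ η ^ 2 * Z ^ 2 := by
    calc |S| ≤ ∑ n ∈ (Ioc y (y + H)).filter (fun n => n ≡ c [MOD q]), |rep f n| := abs_sum_le_sum_abs _ _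
      _ ≤ ∑ n ∈ Ioc y (2 * y), |rep f n| := by
          apply sum_le_sum_of_subset_of_nonneg _ (fun _ _ _ => abs_nonneg _)
          intro n hn
          rw [mem_filter, mem_Ioc] at hn
          rw [mem_Ioc]; omega
      _ ≤ _ := k1
  set cnt : ℕ → ℝ := fun p => (#((Ioc y (y + H)).filter (fun n => n ≡ c [MOD q] ∧ (n - p).Prime)) : ℝ) with hcnt
  have hS2 : S = ∑ p ∈ (Icc 1 (y + H)).filter Nat.Prime, f p * cnt p := sum_rep f y H q c
  set P1 := (Icc 1 y).filter Nat.Prime with hP1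
  set P2 := (Ioc y (y + H)).filter Nat.Prime with hP2
  have hsplit : (Icc 1 (y + H)).filter Nat.Prime = P1 ∪ P2 := by
    ext p
    simp only [hP1, hP2, mem_union, mem_filter, mem_Icc, mem_Ioc]
    constructor
    · rintro ⟨⟨a1, a2⟩, a3⟩
      by_cases hpy : p ≤ y
      · exact Or.inl ⟨⟨a1, hpy⟩, a3⟩
      · exact Or.inr ⟨⟨by omega, a2⟩, a3⟩
    · rintro (⟨⟨a1, a2⟩, a3⟩ | ⟨⟨a1, a2⟩, a3⟩)
      · exact ⟨⟨a1, by omega⟩, a3⟩
      · exact ⟨⟨by omega, a2⟩, a3⟩
  have hdisj : Disjoint P1 P2 := by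
    rw [disjoint_left]
    intro p hp hp'
    rw [hP1, mem_filter, mem_Icc] at hp
    rw [hP2, mem_filter, mem_Ioc] at hp'
    omega
  rw [hsplit, sum_union hdisj] at hS2
  have hP1c : (#P1 : ℝ) ≤ C * Z := by
    have := k5 0 P1 (by
      intro p hp
      rw [hP1, mem_filter, mem_Icc] at hp
      refine ⟨hp.2, Nat.zero_le _, ?_⟩
      have : (p : ℝ) ≤ y := by exact_mod_cast hp.1.2
      push_cast; linarith)
    linarith
  have hP2c : (#P2 : ℝ) ≤ C * η * Z := by
    exact k4 y P2 (by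
      intro p hp
      rw [hP2, mem_filter, mem_Ioc] at hp
      refine ⟨hp.2, by omega, ?_⟩
      have : (p : ℝ) ≤ ((y + H : ℕ) : ℝ) := by exact_mod_cast hp.1.2
      push_cast at this
      linarith)
  -- the large primes
  have hlarge : |∑ p ∈ P2, f p * cnt p| ≤ C ^ 2 * η ^ 2 * Z ^ 2 := by
    have h1 : ∀ p ∈ P2, |f p * cnt p| ≤ C * η * Z := by
      intro p hp
      rw [hP2, mem_filter, mem_Ioc] at hp
      have h2 : (#(((Ioc y (y + H)).filter (fun n => n ≡ c [MOD q] ∧ (n - p).Prime)).image (fun n => n - p)) : ℝ) ≤ C * η * Z := by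
        refine k4 0 _ ?_
        intro r hr
        rw [mem_image] at hr
        obtain ⟨n, hn, rfl⟩ := hr
        rw [mem_filter, mem_Ioc] at hn
        refine ⟨hn.2.2, Nat.zero_le _, ?_⟩
        have h3 : n - p ≤ H := by omega
        have h4 : ((n - p : ℕ) : ℝ) ≤ H := by exact_mod_cast h3
        push_cast at h4 ⊢
        linarith
      rw [card_image_of_injOn] at h2
      · rw [abs_mul]
        have h5 : |cnt p| ≤ C * η * Z := by
          rw [abs_of_nonneg (by simp only [hcnt]; positivity)]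
          exact h2
        calc |f p| * |cnt p| ≤ 1 * |cnt p| := mul_le_mul_of_nonneg_right (hf p) (abs_nonneg _)
          _ ≤ _ := by rw [one_mul]; exact h5
      · intro a ha b hb hab
        rw [mem_coe, mem_filter] at ha hb
        simp only at hab
        have h6 := ha.2.2.pos
        have h7 := hb.2.2.pos
        omega
    calc |∑ p ∈ P2, f p * cnt p| ≤ ∑ p ∈ P2, |f p * cnt p| := abs_sum_le_sum_abs _ _
      _ ≤ ∑ p ∈ P2, C * η * Z := sum_le_sum h1
      _ = #P2 * (C * η * Z) := by rw [sum_const, nsmul_eq_mul]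
      _ ≤ (C * η * Z) * (C * η * Z) := mul_le_mul_of_nonneg_right hP2c (by positivity)
      _ = _ := by ring
  -- the small primes
  have hsmall : |∑ p ∈ P1, f p * cnt p - H / (φ * Real.log y) * Uf f q c y| ≤ 3 * (C * ε) * Z ^ 2 := by
    have h1 : ∀ p ∈ P1, |cnt p - if (c + (q - 1) * p).Coprime q then H / (φ * Real.log y) else 0| ≤ 3 * ε * Z := by
      intro p hp
      rw [hP1, mem_filter, mem_Icc] at hp
      have h2 := cnt_eq q hq c p y H hp.1.2
      have h3 : cnt p = (piA q (c + (q - 1) * p) (y + H - p) : ℝ) - piA q (c + (q - 1) * p) (y - p) := by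
        rw [← h2]; push_cast; simp only [hcnt]; ring
      split_ifs with hcp
      · have h4 := k2 (y + H - p) (by omega) (c + (q - 1) * p) hcp
        have h5 := k2 (y - p) (by omega) (c + (q - 1) * p) hcp
        have h6 : ((y + H - p : ℕ) : ℝ) = y + H - p := by
          rw [Nat.cast_sub (by omega)]; push_cast; ring
        have h7 : ((y - p : ℕ) : ℝ) = y - p := by
          rw [Nat.cast_sub hp.1.2]
        rw [h6] at h4
        rw [h7] at h5
        have h8 : cnt p - H / (φ * Real.log y) = ((piA q (c + (q - 1) * p) (y + H - p) : ℝ) - (y + H - p) / (φ * Real.log y)) -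
            ((piA q (c + (q - 1) * p) (y - p) : ℝ) - (y - p) / (φ * Real.log y)) := by
          rw [h3]
          field_simp
          ring
        rw [h8]
        refine (abs_sub _ _).trans ?_
        have : 0 ≤ ε * Z := by positivity
        linarith
      · have h4 := piA_not q (c + (q - 1) * p) (y + H - p) hq hcp
        have h5 : cnt p ≤ q := by
          rw [h3]
          have : (piA q (c + (q - 1) * p) (y + H - p) : ℝ) ≤ q := by exact_mod_cast h4
          have : (0 : ℝ) ≤ piA q (c + (q - 1) * p) (y - p) := Nat.cast_nonneg _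
          linarith
        have h6 : 0 ≤ cnt p := by simp only [hcnt]; positivity
        rw [sub_zero, abs_of_nonneg h6]
        have : 0 ≤ ε * Z := by positivity
        linarith
    have h2 : ∑ p ∈ P1, f p * cnt p - H / (φ * Real.log y) * Uf f q c y =
        ∑ p ∈ P1, f p * (cnt p - if (c + (q - 1) * p).Coprime q then H / (φ * Real.log y) else 0) := by
      unfold Uf
      rw [mul_sum, ← sum_sub_distrib]
      apply sum_congr rfl
      intro p _
      split_ifs <;> ring
    rw [h2]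
    calc _ ≤ ∑ p ∈ P1, |f p * (cnt p - if (c + (q - 1) * p).Coprime q then H / (φ * Real.log y) else 0)| := abs_sum_le_sum_abs _ _
      _ ≤ ∑ p ∈ P1, 3 * ε * Z := by
          apply sum_le_sum
          intro p hp
          rw [abs_mul]
          calc _ ≤ 1 * |cnt p - if (c + (q - 1) * p).Coprime q then H / (φ * Real.log y) else 0| := mul_le_mul_of_nonneg_right (hf p) (abs_nonneg _)
            _ ≤ _ := by rw [one_mul]; exact h1 p hp
      _ = #P1 * (3 * ε * Z) := by rw [sum_const, nsmul_eq_mul]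
      _ ≤ (C * Z) * (3 * ε * Z) := mul_le_mul_of_nonneg_right hP1c (by positivity)
      _ = _ := by ring
  have hmain : |H / (φ * Real.log y) * Uf f q c y| ≤ (C ^ 2 + 4) * η ^ 2 * Z ^ 2 := by
    have h1 : H / (φ * Real.log y) * Uf f q c y = S - ∑ p ∈ P2, f p * cnt p - (∑ p ∈ P1, f p * cnt p - H / (φ * Real.log y) * Uf f q c y) := by
      rw [hS2]; ring
    rw [h1]
    have h2 := abs_sub (S - ∑ p ∈ P2, f p * cnt p) (∑ p ∈ P1, f p * cnt p - H / (φ * Real.log y) * Uf f q c y)
    have h3 := abs_sub S (∑ p ∈ P2, f p * cnt p)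
    rw [hεC] at hsmall
    nlinarith
  rw [abs_mul, abs_of_pos (show 0 < H / (φ * Real.log y) by positivity)] at hmain
  have h1 : η * Z / (2 * φ) * |Uf f q c y| ≤ (C ^ 2 + 4) * η ^ 2 * Z ^ 2 := by
    refine le_trans (mul_le_mul_of_nonneg_right ?_ (abs_nonneg _)) hmain
    rw [hZ, div_le_div_iff₀ (by positivity) (by positivity)]
    have : η * (y / Real.log y) * (φ * Real.log y) = (η * y / 2) * (2 * φ) := by field_simp
    rw [this]
    exact mul_le_mul_of_nonneg_right hH2 (by positivity)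
  have h2 : |Uf f q c y| ≤ 2 * φ * (C ^ 2 + 4) * η * Z := by
    have h3 : (η * Z / (2 * φ)) * |Uf f q c y| ≤ (η * Z / (2 * φ)) * (2 * φ * (C ^ 2 + 4) * η * Z) := by
      refine h1.trans (le_of_eq ?_)
      field_simp
    exact le_of_mul_le_mul_left h3 (by positivity)
  exact h2.trans (mul_le_mul_of_nonneg_right hη2 hZ0.le)

end Pool.Agent.W5h22.CR
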