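import Mathlib
import Pool.Agent.W5h22.CR.C

set_option autoImplicit false

/-! Inversion over the residue classes modulo a squarefree integer; the criterion. -/

namespace Pool.Agent.W5h22.CR
open Finset Filter Topology
open Pool.Agent.W5h22.GS
open Pool.Agent.W5h22.RB (E)

/-- the inversion weight -/
noncomputable def kap (q a : ℕ) (t : ZMod q) : ℝ :=
  ∏ l ∈ q.primeFactors, (1 / ((l : ℝ) - 1) - if (t.cast : ZMod l) = (a : ZMod l) then 1 else 0)

lemma local_sum (l : ℕ) (hl : l.Prime) (a p : ZMod l) :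
    ∑ x ∈ range l, (1 / ((l : ℝ) - 1) - if (x : ZMod l) = a then 1 else 0) * (if (x : ZMod l) ≠ p then (1 : ℝ) else 0) =
      if p = a then 1 else 0 := by
  have : Fact l.Prime := ⟨hl⟩
  have h1 : ∑ x ∈ range l, (1 / ((l : ℝ) - 1) - if (x : ZMod l) = a then 1 else 0) * (if (x : ZMod l) ≠ p then (1 : ℝ) else 0) =
      ∑ x : ZMod l, (1 / ((l : ℝ) - 1) - if x = a then 1 else 0) * (if x ≠ p then (1 : ℝ) else 0) := by
    rw [← Pool.Agent.H373R2.NB.sum_val (M := l) (fun x : ℕ => (1 / ((l : ℝ) - 1) - if (x : ZMod l) = a then 1 else 0) * (if (x : ZMod l) ≠ p then (1 : ℝ) else 0))]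
    apply sum_congr rfl
    intro x _
    rw [ZMod.natCast_zmod_val]
  have hl1 : (0 : ℝ) < (l : ℝ) - 1 := by
    have : (2 : ℝ) ≤ l := by exact_mod_cast hl.two_le
    linarith
  rw [h1]
  have h2 : ∑ x : ZMod l, (1 / ((l : ℝ) - 1) - if x = a then 1 else 0) * (if x ≠ p then (1 : ℝ) else 0) =
      ∑ x ∈ univ.erase p, (1 / ((l : ℝ) - 1) - if x = a then 1 else 0) := by
    rw [← add_sum_erase univ _ (mem_univ p)]
    have e0 : (if p ≠ p then (1 : ℝ) else 0) = 0 := if_neg (fun h => h rfl)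
    rw [e0, mul_zero, zero_add]
    apply sum_congr rfl
    intro x hx
    rw [if_pos (ne_of_mem_erase hx), mul_one]
  rw [h2, sum_sub_distrib, sum_const, nsmul_eq_mul, card_erase_of_mem (mem_univ p), card_univ, ZMod.card,
    Nat.cast_sub hl.one_le, Nat.cast_one, mul_one_div_cancel hl1.ne', sum_ite_eq']
  by_cases h : p = a
  · rw [if_pos h, if_neg (by rw [h]; simp)]
    ring
  · rw [if_neg h, if_pos (mem_erase.2 ⟨fun h2 => h h2.symm, mem_univ _⟩)]
    ring

lemma inv (q : ℕ) [NeZero q] (hq : Squarefree q) (a p : ℕ) :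
    ∑ t : ZMod q, kap q a t * (if IsUnit (t - (p : ZMod q)) then (1 : ℝ) else 0) = if p ≡ a [MOD q] then 1 else 0 := by
  classical
  have hq0 : q ≠ 0 := hq.ne_zero
  have h1 : ∀ t : ZMod q, kap q a t * (if IsUnit (t - (p : ZMod q)) then (1 : ℝ) else 0) =
      ∏ l ∈ q.primeFactors, (fun (l : ℕ) (x : ZMod l) => (1 / ((l : ℝ) - 1) - if x = (a : ZMod l) then 1 else 0) * (if x ≠ (p : ZMod l) then (1 : ℝ) else 0)) l (t.cast : ZMod l) := by
    intro t
    unfold kap
    simp only
    rw [prod_mul_distrib]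
    congr 1
    have h2 : IsUnit (t - (p : ZMod q)) ↔ ∀ l ∈ q.primeFactors, (t.cast : ZMod l) ≠ (p : ZMod l) := by
      rw [unit_iff]
      apply forall₂_congr
      intro l hl
      have hd : l ∣ q := Nat.dvd_of_mem_primeFactors hl
      have e : ((t - (p : ZMod q)).cast : ZMod l) = (t.cast : ZMod l) - (p : ZMod l) := by
        rw [ZMod.cast_sub hd, ZMod.cast_natCast hd]
      rw [e, Ne, sub_eq_zero]
    by_cases hu : IsUnit (t - (p : ZMod q))
    · rw [if_pos hu]
      symm
      apply prod_eq_one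
      intro l hl
      rw [if_pos (h2.1 hu l hl)]
    · rw [if_neg hu]
      symm
      rw [h2] at hu
      push Not at hu
      obtain ⟨l, hl, h3⟩ := hu
      apply prod_eq_zero hl
      rw [if_neg (by simpa using h3)]
  rw [sum_congr rfl fun t _ => h1 t]
  have h3 := E_primes q inferInstance (fun (l : ℕ) (x : ZMod l) => (1 / ((l : ℝ) - 1) - if x = (a : ZMod l) then 1 else 0) * (if x ≠ (p : ZMod l) then (1 : ℝ) else 0))
  unfold E at h3
  have hq1 : (q : ℝ) ≠ 0 := by exact_mod_cast hq0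
  rw [div_eq_iff hq1] at h3
  rw [h3]
  have h4 : (q : ℝ) = ∏ l ∈ q.primeFactors, (l : ℝ) := by
    rw [← Nat.cast_prod, Nat.prod_primeFactors_of_squarefree hq]
  conv_lhs => rw [h4]
  rw [← prod_mul_distrib]
  have h5 : ∀ l ∈ q.primeFactors, ((∑ x ∈ range l, (1 / ((l : ℝ) - 1) - if (x : ZMod l) = (a : ZMod l) then 1 else 0) *
      (if (x : ZMod l) ≠ (p : ZMod l) then (1 : ℝ) else 0)) / l) * l = if (p : ZMod l) = (a : ZMod l) then 1 else 0 := by
    intro l hl
    have hlp := Nat.prime_of_mem_primeFactors hl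
    have : (l : ℝ) ≠ 0 := by exact_mod_cast hlp.ne_zero
    rw [local_sum l hlp, div_mul_cancel₀ _ this]
  rw [prod_congr rfl h5]
  by_cases h : p ≡ a [MOD q]
  · rw [if_pos h]
    apply prod_eq_one
    intro l hl
    rw [if_pos]
    rw [ZMod.natCast_eq_natCast_iff]
    exact h.of_dvd (Nat.dvd_of_mem_primeFactors hl)
  · rw [if_neg h]
    by_contra h6
    apply h
    have h7 : ∀ l ∈ q.primeFactors, (p : ZMod l) = (a : ZMod l) := by
      intro l hl
      by_contra h8
      apply h6
      apply prod_eq_zero hl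
      rw [if_neg h8]
    rw [← Nat.prod_primeFactors_of_squarefree hq]
    have h8 : ∀ s : Finset ℕ, s ⊆ q.primeFactors → p ≡ a [MOD ∏ l ∈ s, l] := by
      intro s
      induction s using Finset.induction_on with
      | empty => intro _; rw [prod_empty]; exact Nat.modEq_one
      | insert l s hls ih =>
        intro hs
        rw [prod_insert hls]
        have h9 := ih (fun x hx => hs (mem_insert_of_mem hx))
        have h10 := h7 l (hs (mem_insert_self _ _))
        rw [ZMod.natCast_eq_natCast_iff] at h10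
        refine (Nat.modEq_and_modEq_iff_modEq_mul ?_).1 ⟨h10, h9⟩
        apply Nat.Coprime.prod_right
        intro r hr
        rw [Nat.coprime_primes (Nat.prime_of_mem_primeFactors (hs (mem_insert_self _ _)))
          (Nat.prime_of_mem_primeFactors (hs (mem_insert_of_mem hr)))]
        rintro rfl
        exact hls hr
    exact h8 _ subset_rfl

/-- the sum over a class -/
lemma cl_eq (f : ℕ → ℝ) (q : ℕ) [NeZero q] (hq : Squarefree q) (a y : ℕ) :
    ∑ p ∈ cl q a y, f p = ∑ t : ZMod q, kap q a t * Uf f q t.val y := by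
  have hq1 : 1 ≤ q := Nat.one_le_iff_ne_zero.2 hq.ne_zero
  have h1 : ∀ t : ZMod q, kap q a t * Uf f q t.val y = ∑ p ∈ (Icc 1 y).filter Nat.Prime, f p * (kap q a t * (if IsUnit (t - (p : ZMod q)) then (1 : ℝ) else 0)) := by
    intro t
    unfold Uf
    rw [mul_sum]
    apply sum_congr rfl
    intro p _
    have h2 : (t.val + (q - 1) * p).Coprime q ↔ IsUnit (t - (p : ZMod q)) := by
      rw [← ZMod.isUnit_iff_coprime]
      have h3 : ((t.val + (q - 1) * p : ℕ) : ZMod q) = t - p := by
        rw [Nat.cast_add, Nat.cast_mul, Nat.cast_sub hq1, ZMod.natCast_zmod_val, ZMod.natCast_self]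
        push_cast; ring
      rw [h3]
    by_cases h : IsUnit (t - (p : ZMod q))
    · rw [if_pos (h2.2 h), if_pos h]; ring
    · rw [if_neg (fun h3 => h (h2.1 h3)), if_neg h]; ring
  rw [sum_congr rfl fun t _ => h1 t, sum_comm]
  have h2 : cl q a y = ((Icc 1 y).filter Nat.Prime).filter (fun p => p ≡ a [MOD q]) := by
    unfold cl
    rw [filter_filter]
  rw [h2, sum_filter]
  apply sum_congr rfl
  intro p _
  rw [← mul_sum, inv q hq a p]
  split_ifs <;> ring

theorem nec {f : ℕ → ℝ} (hf : ∀ p, |f p| ≤ 1) (h : Sm f) : Eq f := by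
  intro q hq a _
  have : NeZero q := ⟨hq.ne_zero⟩
  have hq1 : 1 ≤ q := Nat.one_le_iff_ne_zero.2 hq.ne_zero
  rw [Metric.tendsto_nhds]
  intro ε hε
  set K : ℝ := ∑ t : ZMod q, |kap q a t| with hK
  have hK0 : 0 ≤ K := sum_nonneg fun _ _ => abs_nonneg _
  have h1 : ∀ᶠ y : ℕ in atTop, ∀ t : ZMod q, |Uf f q t.val y| ≤ ε / (2 * (K + 1)) * (y / Real.log y) := by
    rw [eventually_all]
    intro t
    exact U_small hf h q hq1 t.val _ (by positivity)
  filter_upwards [h1, eventually_ge_atTop 3] with y hy hy3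
  have hy0 : (0 : ℝ) < y := by exact_mod_cast (by omega : 0 < y)
  have hly : 0 < Real.log y := Real.log_pos (by exact_mod_cast (by omega : 1 < y))
  rw [Real.dist_eq, sub_zero, abs_div, abs_mul, abs_of_pos hly, abs_of_pos hy0, div_lt_iff₀ hy0, cl_eq f q hq a y]
  have h2 : |∑ t : ZMod q, kap q a t * Uf f q t.val y| ≤ ε / 2 * (y / Real.log y) := by
    calc |∑ t : ZMod q, kap q a t * Uf f q t.val y| ≤ ∑ t : ZMod q, |kap q a t * Uf f q t.val y| := abs_sum_le_sum_abs _ _
      _ ≤ ∑ t : ZMod q, |kap q a t| * (ε / (2 * (K + 1)) * (y / Real.log y)) := by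
          apply sum_le_sum
          intro t _
          rw [abs_mul]
          exact mul_le_mul_of_nonneg_left (hy t) (abs_nonneg _)
      _ = K * (ε / (2 * (K + 1)) * (y / Real.log y)) := by rw [← sum_mul]
      _ ≤ (K + 1) * (ε / (2 * (K + 1)) * (y / Real.log y)) := mul_le_mul_of_nonneg_right (by linarith) (by positivity)
      _ = _ := by field_simp
  calc _ ≤ (ε / 2 * (y / Real.log y)) * Real.log y := mul_le_mul_of_nonneg_right h2 hly.le
    _ = ε / 2 * y := by field_simp
    _ < ε * y := by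
        apply mul_lt_mul_of_pos_right _ hy0
        linarith

/-- **The criterion.** -/
theorem crit {f : ℕ → ℝ} (hf : ∀ p, |f p| ≤ 1) : Sm f ↔ Eq f := ⟨nec hf, suff hf⟩

end Pool.Agent.W5h22.CR
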