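import Mathlib
import Pool.Agent.W5h22.CR.D

set_option autoImplicit false

/-! The criterion in terms of the indices of the primes. -/

namespace Pool.Agent.W5h22.CR
open Finset Filter Topology
open Pool.Agent.W5h22.GS
open Pool.Agent.Helper602.MK (N_J13.J13)

/-- the sum over the first `N` primes -/
lemma sum_idx (g : ℕ → ℝ) (x : ℕ) : ∑ k ∈ Icc 1 (Nat.primeCounting x), g (Nat.nth Nat.Prime (k - 1)) =
    ∑ p ∈ (Icc 1 x).filter Nat.Prime, g p := by
  apply sum_bij' (fun k _ => Nat.nth Nat.Prime (k - 1)) (fun p _ => Nat.primeCounting p)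
  · intro k hk
    rw [mem_Icc] at hk
    have hp : (Nat.nth Nat.Prime (k - 1)).Prime := Nat.prime_nth_prime _
    rw [mem_filter, mem_Icc]
    refine ⟨⟨hp.one_le, ?_⟩, hp⟩
    by_contra h
    push Not at h
    have h1 : Nat.primeCounting (Nat.nth Nat.Prime (k - 1)) = k := pc_nth k hk.1
    have h2 : Nat.primeCounting x < Nat.primeCounting (Nat.nth Nat.Prime (k - 1)) := by
      rw [pc_eq _ hp]
      have h3 : Nat.primeCounting x ≤ Nat.count Nat.Prime (Nat.nth Nat.Prime (k - 1)) := by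
        unfold Nat.primeCounting Nat.primeCounting'
        exact Nat.count_monotone _ (by omega)
      omega
    omega
  · intro p hp
    rw [mem_filter, mem_Icc] at hp
    rw [mem_Icc]
    refine ⟨?_, Nat.monotone_primeCounting hp.1.2⟩
    rw [pc_eq p hp.2]; omega
  · intro k hk
    rw [mem_Icc] at hk
    exact pc_nth k hk.1
  · intro p hp
    rw [mem_filter, mem_Icc] at hp
    rw [pc_eq p hp.2, Nat.add_sub_cancel]
    exact Nat.nth_count hp.2
  · intro k _; rfl

lemma sum_idx' (g : ℕ → ℝ) (N : ℕ) (hN : 1 ≤ N) : ∑ k ∈ Icc 1 N, g (Nat.nth Nat.Prime (k - 1)) =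
    ∑ p ∈ (Icc 1 (Nat.nth Nat.Prime (N - 1))).filter Nat.Prime, g p := by
  rw [← sum_idx, pc_nth N hN]

lemma pi_up : ∀ᶠ x : ℕ in atTop, (Nat.primeCounting x : ℝ) * Real.log x / x ≤ 4 := by
  filter_upwards [pc_upper, eventually_ge_atTop 3] with x h hx
  have hx0 : (0 : ℝ) < x := by exact_mod_cast (by omega : 0 < x)
  have hlx : 0 < Real.log x := Real.log_pos (by exact_mod_cast (by omega : 1 < x))
  have h1 : (Nat.primeCounting x : ℝ) ≤ Nat.primeCounting (2 * x) := by
    exact_mod_cast Nat.monotone_primeCounting (by omega : x ≤ 2 * x)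
  rw [div_le_iff₀ hx0]
  calc (Nat.primeCounting x : ℝ) * Real.log x ≤ (4 * (x / Real.log x)) * Real.log x := mul_le_mul_of_nonneg_right (h1.trans h) hlx.le
    _ = 4 * x := by field_simp

/-- mean values over the indices and over the primes -/
theorem idx (g : ℕ → ℝ) : Tendsto (fun N : ℕ => (∑ k ∈ Icc 1 N, g (Nat.nth Nat.Prime (k - 1))) / N) atTop (𝓝 0) ↔
    Tendsto (fun x : ℕ => (∑ p ∈ (Icc 1 x).filter Nat.Prime, g p) * Real.log x / x) atTop (𝓝 0) := by
  constructor
  · intro h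
    have hpi : Tendsto Nat.primeCounting atTop atTop := Nat.tendsto_primeCounting
    have h1 := h.comp hpi
    rw [tendsto_zero_iff_norm_tendsto_zero] at h1 ⊢
    refine squeeze_zero' (Eventually.of_forall fun _ => norm_nonneg _) (g := fun x : ℕ => 4 * ‖((fun N : ℕ => (∑ k ∈ Icc 1 N, g (Nat.nth Nat.Prime (k - 1))) / N) ∘ Nat.primeCounting) x‖) ?_ (by simpa using h1.const_mul 4)
    filter_upwards [pi_up, eventually_ge_atTop 3, hpi.eventually_ge_atTop 1] with x hx hx3 hx1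
    have hx0 : (0 : ℝ) < x := by exact_mod_cast (by omega : 0 < x)
    have hlx : 0 < Real.log x := Real.log_pos (by exact_mod_cast (by omega : 1 < x))
    have hp0 : (0 : ℝ) < Nat.primeCounting x := by exact_mod_cast hx1
    simp only [Function.comp_apply, Real.norm_eq_abs]
    rw [sum_idx, abs_div, abs_div, abs_mul, abs_of_pos hx0, abs_of_pos hlx, abs_of_pos hp0]
    calc _ = (|∑ p ∈ (Icc 1 x).filter Nat.Prime, g p| / Nat.primeCounting x) * (Nat.primeCounting x * Real.log x / x) := by field_simp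
      _ ≤ (|∑ p ∈ (Icc 1 x).filter Nat.Prime, g p| / Nat.primeCounting x) * 4 := mul_le_mul_of_nonneg_left hx (by positivity)
      _ = _ := by ring
  · intro h
    have hnth : Tendsto (fun N : ℕ => Nat.nth Nat.Prime (N - 1)) atTop atTop :=
      (Nat.nth_strictMono Nat.infinite_setOfPred_prime).tendsto_atTop.comp (tendsto_sub_atTop_nat 1)
    have h1 := h.comp hnth
    rw [tendsto_zero_iff_norm_tendsto_zero] at h1 ⊢
    refine squeeze_zero' (Eventually.of_forall fun _ => norm_nonneg _) (g := fun N : ℕ => 2 * ‖((fun x : ℕ => (∑ p ∈ (Icc 1 x).filter Nat.Prime, g p) * Real.log x / x) ∘ (fun N : ℕ => Nat.nth Nat.Prime (N - 1))) N‖) ?_ (by simpa using h1.const_mul 2)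
    filter_upwards [hnth.eventually pc_lower, eventually_ge_atTop 3] with N hN hN3
    have hxp : (Nat.nth Nat.Prime (N - 1)).Prime := Nat.prime_nth_prime _
    rw [pc_nth N (by omega)] at hN
    simp only [Function.comp_apply, Real.norm_eq_abs]
    rw [sum_idx' g N (by omega)]
    set x := Nat.nth Nat.Prime (N - 1) with hx
    have hx0 : (0 : ℝ) < x := by exact_mod_cast hxp.pos
    have hlx : 0 < Real.log x := Real.log_pos (by exact_mod_cast hxp.one_lt)
    have hN0 : (0 : ℝ) < N := by exact_mod_cast (by omega : 0 < N)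
    rw [abs_div, abs_div, abs_mul, abs_of_pos hx0, abs_of_pos hlx, abs_of_pos hN0, div_le_iff₀ hN0]
    calc |∑ p ∈ (Icc 1 x).filter Nat.Prime, g p| = 2 * (|∑ p ∈ (Icc 1 x).filter Nat.Prime, g p| * Real.log x / x) * (1 / 2 * (x / Real.log x)) := by
          field_simp
      _ ≤ _ := mul_le_mul_of_nonneg_left hN (by positivity)

/-- the indices of the primes in a residue class -/
theorem idx_AP (q a : ℕ) (hq : 1 ≤ q) (ha : a.Coprime q) :
    Tendsto (fun N : ℕ => (#((Icc 1 N).filter (fun k => Nat.nth Nat.Prime (k - 1) ≡ a [MOD q])) : ℝ) / N) atTop (𝓝 (1 / q.totient)) := by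
  have h1 := N_J13.J13 q a hq ha
  have h2 := N_J13.J13 1 0 le_rfl (by decide)
  have h3 : Tendsto (fun x : ℕ => (∑ p ∈ (Icc 1 x).filter Nat.Prime, ((if p ≡ a [MOD q] then (1 : ℝ) else 0) - 1 / q.totient)) * Real.log x / x) atTop (𝓝 0) := by
    have h4 := h1.sub (h2.const_mul (1 / (q.totient : ℝ)))
    rw [Nat.totient_one, Nat.cast_one, div_one, mul_one, sub_self] at h4
    refine h4.congr fun x => ?_
    rw [sum_sub_distrib, ← sum_filter, sum_const, sum_const, nsmul_eq_mul, nsmul_eq_mul, filter_filter, mul_one]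
    have e : (Icc 1 x).filter (fun p => p.Prime ∧ p ≡ 0 [MOD 1]) = (Icc 1 x).filter Nat.Prime := by
      ext p
      simp only [mem_filter, Nat.modEq_one, and_true]
    rw [e]
    ring
  have h5 := (idx _).2 h3
  have h6 : Tendsto (fun N : ℕ => (∑ k ∈ Icc 1 N, ((if Nat.nth Nat.Prime (k - 1) ≡ a [MOD q] then (1 : ℝ) else 0) - 1 / q.totient)) / N + 1 / (q.totient : ℝ)) atTop (𝓝 (0 + 1 / q.totient)) :=
    h5.add tendsto_const_nhds
  rw [zero_add] at h6
  refine h6.congr' ?_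
  filter_upwards [eventually_ge_atTop 1] with N hN
  have hN0 : (N : ℝ) ≠ 0 := by positivity
  rw [sum_sub_distrib, ← sum_filter, sum_const, sum_const, nsmul_eq_mul, nsmul_eq_mul, mul_one, Nat.card_Icc, Nat.add_sub_cancel]
  field_simp
  ring

/-- the weights on the indices -/
def EqI (f : ℕ → ℝ) : Prop := ∀ q : ℕ, Squarefree q → ∀ a : ℕ, a.Coprime q →
  Tendsto (fun N : ℕ => (∑ k ∈ (Icc 1 N).filter (fun k => Nat.nth Nat.Prime (k - 1) ≡ a [MOD q]), f k) / N) atTop (𝓝 0)

lemma EqI_iff (f : ℕ → ℝ) : Eq (fun p => f (Nat.primeCounting p)) ↔ EqI f := by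
  unfold Eq EqI
  apply forall₂_congr
  intro q _
  apply forall₂_congr
  intro a _
  have h1 := idx (fun p => if p ≡ a [MOD q] then f (Nat.primeCounting p) else 0)
  have e1 : ∀ x : ℕ, ∑ p ∈ (Icc 1 x).filter Nat.Prime, (if p ≡ a [MOD q] then f (Nat.primeCounting p) else 0) =
      ∑ p ∈ cl q a x, f (Nat.primeCounting p) := by
    intro x
    rw [← sum_filter, filter_filter]; rfl
  have e2 : ∀ N : ℕ, ∑ k ∈ Icc 1 N, (if Nat.nth Nat.Prime (k - 1) ≡ a [MOD q] then f (Nat.primeCounting (Nat.nth Nat.Prime (k - 1))) else 0) =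
      ∑ k ∈ (Icc 1 N).filter (fun k => Nat.nth Nat.Prime (k - 1) ≡ a [MOD q]), f k := by
    intro N
    rw [sum_filter]
    apply sum_congr rfl
    intro k hk
    rw [pc_nth k (mem_Icc.1 hk).1]
  simp only [e1, e2] at h1
  exact h1.symm

/-- the criterion for weights on the indices -/
theorem critI {f : ℕ → ℝ} (hf : ∀ k, |f k| ≤ 1) : Sm (fun p => f (Nat.primeCounting p)) ↔ EqI f :=
  (crit (f := fun p => f (Nat.primeCounting p)) (fun _ => hf _)).trans (EqI_iff f)

open Classical in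
/-- the indices in a set `K` whose primes lie in a class -/
noncomputable def KC (K : Set ℕ) (q a N : ℕ) : ℕ := #((Icc 1 N).filter (fun k => k ∈ K ∧ Nat.nth Nat.Prime (k - 1) ≡ a [MOD q]))

open Classical in
/-- the criterion for sets of indices -/
theorem critK (K : Set ℕ) (δ : ℝ) (hδ0 : 0 ≤ δ) (hδ1 : δ ≤ 1) :
    Sm (fun p => (if Nat.primeCounting p ∈ K then 1 else 0) - δ) ↔
      ∀ q : ℕ, Squarefree q → ∀ a : ℕ, a.Coprime q → Tendsto (fun N : ℕ => (KC K q a N : ℝ) / N) atTop (𝓝 (δ / q.totient)) := by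
  have h1 := critI (f := fun k => (if k ∈ K then 1 else 0) - δ) (by
    intro k
    rw [abs_le]
    split_ifs <;> constructor <;> linarith)
  rw [h1]
  unfold EqI
  apply forall₂_congr
  intro q hq
  apply forall₂_congr
  intro a ha
  have h2 := idx_AP q a (Nat.one_le_iff_ne_zero.2 hq.ne_zero) ha
  have e : ∀ N : ℕ, (∑ k ∈ (Icc 1 N).filter (fun k => Nat.nth Nat.Prime (k - 1) ≡ a [MOD q]), ((if k ∈ K then (1 : ℝ) else 0) - δ)) / N =
      (KC K q a N : ℝ) / N - δ * ((#((Icc 1 N).filter (fun k => Nat.nth Nat.Prime (k - 1) ≡ a [MOD q])) : ℝ) / N) := by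
    intro N
    rw [sum_sub_distrib, ← sum_filter, sum_const, sum_const, nsmul_eq_mul, nsmul_eq_mul, filter_filter, mul_one]
    unfold KC
    have e2 : (Icc 1 N).filter (fun k => Nat.nth Nat.Prime (k - 1) ≡ a [MOD q] ∧ k ∈ K) =
        (Icc 1 N).filter (fun k => k ∈ K ∧ Nat.nth Nat.Prime (k - 1) ≡ a [MOD q]) := by
      apply filter_congr
      intro k _
      exact and_comm
    rw [e2]
    ring
  simp only [e]
  constructor
  · intro h3
    have h4 := h3.add (h2.const_mul δ)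
    rw [zero_add, mul_one_div] at h4
    refine h4.congr fun N => ?_
    ring
  · intro h3
    have h4 := h3.sub (h2.const_mul δ)
    rwa [mul_one_div, sub_self] at h4

/-- the totient of `lcm 4 q` -/
lemma tot_lcm (q : ℕ) (hq : Squarefree q) : (Nat.lcm 4 q).totient = 2 * q.totient := by
  have h4 : Nat.totient 4 = 2 := by decide
  by_cases h2 : 2 ∣ q
  · obtain ⟨r, rfl⟩ := h2
    have hr : Nat.Coprime 2 r := (Nat.squarefree_mul_iff.1 hq).1
    have hr4 : Nat.Coprime 4 r := by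
      rw [show 4 = 2 ^ 2 by norm_num]
      exact Nat.Coprime.pow_left 2 hr
    have e1 : Nat.lcm 4 (2 * r) = 4 * r := by
      rw [show 4 = 2 * 2 by norm_num, Nat.lcm_mul_left, hr.lcm_eq_mul]
      ring
    rw [e1, Nat.totient_mul hr4, Nat.totient_mul hr, h4, Nat.totient_two, one_mul]
  · have hc : Nat.Coprime 4 q := by
      rw [show 4 = 2 ^ 2 by norm_num]
      exact Nat.Coprime.pow_left 2 ((Nat.Prime.coprime_iff_not_dvd Nat.prime_two).2 h2)
    rw [hc.lcm_eq_mul, Nat.totient_mul hc, h4]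

lemma gcd4 (q a : ℕ) (hq : Squarefree q) (ha : a.Coprime q) : 1 ≡ a [MOD Nat.gcd 4 q] := by
  have h1 : Nat.gcd 4 q ∣ 4 := Nat.gcd_dvd_left _ _
  have h2 : Nat.gcd 4 q ∣ q := Nat.gcd_dvd_right _ _
  have h3 : Nat.gcd 4 q ≤ 4 := Nat.le_of_dvd (by norm_num) h1
  have h4 : Nat.gcd 4 q ≠ 4 := by
    intro h
    rw [h] at h2
    have h5 : Squarefree (4 : ℕ) := hq.squarefree_of_dvd h2
    rw [show (4 : ℕ) = 2 * 2 by norm_num] at h5
    have h6 := h5 2 (dvd_refl _)
    exact absurd h6 (by decide)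
  have h5 : Nat.gcd 4 q = 1 ∨ Nat.gcd 4 q = 2 := by
    interval_cases h : Nat.gcd 4 q
    · simp at h1
    · left; rfl
    · right; rfl
    · norm_num at h1
    · exact absurd rfl h4
  rcases h5 with h | h
  · rw [h]; exact Nat.modEq_one
  · rw [h] at h2 ⊢
    have h6 : ¬ 2 ∣ a := by
      intro h7
      have h8 := Nat.dvd_gcd h7 h2
      rw [ha] at h8
      exact absurd h8 (by decide)
    unfold Nat.ModEq
    omega

/-- the indices of the primes `≡ 1 (mod 4)` -/
def K4 : Set ℕ := {k | Nat.nth Nat.Prime (k - 1) ≡ 1 [MOD 4]}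

lemma KC_K4 (q a b N : ℕ) (hb1 : b ≡ 1 [MOD 4]) (hb2 : b ≡ a [MOD q]) : KC K4 q a N =
    #((Icc 1 N).filter (fun k => Nat.nth Nat.Prime (k - 1) ≡ b [MOD Nat.lcm 4 q])) := by
  unfold KC
  congr 1
  ext k
  simp only [mem_filter, K4, Set.mem_ofPred_eq]
  constructor
  · rintro ⟨h1, h2, h3⟩
    have h4 := Nat.modEq_iff_dvd.1 (h2.trans hb1.symm)
    have h5 := Nat.modEq_iff_dvd.1 (h3.trans hb2.symm)
    exact ⟨h1, Nat.modEq_iff_dvd.2 (Int.natCast_dvd.2 (Nat.lcm_dvd (Int.natCast_dvd.1 h4) (Int.natCast_dvd.1 h5)))⟩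
  · rintro ⟨h1, h2⟩
    exact ⟨h1, (h2.of_dvd (Nat.dvd_lcm_left _ _)).trans hb1, (h2.of_dvd (Nat.dvd_lcm_right _ _)).trans hb2⟩

theorem K4_sf (q : ℕ) (hq : Squarefree q) (a : ℕ) (ha : a.Coprime q) :
    Tendsto (fun N : ℕ => (KC K4 q a N : ℝ) / N) atTop (𝓝 ((1 / 2) / q.totient)) := by
  obtain ⟨b, hb1, hb2⟩ := Nat.chineseRemainder' (gcd4 q a hq ha)
  have hq0 : 0 < q := Nat.pos_of_ne_zero hq.ne_zero
  have hcop : b.Coprime (Nat.lcm 4 q) := by
    have h1 : b.Coprime 4 := by rw [Nat.Coprime, hb1.gcd_eq]; decide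
    have h2 : b.Coprime q := by rw [Nat.Coprime, hb2.gcd_eq]; exact ha
    exact Nat.Coprime.coprime_dvd_right (Nat.lcm_dvd_mul 4 q) (Nat.Coprime.mul_right h1 h2)
  have h1 := idx_AP (Nat.lcm 4 q) b (Nat.lcm_pos (by norm_num) hq0) hcop
  rw [tot_lcm q hq] at h1
  have e : (1 : ℝ) / ((2 * q.totient : ℕ) : ℝ) = (1 / 2) / q.totient := by push_cast; rw [div_div]
  rw [e] at h1
  refine h1.congr fun N => ?_
  rw [KC_K4 q a b N hb1 hb2]

theorem K4_not : Tendsto (fun N : ℕ => (KC K4 4 1 N : ℝ) / N) atTop (𝓝 (1 / 2)) := by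
  have h1 := idx_AP 4 1 (by norm_num) (by decide)
  have h4 : Nat.totient 4 = 2 := by decide
  rw [h4] at h1
  push_cast at h1
  refine h1.congr fun N => ?_
  have := KC_K4 4 1 1 N (Nat.ModEq.refl _) (Nat.ModEq.refl _)
  rw [this, show Nat.lcm 4 4 = 4 by decide]

end Pool.Agent.W5h22.CR
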