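import Mathlib
import Pool.Agent.W5h22.CR.C

set_option autoImplicit false

/-! Abel means of functions which are small for almost all integers. -/

namespace Pool.Agent.W5h22.CR
open Finset Filter Topology
open Pool.Agent.W5h22.GS

/-- smallness from the dyadic windows -/
theorem SmF_of_dyadic {R : ℕ → ℝ} (h : ∀ ε : ℝ, 0 < ε → ∀ᶠ X : ℕ in atTop,
    (#((Ioc X (2 * X)).filter (fun n : ℕ => ε * ((X : ℝ) / Real.log X ^ 2) < |R n|)) : ℝ) ≤ ε * X) : SmF R := by
  classical
  intro ε hε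
  have h1 := h (ε / 8) (by linarith)
  obtain ⟨X₀, hX₀⟩ := eventually_atTop.1 (h1.and (log2_sq.and (eventually_ge_atTop 1)))
  have h2 := dyadic (fun n : ℕ => ¬ (ε * ((n : ℝ) / Real.log n ^ 2) < |R n|)) (max (2 * X₀ + 2) (⌈16 / ε⌉₊ + 1)) (ε / 4) (by positivity) (by
    intro X hX
    have hXa : 2 * X₀ + 2 ≤ X := le_trans (le_max_left _ _) hX
    have hXb : ⌈16 / ε⌉₊ + 1 ≤ X := le_trans (le_max_right _ _) hX
    set Y := X / 2 with hY
    obtain ⟨k1, k2, k3⟩ := hX₀ Y (by omega)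
    have hsub : (Ioc Y X).filter (fun n : ℕ => ¬ ¬ (ε * ((n : ℝ) / Real.log n ^ 2) < |R n|)) ⊆
        (Ioc Y (2 * Y)).filter (fun n : ℕ => ε / 8 * ((Y : ℝ) / Real.log Y ^ 2) < |R n|) ∪ {X} := by
      intro n hn
      rw [mem_filter, mem_Ioc, not_not] at hn
      rw [mem_union, mem_singleton, mem_filter, mem_Ioc]
      by_cases hnX : n = X
      · exact Or.inr hnX
      · left
        have h3 : n ≤ 2 * Y := by omega
        refine ⟨⟨hn.1.1, h3⟩, ?_⟩
        have h4 := (k2 n hn.1.1 h3).1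
        refine lt_of_le_of_lt ?_ hn.2
        have h5 : 0 ≤ (Y : ℝ) / Real.log Y ^ 2 := by positivity
        nlinarith
    have h3 := (card_le_card hsub).trans (card_union_le _ _)
    rw [card_singleton] at h3
    have h4 : (#((Ioc Y X).filter (fun n : ℕ => ¬ ¬ (ε * ((n : ℝ) / Real.log n ^ 2) < |R n|))) : ℝ) ≤
        #((Ioc Y (2 * Y)).filter (fun n : ℕ => ε / 8 * ((Y : ℝ) / Real.log Y ^ 2) < |R n|)) + 1 := by exact_mod_cast h3
    have h5 : (Y : ℝ) ≤ X := by exact_mod_cast (by omega : Y ≤ X)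
    have h6 : 16 / ε ≤ X := (Nat.le_ceil _).trans (by exact_mod_cast (by omega : ⌈16 / ε⌉₊ ≤ X))
    rw [div_le_iff₀ hε] at h6
    have h7 : (#((Ioc Y X).filter (fun n : ℕ => ¬ ¬ (ε * ((n : ℝ) / Real.log n ^ 2) < |R n|))) : ℝ) ≤ ε / 4 * X := by nlinarith
    convert h7)
  have h3 : ∀ᶠ x : ℕ in atTop, ((max (2 * X₀ + 2) (⌈16 / ε⌉₊ + 1) : ℕ) : ℝ) * (2 / ε) ≤ x := tendsto_natCast_atTop_atTop.eventually_ge_atTop _
  filter_upwards [h3] with x hx
  refine (h2 x).trans ?_
  have h4 : ((max (2 * X₀ + 2) (⌈16 / ε⌉₊ + 1) : ℕ) : ℝ) ≤ ε / 2 * x := by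
    have := mul_le_mul_of_nonneg_left hx (show 0 ≤ ε / 2 by positivity)
    calc ((max (2 * X₀ + 2) (⌈16 / ε⌉₊ + 1) : ℕ) : ℝ) = ε / 2 * (((max (2 * X₀ + 2) (⌈16 / ε⌉₊ + 1) : ℕ) : ℝ) * (2 / ε)) := by field_simp
      _ ≤ _ := this
  linarith

/-- halving the argument -/
lemma half_sq : ∀ᶠ m : ℕ in atTop, ∀ y : ℕ, 2 * m ≤ y → y ≤ 2 * m + 1 → ((m : ℝ) / Real.log m) ^ 2 ≤ 31 / 100 * ((y : ℝ) / Real.log y) ^ 2 := by
  have h1 : ∀ᶠ m : ℕ in atTop, (20 : ℝ) ≤ Real.log m :=
    (Real.tendsto_log_atTop.comp tendsto_natCast_atTop_atTop).eventually_ge_atTop _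
  filter_upwards [h1, eventually_ge_atTop 1] with m hm hm1
  intro y hy1 hy2
  have hm0 : (0 : ℝ) < m := by exact_mod_cast hm1
  have hy0 : (2 : ℝ) * m ≤ y := by exact_mod_cast hy1
  have hy3 : (y : ℝ) ≤ 3 * m := by exact_mod_cast (by omega : y ≤ 3 * m)
  have hl : Real.log y ≤ 11 / 10 * Real.log m := by
    have h2 : Real.log y ≤ Real.log (3 * m) := Real.log_le_log (by linarith) hy3
    rw [Real.log_mul (by norm_num) hm0.ne'] at h2
    have h3 : Real.log 3 ≤ 2 := by
      have := Real.log_le_sub_one_of_pos (show (0 : ℝ) < 3 by norm_num)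
      linarith
    linarith
  have hly : 0 < Real.log y := Real.log_pos (by
    have : (1 : ℝ) ≤ m := by exact_mod_cast hm1
    linarith)
  have h2 : (2 * m) / (11 / 10 * Real.log m) ≤ (y : ℝ) / Real.log y := div_le_div₀ (by linarith) hy0 hly hl
  have h3 := pow_le_pow_left₀ (by positivity) h2 2
  have h4 : ((2 * m) / (11 / 10 * Real.log m)) ^ 2 = 400 / 121 * ((m : ℝ) / Real.log m) ^ 2 := by
    field_simp; ring
  rw [h4] at h3
  have h5 : 0 ≤ ((m : ℝ) / Real.log m) ^ 2 := by positivity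
  linarith

/-- `y` and constants against `(y / log y)²` -/
lemma lin_sq (B c : ℝ) (hc : 0 < c) : ∀ᶠ y : ℕ in atTop, B + y ≤ c * ((y : ℝ) / Real.log y) ^ 2 := by
  have h1 := Pool.Agent.W5h22.PV.evt_div_log (|B| + 1) 1 one_pos
  have h2 : ∀ᶠ y : ℕ in atTop, Real.log y ^ 2 ≤ (c / (|B| + 1)) * y := by
    have h3 := (isLittleO_log_rpow_atTop (show (0 : ℝ) < 1 / 2 by norm_num)).bound (show 0 < Real.sqrt (c / (|B| + 1)) by positivity)
    filter_upwards [(tendsto_natCast_atTop_atTop (R := ℝ)).eventually h3, eventually_ge_atTop 1] with y hy hy1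
    have hy0 : (1 : ℝ) ≤ y := by exact_mod_cast hy1
    rw [Real.norm_of_nonneg (Real.log_nonneg hy0), Real.norm_of_nonneg (Real.rpow_nonneg (by linarith) _)] at hy
    calc Real.log y ^ 2 ≤ (Real.sqrt (c / (|B| + 1)) * (y : ℝ) ^ (1 / 2 : ℝ)) ^ 2 := pow_le_pow_left₀ (Real.log_nonneg hy0) hy 2
      _ = _ := by
        rw [mul_pow, Real.sq_sqrt (by positivity), ← Real.rpow_natCast, ← Real.rpow_mul (by linarith)]
        norm_num
  filter_upwards [h2, eventually_ge_atTop 3] with y hy hy3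
  have hy0 : (0 : ℝ) < y := by exact_mod_cast (by omega : 0 < y)
  have hy1 : (1 : ℝ) ≤ y := by exact_mod_cast (by omega : 1 ≤ y)
  have hly : 0 < Real.log y := Real.log_pos (by exact_mod_cast (by omega : 1 < y))
  have h3 : B + y ≤ (|B| + 1) * y := by
    have := le_abs_self B
    have := abs_nonneg B
    nlinarith
  refine h3.trans ?_
  rw [div_pow, ← mul_div_assoc, le_div_iff₀ (by positivity)]
  calc (|B| + 1) * y * Real.log y ^ 2 ≤ (|B| + 1) * y * ((c / (|B| + 1)) * y) := mul_le_mul_of_nonneg_left hy (by positivity)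
    _ = c * (y : ℝ) ^ 2 := by field_simp

lemma G1_card (n : ℕ) : (#(G1 n) : ℝ) ≤ n := by
  have : #(G1 n) ≤ n := by
    unfold G1
    exact (card_filter_le _ _).trans (by rw [card_range])
  exact_mod_cast this

/-- the sum up to `y` of a function which is small for almost all `n` -/
theorem sum_cum (R : ℕ → ℝ) (hR : ∀ n, |R n| ≤ #(G1 n)) (h : SmF R) (κ : ℝ) (hκ : 0 < κ) : ∀ᶠ y : ℕ in atTop,
    ∑ n ∈ Icc 1 y, |R n| ≤ κ * ((y : ℝ) / Real.log y) ^ 2 := by
  obtain ⟨y₀, hy₀⟩ := eventually_atTop.1 ((sum_small R hR h (κ / 3) (by positivity)).and (half_sq.and ((lin_sq 0 (κ / 3) (by positivity)).and (eventually_ge_atTop 3))))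
  set B : ℝ := ∑ n ∈ Icc 1 (2 * y₀ + 2), |R n| with hB
  have hB0 : 0 ≤ B := sum_nonneg fun _ _ => abs_nonneg _
  have key : ∀ y : ℕ, 2 * y₀ + 2 ≤ y → ∑ n ∈ Icc 1 y, |R n| ≤ B + 2 * κ / 3 * ((y : ℝ) / Real.log y) ^ 2 := by
    intro y
    induction y using Nat.strong_induction_on with
    | _ y ih =>
      intro hy
      set m := y / 2 with hm
      obtain ⟨k1, k2, k3, k4⟩ := hy₀ m (by omega)
      obtain ⟨_, _, l3, _⟩ := hy₀ y (by omega)
      have h1 : ∑ n ∈ Icc 1 y, |R n| ≤ ∑ n ∈ Icc 1 m, |R n| + ∑ n ∈ Ioc m (2 * m), |R n| + |R y| := by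
        have h2 : Icc 1 y ⊆ (Icc 1 m ∪ Ioc m (2 * m)) ∪ {y} := by
          intro n hn
          rw [mem_Icc] at hn
          rw [mem_union, mem_union, mem_Icc, mem_Ioc, mem_singleton]
          omega
        calc ∑ n ∈ Icc 1 y, |R n| ≤ ∑ n ∈ (Icc 1 m ∪ Ioc m (2 * m)) ∪ {y}, |R n| := sum_le_sum_of_subset_of_nonneg h2 fun _ _ _ => abs_nonneg _
          _ ≤ ∑ n ∈ Icc 1 m ∪ Ioc m (2 * m), |R n| + ∑ n ∈ ({y} : Finset ℕ), |R n| := by
              rw [← sum_union_inter]
              have := sum_nonneg (s := (Icc 1 m ∪ Ioc m (2 * m)) ∩ {y}) (f := fun n => |R n|) fun _ _ => abs_nonneg _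
              linarith
          _ ≤ _ := by
              rw [sum_singleton, sum_union]
              rw [disjoint_left]
              intro n hn hn'
              rw [mem_Icc] at hn
              rw [mem_Ioc] at hn'
              omega
      have h2 := k2 y (by omega) (by omega)
      have h3 : |R y| ≤ κ / 3 * ((y : ℝ) / Real.log y) ^ 2 := ((hR y).trans (G1_card y)).trans (by linarith)
      have hZ : 0 ≤ ((m : ℝ) / Real.log m) ^ 2 := by positivity
      by_cases hc : 2 * y₀ + 2 ≤ m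
      · have h4 := ih m (by omega) hc
        nlinarith
      · have h4 : ∑ n ∈ Icc 1 m, |R n| ≤ B := by
          apply sum_le_sum_of_subset_of_nonneg _ fun _ _ _ => abs_nonneg _
          intro n hn
          rw [mem_Icc] at hn ⊢
          omega
        nlinarith
  filter_upwards [eventually_ge_atTop (2 * y₀ + 2), lin_sq B (κ / 3) (by positivity)] with y hy hy2
  have h1 := key y hy
  have : (0 : ℝ) ≤ y := Nat.cast_nonneg _
  nlinarith

/-- the exponential weight -/
noncomputable def ex (c : ℝ) (x n : ℕ) : ℝ := Real.exp (-(c * n / x))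

lemma ex_pos (c : ℝ) (x n : ℕ) : 0 < ex c x n := Real.exp_pos _

/-- the constant of the block estimate -/
noncomputable def bc (c : ℝ) : ℝ := ∑' i : ℕ, ((i : ℝ) + 1) ^ 2 * Real.exp (-c * i)

lemma bc_summable (c : ℝ) (hc : 0 < c) : Summable (fun i : ℕ => ((i : ℝ) + 1) ^ 2 * Real.exp (-c * i)) := by
  have h1 := (summable_nat_add_iff 1).2 (Real.summable_pow_mul_exp_neg_nat_mul 2 hc)
  have h2 := h1.mul_right (Real.exp c)
  refine h2.congr fun i => ?_
  push_cast
  rw [mul_assoc, ← Real.exp_add]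
  congr 2
  ring

lemma bc_nonneg (c : ℝ) : 0 ≤ bc c := tsum_nonneg fun i => by positivity

theorem blocks (w : ℕ → ℝ) (hw : ∀ n, 0 ≤ w n) (x : ℕ) (hx : 1 ≤ x) (c : ℝ) (hc : 0 < c) (A : ℝ)
    (hA : ∀ i : ℕ, ∑ n ∈ range ((i + 1) * x), w n ≤ A * ((i : ℝ) + 1) ^ 2) :
    Summable (fun n => w n * ex c x n) ∧ ∑' n, w n * ex c x n ≤ A * bc c := by
  have hx0 : (0 : ℝ) < x := by exact_mod_cast hx
  have hA0 : 0 ≤ A := by
    have := hA 0
    have h0 : 0 ≤ ∑ n ∈ range ((0 + 1) * x), w n := sum_nonneg fun _ _ => hw _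
    push_cast at this
    linarith
  have h1 : ∀ N : ℕ, ∑ n ∈ range (N * x), w n * ex c x n ≤ ∑ i ∈ range N, A * (((i : ℝ) + 1) ^ 2 * Real.exp (-c * i)) := by
    intro N
    induction N with
    | zero => simp
    | succ N ih =>
      rw [sum_range_succ (fun i : ℕ => A * (((i : ℝ) + 1) ^ 2 * Real.exp (-c * i))) N]
      rw [← sum_range_add_sum_Ico _ (show N * x ≤ (N + 1) * x by nlinarith)]
      apply add_le_add ih
      calc ∑ n ∈ Ico (N * x) ((N + 1) * x), w n * ex c x n ≤ ∑ n ∈ Ico (N * x) ((N + 1) * x), w n * Real.exp (-c * N) := by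
            apply sum_le_sum
            intro n hn
            rw [mem_Ico] at hn
            apply mul_le_mul_of_nonneg_left _ (hw n)
            unfold ex
            apply Real.exp_le_exp.2
            have h2 : ((N * x : ℕ) : ℝ) ≤ n := by exact_mod_cast hn.1
            push_cast at h2
            have h3 : (N : ℝ) ≤ n / x := by rw [le_div_iff₀ hx0]; exact h2
            rw [mul_div_assoc]
            nlinarith
        _ = (∑ n ∈ Ico (N * x) ((N + 1) * x), w n) * Real.exp (-c * N) := by rw [sum_mul]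
        _ ≤ (A * ((N : ℝ) + 1) ^ 2) * Real.exp (-c * N) := by
            apply mul_le_mul_of_nonneg_right _ (Real.exp_pos _).le
            refine le_trans ?_ (hA N)
            apply sum_le_sum_of_subset_of_nonneg _ fun _ _ _ => hw _
            intro n hn
            rw [mem_Ico] at hn
            exact mem_range.2 hn.2
        _ = _ := by ring
  have h2 : ∀ N : ℕ, ∑ n ∈ range N, w n * ex c x n ≤ A * bc c := by
    intro N
    calc ∑ n ∈ range N, w n * ex c x n ≤ ∑ n ∈ range (N * x), w n * ex c x n := by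
          apply sum_le_sum_of_subset_of_nonneg
          · intro n hn
            rw [mem_range] at hn ⊢
            nlinarith
          · intro n _ _
            exact mul_nonneg (hw n) (ex_pos _ _ _).le
      _ ≤ ∑ i ∈ range N, A * (((i : ℝ) + 1) ^ 2 * Real.exp (-c * i)) := h1 N
      _ = A * ∑ i ∈ range N, (((i : ℝ) + 1) ^ 2 * Real.exp (-c * i)) := by rw [mul_sum]
      _ ≤ A * bc c := by
          apply mul_le_mul_of_nonneg_left _ hA0
          exact (bc_summable c hc).sum_le_tsum _ fun i _ => by positivity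
  have h3 : ∀ n, 0 ≤ w n * ex c x n := fun n => mul_nonneg (hw n) (ex_pos _ _ _).le
  exact ⟨summable_of_sum_range_le h3 h2, Real.tsum_le_of_sum_range_le h3 h2⟩

/-- the Abel means of a function which is small for almost all `n` -/
theorem abel_small (R : ℕ → ℝ) (hR : ∀ n, |R n| ≤ #(G1 n)) (h : SmF R) (c κ : ℝ) (hc : 0 < c) (hκ : 0 < κ) : ∀ᶠ x : ℕ in atTop,
    Summable (fun n => |R n| * ex c x n) ∧ ∑' n, |R n| * ex c x n ≤ κ * ((x : ℝ) / Real.log x) ^ 2 := by
  have hb := bc_nonneg c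
  obtain ⟨y₀, hy₀⟩ := eventually_atTop.1 (sum_cum R hR h (κ / (bc c + 1)) (by positivity))
  filter_upwards [eventually_ge_atTop (y₀ + 3)] with x hx
  have hx0 : (0 : ℝ) < x := by exact_mod_cast (by omega : 0 < x)
  have hlx : 0 < Real.log x := Real.log_pos (by exact_mod_cast (by omega : 1 < x))
  obtain ⟨h1, h2⟩ := blocks (fun n => |R n|) (fun _ => abs_nonneg _) x (by omega) c hc (κ / (bc c + 1) * ((x : ℝ) / Real.log x) ^ 2) (by
    intro i
    have hix : x ≤ (i + 1) * x := Nat.le_mul_of_pos_left _ (by omega)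
    have h3 := hy₀ ((i + 1) * x) (by omega)
    have h4 : ∑ n ∈ range ((i + 1) * x), |R n| ≤ ∑ n ∈ Icc 1 ((i + 1) * x), |R n| := by
      have h5 : |R 0| = 0 := by
        have := hR 0
        have h6 := G1_card 0
        push_cast at h6
        exact le_antisymm (by linarith) (abs_nonneg _)
      calc ∑ n ∈ range ((i + 1) * x), |R n| ≤ ∑ n ∈ insert 0 (Icc 1 ((i + 1) * x)), |R n| := by
            apply sum_le_sum_of_subset_of_nonneg _ fun _ _ _ => abs_nonneg _
            intro n hn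
            rw [mem_range] at hn
            rw [mem_insert, mem_Icc]
            omega
        _ = _ := by rw [sum_insert (by simp), h5, zero_add]
    refine h4.trans (h3.trans ?_)
    rw [mul_assoc]
    apply mul_le_mul_of_nonneg_left _ (by positivity)
    have h7 : Real.log x ≤ Real.log (((i + 1) * x : ℕ) : ℝ) := Real.log_le_log hx0 (by exact_mod_cast hix)
    calc ((((i + 1) * x : ℕ) : ℝ) / Real.log (((i + 1) * x : ℕ) : ℝ)) ^ 2 ≤ ((((i + 1) * x : ℕ) : ℝ) / Real.log x) ^ 2 := by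
          apply pow_le_pow_left₀ (div_nonneg (Nat.cast_nonneg _) (hlx.le.trans h7))
          exact div_le_div_of_nonneg_left (Nat.cast_nonneg _) hlx h7
      _ = _ := by push_cast; ring)
  refine ⟨h1, h2.trans ?_⟩
  calc κ / (bc c + 1) * ((x : ℝ) / Real.log x) ^ 2 * bc c ≤ κ / (bc c + 1) * ((x : ℝ) / Real.log x) ^ 2 * (bc c + 1) :=
        mul_le_mul_of_nonneg_left (by linarith) (by positivity)
    _ = _ := by field_simp

/-- the Abel means over the primes -/
theorem abel_primes (c : ℝ) (hc : 0 < c) : ∀ᶠ x : ℕ in atTop,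
    Summable (fun n => (if n.Prime then (1 : ℝ) else 0) * ex c x n) ∧
      ∑' n, (if n.Prime then (1 : ℝ) else 0) * ex c x n ≤ 4 * bc c * ((x : ℝ) / Real.log x) := by
  obtain ⟨y₀, hy₀⟩ := eventually_atTop.1 pc_upper
  filter_upwards [eventually_ge_atTop (y₀ + 3)] with x hx
  have hx0 : (0 : ℝ) < x := by exact_mod_cast (by omega : 0 < x)
  have hlx : 0 < Real.log x := Real.log_pos (by exact_mod_cast (by omega : 1 < x))
  obtain ⟨h1, h2⟩ := blocks (fun n => if n.Prime then (1 : ℝ) else 0) (fun _ => by split_ifs <;> norm_num) x (by omega) c hc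
      (4 * ((x : ℝ) / Real.log x)) (by
    intro i
    have hix : x ≤ (i + 1) * x := Nat.le_mul_of_pos_left _ (by omega)
    have h3 := hy₀ ((i + 1) * x) (by omega)
    have h7 : Real.log x ≤ Real.log (((i + 1) * x : ℕ) : ℝ) := Real.log_le_log hx0 (by exact_mod_cast hix)
    have h4 : ∑ n ∈ range ((i + 1) * x), (if n.Prime then (1 : ℝ) else 0) ≤ Nat.primeCounting (2 * ((i + 1) * x)) := by
      rw [← sum_filter, sum_const, nsmul_eq_mul, mul_one]
      have h5 : #((range ((i + 1) * x)).filter Nat.Prime) = Nat.count Nat.Prime ((i + 1) * x) := (Nat.count_eq_card_filter_range _ _).symm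
      rw [h5]
      unfold Nat.primeCounting Nat.primeCounting'
      exact_mod_cast Nat.count_monotone _ (by omega)
    refine h4.trans (h3.trans ?_)
    calc 4 * ((((i + 1) * x : ℕ) : ℝ) / Real.log (((i + 1) * x : ℕ) : ℝ)) ≤ 4 * ((((i + 1) * x : ℕ) : ℝ) / Real.log x) := by
          apply mul_le_mul_of_nonneg_left _ (by norm_num)
          exact div_le_div_of_nonneg_left (Nat.cast_nonneg _) hlx h7
      _ = 4 * ((x : ℝ) / Real.log x) * ((i : ℝ) + 1) := by push_cast; ring
      _ ≤ _ := by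
          apply mul_le_mul_of_nonneg_left _ (by positivity)
          have : (0 : ℝ) ≤ i := Nat.cast_nonneg _
          nlinarith)
  refine ⟨h1, h2.trans (le_of_eq (by ring))⟩

end Pool.Agent.W5h22.CR
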