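import Mathlib
import Pool.Agent.W5h22.CR.F

set_option autoImplicit false

/-! Sequences of complex weights with vanishing convolution: one of the two Laplace transforms vanishes. -/

namespace Pool.Agent.W5h22.CR
open Finset Filter Topology

/-- the weights of the Taylor coefficients -/
noncomputable def wk (R : ℝ) (k x n : ℕ) : ℝ := (R * n / x) ^ k / k.factorial * ex R x n

lemma wk_nonneg (R : ℝ) (hR : 0 < R) (k x n : ℕ) : 0 ≤ wk R k x n := by
  unfold wk
  have := ex_pos R x n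
  positivity

lemma ex_mul (a b : ℝ) (x n : ℕ) : ex a x n * ex b x n = ex (a + b) x n := by
  unfold ex
  rw [← Real.exp_add]
  congr 1
  ring

lemma ex_add (a : ℝ) (x n m : ℕ) : ex a x n * ex a x m = ex a x (n + m) := by
  unfold ex
  rw [← Real.exp_add]
  congr 1
  push_cast
  ring

lemma wk_le (R : ℝ) (hR : 0 < R) (k x n : ℕ) : wk R k x n ≤ 2 ^ k * ex (R / 2) x n := by
  unfold wk
  have h1 : (R * n / x) ^ k / k.factorial = 2 ^ k * ((R / 2 * n / x) ^ k / k.factorial) := by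
    rw [show R * n / x = 2 * (R / 2 * n / x) by ring, mul_pow]
    ring
  have h2 := Real.pow_div_factorial_le_exp (R / 2 * n / x) (by positivity) k
  have h3 : Real.exp (R / 2 * n / x) * ex R x n = ex (R / 2) x n := by
    unfold ex
    rw [← Real.exp_add]
    congr 1
    ring
  rw [h1, ← h3]
  calc 2 ^ k * ((R / 2 * n / x) ^ k / k.factorial) * ex R x n ≤ 2 ^ k * Real.exp (R / 2 * n / x) * ex R x n := by
        apply mul_le_mul_of_nonneg_right _ (ex_pos _ _ _).le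
        exact mul_le_mul_of_nonneg_left h2 (by positivity)
    _ = _ := by ring

lemma wk_conv (R : ℝ) (k x n m : ℕ) : ∑ il ∈ antidiagonal k, wk R il.1 x n * wk R il.2 x m = wk R k x (n + m) := by
  unfold wk
  have h1 : ∀ il ∈ antidiagonal k, (R * n / x) ^ il.1 / (il.1.factorial : ℝ) * ex R x n * ((R * m / x) ^ il.2 / (il.2.factorial : ℝ) * ex R x m) =
      ((k.choose il.1 : ℝ) * ((R * n / x) ^ il.1 * (R * m / x) ^ il.2)) * (ex R x (n + m) / k.factorial) := by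
    intro il hil
    rw [HasAntidiagonal.mem_antidiagonal] at hil
    have h2 := Nat.add_choose_mul_factorial_mul_factorial il.2 il.1
    rw [add_comm il.2 il.1, hil] at h2
    have h3 : (k.choose il.1 : ℝ) * il.1.factorial * il.2.factorial = k.factorial := by
      have h4 : (k.choose il.1 : ℝ) * il.2.factorial * il.1.factorial = k.factorial := by exact_mod_cast h2
      rw [← h4]; ring
    have a1 : (il.1.factorial : ℝ) ≠ 0 := by exact_mod_cast Nat.factorial_ne_zero _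
    have a2 : (il.2.factorial : ℝ) ≠ 0 := by exact_mod_cast Nat.factorial_ne_zero _
    have a3 : (k.factorial : ℝ) ≠ 0 := by exact_mod_cast Nat.factorial_ne_zero _
    rw [← ex_add]
    have h4 : (k.choose il.1 : ℝ) / k.factorial = 1 / (il.1.factorial * il.2.factorial) := by
      rw [div_eq_div_iff a3 (by positivity), one_mul, ← h3]; ring
    calc _ = (R * n / x) ^ il.1 * (R * m / x) ^ il.2 * (ex R x n * ex R x m) * (1 / (il.1.factorial * il.2.factorial)) := by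
          field_simp
      _ = _ := by rw [← h4]; ring
  rw [sum_congr rfl h1, ← sum_mul]
  have h2 := (Commute.all (R * n / x) (R * m / x)).add_pow' k
  have h3 : ∑ il ∈ antidiagonal k, (k.choose il.1 : ℝ) * ((R * n / x) ^ il.1 * (R * m / x) ^ il.2) = (R * n / x + R * m / x) ^ k := by
    rw [h2]
    apply sum_congr rfl
    intro il _
    rw [nsmul_eq_mul]
  rw [h3]
  push_cast
  have e : R * (n : ℝ) / x + R * m / x = R * (n + m) / x := by ring
  rw [e]; ring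

section
variable (𝒰 : Ultrafilter ℕ) (x : ℕ → ℕ)

/-- bounded Abel means -/
def Bd (μ : ℕ → ℕ → ℂ) : Prop := ∀ c : ℝ, 0 < c → ∃ C : ℝ, 0 ≤ C ∧ ∀ᶠ j in (𝒰 : Filter ℕ),
  Summable (fun n => ‖μ j n‖ * ex c (x j) n) ∧ ∑' n, ‖μ j n‖ * ex c (x j) n ≤ C

/-- the convolution -/
noncomputable def cv (μ ν : ℕ → ℕ → ℂ) (j N : ℕ) : ℂ := ∑ kl ∈ antidiagonal N, μ j kl.1 * ν j kl.2

/-- the Abel means of the convolution tend to zero -/
def CvS (μ ν : ℕ → ℕ → ℂ) : Prop := ∀ c : ℝ, 0 < c → ∀ ε : ℝ, 0 < ε → ∀ᶠ j in (𝒰 : Filter ℕ),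
  Summable (fun n => ‖cv μ ν j n‖ * ex c (x j) n) ∧ ∑' n, ‖cv μ ν j n‖ * ex c (x j) n ≤ ε

/-- the Taylor coefficients -/
noncomputable def co (μ : ℕ → ℕ → ℂ) (R : ℝ) (k j : ℕ) : ℂ := ∑' n, μ j n * (wk R k (x j) n : ℂ)

/-- the Laplace transform -/
noncomputable def Lp (μ : ℕ → ℕ → ℂ) (lam : ℝ) (j : ℕ) : ℂ := ∑' n, μ j n * (ex lam (x j) n : ℂ)

variable {𝒰 x}

lemma co_sum {μ : ℕ → ℕ → ℂ} (R : ℝ) (hR : 0 < R) (k j : ℕ) (h : Summable (fun n => ‖μ j n‖ * ex (R / 2) (x j) n)) :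
    Summable (fun n => ‖μ j n * (wk R k (x j) n : ℂ)‖) := by
  apply Summable.of_nonneg_of_le (fun _ => norm_nonneg _) _ (h.mul_left (2 ^ k))
  intro n
  rw [norm_mul, Complex.norm_real, Real.norm_of_nonneg (wk_nonneg R hR k (x j) n)]
  calc ‖μ j n‖ * wk R k (x j) n ≤ ‖μ j n‖ * (2 ^ k * ex (R / 2) (x j) n) := mul_le_mul_of_nonneg_left (wk_le R hR k (x j) n) (norm_nonneg _)
    _ = _ := by ring

lemma co_norm {μ : ℕ → ℕ → ℂ} (R : ℝ) (hR : 0 < R) (k j : ℕ) (h : Summable (fun n => ‖μ j n‖ * ex (R / 2) (x j) n)) :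
    ‖∑' n, μ j n * (wk R k (x j) n : ℂ)‖ ≤ 2 ^ k * ∑' n, ‖μ j n‖ * ex (R / 2) (x j) n := by
  refine (norm_tsum_le_tsum_norm (co_sum R hR k j h)).trans ?_
  rw [← tsum_mul_left]
  apply (co_sum R hR k j h).tsum_le_tsum _ (h.mul_left (2 ^ k))
  intro n
  rw [norm_mul, Complex.norm_real, Real.norm_of_nonneg (wk_nonneg R hR k (x j) n)]
  calc ‖μ j n‖ * wk R k (x j) n ≤ ‖μ j n‖ * (2 ^ k * ex (R / 2) (x j) n) := mul_le_mul_of_nonneg_left (wk_le R hR k (x j) n) (norm_nonneg _)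
    _ = _ := by ring

lemma ulim {μ : ℕ → ℕ → ℂ} (hμ : Bd 𝒰 x μ) (R : ℝ) (hR : 0 < R) (k : ℕ) : ∃ z : ℂ, Tendsto (co x μ R k) 𝒰 (𝓝 z) := by
  obtain ⟨C, hC, h⟩ := hμ (R / 2) (by positivity)
  have h1 : ∀ᶠ j in (𝒰 : Filter ℕ), co x μ R k j ∈ Metric.closedBall (0 : ℂ) (2 ^ k * C) := by
    filter_upwards [h] with j hj
    rw [mem_closedBall_zero_iff]
    refine (co_norm R hR k j hj.1).trans ?_
    exact mul_le_mul_of_nonneg_left hj.2 (by positivity)
  have h2 : ((𝒰.map (co x μ R k) : Ultrafilter ℂ) : Filter ℂ) ≤ 𝓟 (Metric.closedBall (0 : ℂ) (2 ^ k * C)) := by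
    rw [Ultrafilter.coe_map, le_principal_iff]
    exact h1
  obtain ⟨z, _, hz⟩ := (isCompact_closedBall (0 : ℂ) (2 ^ k * C)).ultrafilter_le_nhds _ h2
  exact ⟨z, hz⟩

lemma co_conv {μ ν : ℕ → ℕ → ℂ} (R : ℝ) (hR : 0 < R) (k j : ℕ) (h1 : Summable (fun n => ‖μ j n‖ * ex (R / 2) (x j) n))
    (h2 : Summable (fun n => ‖ν j n‖ * ex (R / 2) (x j) n)) :
    ∑ il ∈ antidiagonal k, co x μ R il.1 j * co x ν R il.2 j = ∑' N, cv μ ν j N * (wk R k (x j) N : ℂ) := by
  have h3 : ∀ il ∈ antidiagonal k, co x μ R il.1 j * co x ν R il.2 j =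
      ∑' N, ∑ nm ∈ antidiagonal N, (μ j nm.1 * (wk R il.1 (x j) nm.1 : ℂ)) * (ν j nm.2 * (wk R il.2 (x j) nm.2 : ℂ)) := by
    intro il _
    unfold co
    exact tsum_mul_tsum_eq_tsum_sum_antidiagonal_of_summable_norm (co_sum R hR il.1 j h1) (co_sum R hR il.2 j h2)
  rw [sum_congr rfl h3, ← Summable.tsum_finsetSum]
  · apply tsum_congr
    intro N
    rw [sum_comm]
    unfold cv
    rw [sum_mul]
    apply sum_congr rfl
    intro nm hnm
    rw [HasAntidiagonal.mem_antidiagonal] at hnm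
    rw [← hnm, ← wk_conv]
    push_cast
    rw [mul_sum]
    apply sum_congr rfl
    intro il _
    ring
  · intro il _
    exact (summable_norm_sum_mul_antidiagonal_of_summable_norm (co_sum R hR il.1 j h1) (co_sum R hR il.2 j h2)).of_norm

/-- at every base point the Taylor coefficients of one of the two transforms vanish in the limit -/
theorem taylor {μ ν : ℕ → ℕ → ℂ} (hμ : Bd 𝒰 x μ) (hν : Bd 𝒰 x ν) (hc : CvS 𝒰 x μ ν) (R : ℝ) (hR : 0 < R) :
    (∀ k, Tendsto (co x μ R k) 𝒰 (𝓝 0)) ∨ (∀ k, Tendsto (co x ν R k) 𝒰 (𝓝 0)) := by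
  choose a ha using fun k => ulim hμ R hR k
  choose b hb using fun k => ulim hν R hR k
  have h1 : PowerSeries.mk a * PowerSeries.mk b = 0 := by
    ext k
    rw [PowerSeries.coeff_mul, map_zero]
    simp only [PowerSeries.coeff_mk]
    have h2 : Tendsto (fun j => ∑ il ∈ antidiagonal k, co x μ R il.1 j * co x ν R il.2 j) 𝒰 (𝓝 (∑ il ∈ antidiagonal k, a il.1 * b il.2)) :=
      tendsto_finsetSum _ fun il _ => (ha il.1).mul (hb il.2)
    have h3 : Tendsto (fun j => ∑ il ∈ antidiagonal k, co x μ R il.1 j * co x ν R il.2 j) 𝒰 (𝓝 0) := by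
      rw [Metric.tendsto_nhds]
      intro ε hε
      obtain ⟨C1, _, e1⟩ := hμ (R / 2) (by positivity)
      obtain ⟨C2, _, e2⟩ := hν (R / 2) (by positivity)
      filter_upwards [e1, e2, hc (R / 2) (by positivity) (ε / (2 * 2 ^ k)) (by positivity)] with j k1 k2 k3
      rw [dist_zero_right, co_conv R hR k j k1.1 k2.1]
      calc _ ≤ 2 ^ k * ∑' n, ‖cv μ ν j n‖ * ex (R / 2) (x j) n := co_norm R hR k j k3.1
        _ ≤ 2 ^ k * (ε / (2 * 2 ^ k)) := mul_le_mul_of_nonneg_left k3.2 (by positivity)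
        _ = ε / 2 := by field_simp
        _ < ε := by linarith
    exact tendsto_nhds_unique h2 h3
  rcases mul_eq_zero.1 h1 with h2 | h2
  · left
    intro k
    have h3 : a k = 0 := by
      have := congrArg (PowerSeries.coeff k) h2
      rwa [PowerSeries.coeff_mk, map_zero] at this
    rw [← h3]; exact ha k
  · right
    intro k
    have h3 : b k = 0 := by
      have := congrArg (PowerSeries.coeff k) h2
      rwa [PowerSeries.coeff_mk, map_zero] at this
    rw [← h3]; exact hb k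

/-- the remainder of the exponential series -/
lemma exp_rem (ρ ρ' y : ℝ) (h1 : |ρ| ≤ ρ') (h0 : 0 < ρ') (hy : 0 ≤ y) (K : ℕ) :
    |Real.exp (ρ * y) - ∑ k ∈ range K, (ρ * y) ^ k / k.factorial| ≤ (|ρ| / ρ') ^ K * Real.exp (ρ' * y) := by
  have hr : |ρ| / ρ' ≤ 1 := by rw [div_le_one h0]; exact h1
  have h2 : ∀ N : ℕ, K ≤ N → |∑ k ∈ range N, (ρ * y) ^ k / (k.factorial : ℝ) - ∑ k ∈ range K, (ρ * y) ^ k / (k.factorial : ℝ)| ≤
      (|ρ| / ρ') ^ K * Real.exp (ρ' * y) := by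
    intro N hN
    rw [← sum_range_add_sum_Ico _ hN, add_sub_cancel_left]
    calc |∑ k ∈ Ico K N, (ρ * y) ^ k / (k.factorial : ℝ)| ≤ ∑ k ∈ Ico K N, |(ρ * y) ^ k / (k.factorial : ℝ)| := abs_sum_le_sum_abs _ _
      _ ≤ ∑ k ∈ Ico K N, (|ρ| / ρ') ^ K * ((ρ' * y) ^ k / (k.factorial : ℝ)) := by
          apply sum_le_sum
          intro k hk
          rw [mem_Ico] at hk
          rw [abs_div, abs_pow, abs_mul, abs_of_nonneg hy, abs_of_nonneg (by positivity : (0 : ℝ) ≤ (k.factorial : ℝ))]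
          have h3 : (|ρ| * y) ^ k = (|ρ| / ρ') ^ k * (ρ' * y) ^ k := by
            rw [← mul_pow]; congr 1; field_simp
          rw [h3, mul_div_assoc]
          apply mul_le_mul_of_nonneg_right _ (by positivity)
          exact pow_le_pow_of_le_one (by positivity) hr hk.1
      _ = (|ρ| / ρ') ^ K * ∑ k ∈ Ico K N, ((ρ' * y) ^ k / (k.factorial : ℝ)) := by rw [mul_sum]
      _ ≤ (|ρ| / ρ') ^ K * Real.exp (ρ' * y) := by
          apply mul_le_mul_of_nonneg_left _ (by positivity)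
          refine le_trans ?_ (Real.sum_le_exp_of_nonneg (by positivity) N)
          apply sum_le_sum_of_subset_of_nonneg
          · intro k hk
            rw [mem_Ico] at hk
            exact mem_range.2 hk.2
          · intro k _ _
            positivity
  have h3 : HasSum (fun k : ℕ => (ρ * y) ^ k / (k.factorial : ℝ)) (Real.exp (ρ * y)) := by
    rw [Real.exp_eq_exp_ℝ]
    exact NormedSpace.expSeries_div_hasSum_exp (ρ * y)
  have h4 := h3.tendsto_sum_nat
  have h5 := (h4.sub_const (∑ k ∈ range K, (ρ * y) ^ k / (k.factorial : ℝ))).abs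
  exact le_of_tendsto h5 (eventually_atTop.2 ⟨K, h2⟩)

/-- the transform vanishes near the base point -/
theorem near {μ : ℕ → ℕ → ℂ} (hμ : Bd 𝒰 x μ) (R : ℝ) (hR : 0 < R) (h : ∀ k, Tendsto (co x μ R k) 𝒰 (𝓝 0))
    (lam : ℝ) (h0 : 0 < lam) (h1 : lam < 2 * R) : Tendsto (Lp x μ lam) 𝒰 (𝓝 0) := by
  set ρ : ℝ := (R - lam) / R with hρ
  have hρ1 : |ρ| < 1 := by
    rw [hρ, abs_div, abs_of_pos hR, div_lt_one hR, abs_lt]
    constructor <;> linarith
  set ρ' : ℝ := (1 + |ρ|) / 2 with hρ'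
  have h2 : |ρ| < ρ' := by rw [hρ']; linarith
  have h3 : ρ' < 1 := by rw [hρ']; linarith
  have h4 : 0 < ρ' := by have := abs_nonneg ρ; rw [hρ']; linarith
  obtain ⟨C, hC, e1⟩ := hμ (R * (1 - ρ')) (by nlinarith)
  obtain ⟨C2, hC2, e2⟩ := hμ (R / 2) (by positivity)
  obtain ⟨C3, hC3, e3⟩ := hμ lam h0
  rw [Metric.tendsto_nhds]
  intro ε hε
  have hr1 : |ρ| / ρ' < 1 := by rw [div_lt_one h4]; exact h2
  obtain ⟨K, hK⟩ : ∃ K : ℕ, (|ρ| / ρ') ^ K * C ≤ ε / 4 := by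
    obtain ⟨K, hK⟩ := exists_pow_lt_of_lt_one (show 0 < ε / (4 * (C + 1)) by positivity) hr1
    refine ⟨K, ?_⟩
    rw [lt_div_iff₀ (by positivity)] at hK
    have : 0 ≤ (|ρ| / ρ') ^ K := by positivity
    nlinarith
  have e4 : Tendsto (fun j => ∑ k ∈ range K, (ρ : ℂ) ^ k * co x μ R k j) 𝒰 (𝓝 0) := by
    have := tendsto_finsetSum (range K) (fun k _ => (h k).const_mul ((ρ : ℂ) ^ k))
    simpa using this
  have e5 : ∀ᶠ j in (𝒰 : Filter ℕ), ‖∑ k ∈ range K, (ρ : ℂ) ^ k * co x μ R k j‖ < ε / 2 := by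
    have := (Metric.tendsto_nhds.1 e4) (ε / 2) (by positivity)
    simpa only [dist_zero_right] using this
  filter_upwards [e1, e2, e3, e5] with j k1 k2 k3 k5
  rw [dist_zero_right]
  have hid : Lp x μ lam j - ∑ k ∈ range K, (ρ : ℂ) ^ k * co x μ R k j =
      ∑' n, μ j n * ((ex lam (x j) n - ∑ k ∈ range K, ρ ^ k * wk R k (x j) n : ℝ) : ℂ) := by
    unfold Lp co
    have a1 : ∀ k ∈ range K, (ρ : ℂ) ^ k * ∑' n, μ j n * (wk R k (x j) n : ℂ) = ∑' n, (ρ : ℂ) ^ k * (μ j n * (wk R k (x j) n : ℂ)) := fun k _ => by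
      rw [tsum_mul_left]
    rw [sum_congr rfl a1, ← Summable.tsum_finsetSum (fun k _ => ((co_sum R hR k j k2.1).of_norm).mul_left _), ← Summable.tsum_sub]
    · apply tsum_congr
      intro n
      push_cast
      rw [mul_sub, mul_sum]
      congr 1
      apply sum_congr rfl
      intro k _
      ring
    · apply Summable.of_norm
      refine k3.1.congr fun n => ?_
      rw [norm_mul, Complex.norm_real, Real.norm_of_nonneg (ex_pos _ _ _).le]
    · exact summable_sum fun k _ => ((co_sum R hR k j k2.1).of_norm).mul_left _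
  have hpt : ∀ n, ‖μ j n * ((ex lam (x j) n - ∑ k ∈ range K, ρ ^ k * wk R k (x j) n : ℝ) : ℂ)‖ ≤
      (|ρ| / ρ') ^ K * (‖μ j n‖ * ex (R * (1 - ρ')) (x j) n) := by
    intro n
    rw [norm_mul, Complex.norm_real, Real.norm_eq_abs]
    have a1 := exp_rem ρ ρ' (R * n / x j) h2.le h4 (by positivity) K
    have a2 : ex lam (x j) n - ∑ k ∈ range K, ρ ^ k * wk R k (x j) n =
        (Real.exp (ρ * (R * n / x j)) - ∑ k ∈ range K, (ρ * (R * n / x j)) ^ k / k.factorial) * ex R (x j) n := by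
      rw [sub_mul, sum_mul]
      congr 1
      · unfold ex
        rw [← Real.exp_add]
        congr 1
        rw [hρ]
        field_simp
        ring
      · apply sum_congr rfl
        intro k _
        unfold wk
        rw [mul_pow]
        ring
    rw [a2, abs_mul, abs_of_pos (ex_pos R (x j) n)]
    calc ‖μ j n‖ * (|Real.exp (ρ * (R * n / x j)) - ∑ k ∈ range K, (ρ * (R * n / x j)) ^ k / k.factorial| * ex R (x j) n) ≤
        ‖μ j n‖ * (((|ρ| / ρ') ^ K * Real.exp (ρ' * (R * n / x j))) * ex R (x j) n) := by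
          apply mul_le_mul_of_nonneg_left _ (norm_nonneg _)
          exact mul_le_mul_of_nonneg_right a1 (ex_pos _ _ _).le
      _ = (|ρ| / ρ') ^ K * (‖μ j n‖ * (Real.exp (ρ' * (R * n / x j)) * ex R (x j) n)) := by ring
      _ = _ := by
          congr 2
          unfold ex
          rw [← Real.exp_add]
          congr 1
          ring
  have hsm : Summable (fun n => ‖μ j n * ((ex lam (x j) n - ∑ k ∈ range K, ρ ^ k * wk R k (x j) n : ℝ) : ℂ)‖) :=
    Summable.of_nonneg_of_le (fun _ => norm_nonneg _) hpt (k1.1.mul_left _)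
  have hdiff : ‖Lp x μ lam j - ∑ k ∈ range K, (ρ : ℂ) ^ k * co x μ R k j‖ ≤ ε / 4 := by
    rw [hid]
    calc _ ≤ ∑' n, ‖μ j n * ((ex lam (x j) n - ∑ k ∈ range K, ρ ^ k * wk R k (x j) n : ℝ) : ℂ)‖ := norm_tsum_le_tsum_norm hsm
      _ ≤ ∑' n, (|ρ| / ρ') ^ K * (‖μ j n‖ * ex (R * (1 - ρ')) (x j) n) := hsm.tsum_le_tsum hpt (k1.1.mul_left _)
      _ = (|ρ| / ρ') ^ K * ∑' n, (‖μ j n‖ * ex (R * (1 - ρ')) (x j) n) := tsum_mul_left
      _ ≤ (|ρ| / ρ') ^ K * C := mul_le_mul_of_nonneg_left k1.2 (by positivity)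
      _ ≤ _ := hK
  have h6 := norm_add_le (Lp x μ lam j - ∑ k ∈ range K, (ρ : ℂ) ^ k * co x μ R k j) (∑ k ∈ range K, (ρ : ℂ) ^ k * co x μ R k j)
  rw [sub_add_cancel] at h6
  linarith

/-- one of the two transforms vanishes at all positive integers -/
theorem one_zero {μ ν : ℕ → ℕ → ℂ} (hμ : Bd 𝒰 x μ) (hν : Bd 𝒰 x ν) (hc : CvS 𝒰 x μ ν) :
    (∀ m : ℕ, 1 ≤ m → Tendsto (Lp x μ m) 𝒰 (𝓝 0)) ∨ (∀ m : ℕ, 1 ≤ m → Tendsto (Lp x ν m) 𝒰 (𝓝 0)) := by
  by_contra h
  push Not at h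
  obtain ⟨⟨m₁, h1, h2⟩, ⟨m₂, h3, h4⟩⟩ := h
  set R : ℝ := (m₁ : ℝ) + m₂ with hR
  have a1 : (1 : ℝ) ≤ m₁ := by exact_mod_cast h1
  have a2 : (1 : ℝ) ≤ m₂ := by exact_mod_cast h3
  rcases taylor hμ hν hc R (by linarith) with h5 | h5
  · exact h2 (near hμ R (by linarith) h5 m₁ (by linarith) (by linarith))
  · exact h4 (near hν R (by linarith) h5 m₂ (by linarith) (by linarith))

end

end Pool.Agent.W5h22.CR
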