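import Mathlib
import Pool.Agent.W5h22.CR.G

set_option autoImplicit false

/-! From the Laplace transforms to the sharp cutoff; the criterion for two weights. -/

namespace Pool.Agent.W5h22.CR
open Finset Filter Topology
open Pool.Agent.Helper602.MK
open Pool.Agent.H373R2.NB
open Pool.Agent.W5h22.PV
open Pool.Agent.W5h22.GS

/-- a trapezoid -/
noncomputable def trap (ε t : ℝ) : ℝ := max 0 (min 1 ((1 + ε - t) / ε))

lemma trap_one (ε t : ℝ) (hε : 0 < ε) (h : t ≤ 1) : trap ε t = 1 := by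
  unfold trap
  have h1 : 1 ≤ (1 + ε - t) / ε := by rw [le_div_iff₀ hε]; linarith
  rw [min_eq_left h1, max_eq_right zero_le_one]

lemma trap_zero (ε t : ℝ) (hε : 0 < ε) (h : 1 + ε ≤ t) : trap ε t = 0 := by
  unfold trap
  have h1 : (1 + ε - t) / ε ≤ 0 := div_nonpos_of_nonpos_of_nonneg (by linarith) hε.le
  rw [min_eq_right (h1.trans zero_le_one), max_eq_left h1]

lemma trap_nonneg (ε t : ℝ) : 0 ≤ trap ε t := le_max_left _ _

lemma trap_le (ε t : ℝ) : trap ε t ≤ 1 := max_le zero_le_one (min_le_left _ _)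

lemma trap_cont (ε : ℝ) : Continuous (trap ε) := by
  unfold trap
  fun_prop

/-- approximation of the trapezoid by exponential polynomials -/
lemma trap_poly (ε : ℝ) (hε : 0 < ε) : ∃ p : Polynomial ℝ, ∀ t : ℝ, 0 ≤ t → |trap ε t - Real.exp (-t) * p.eval (Real.exp (-t))| ≤ ε * Real.exp (-t) := by
  set h : ℝ → ℝ := fun u => trap ε (-Real.log u) / u with hh
  have hc : ContinuousOn h (Set.Icc 0 1) := by
    intro u hu
    rcases eq_or_lt_of_le hu.1 with h0 | h0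
    · subst h0
      have h1 : h =ᶠ[𝓝[Set.Icc 0 1] 0] fun _ => 0 := by
        have h2 : ∀ᶠ v in 𝓝 (0 : ℝ), v < Real.exp (-(1 + ε)) := eventually_lt_nhds (Real.exp_pos _)
        filter_upwards [nhdsWithin_le_nhds h2, self_mem_nhdsWithin] with v hv1 hv2
        rcases eq_or_lt_of_le hv2.1 with h3 | h3
        · rw [hh]; simp [← h3]
        · simp only [hh]
          rw [trap_zero ε _ hε, zero_div]
          have := Real.log_lt_log h3 hv1
          rw [Real.log_exp] at this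
          linarith
      have h2 : h 0 = 0 := by simp [hh]
      exact (continuousWithinAt_const (b := (0 : ℝ))).congr_of_eventuallyEq h1 h2
    · apply ContinuousAt.continuousWithinAt
      apply ContinuousAt.div _ continuousAt_id h0.ne'
      apply (trap_cont ε).continuousAt.comp
      exact (Real.continuousAt_log h0.ne').neg
  obtain ⟨p, hp⟩ := exists_polynomial_near_of_continuousOn 0 1 h hc ε hε
  refine ⟨p, fun t ht => ?_⟩
  have hu0 := Real.exp_pos (-t)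
  have hu1 : Real.exp (-t) ≤ 1 := by rw [Real.exp_le_one_iff]; linarith
  have h1 := hp (Real.exp (-t)) ⟨hu0.le, hu1⟩
  have h2 : trap ε t = Real.exp (-t) * h (Real.exp (-t)) := by
    simp only [hh]
    rw [Real.log_exp, neg_neg]
    field_simp
  rw [h2, ← mul_sub, abs_mul, abs_of_pos hu0, mul_comm ε, abs_sub_comm]
  exact mul_le_mul_of_nonneg_left h1.le hu0.le

section
variable {𝒰 : Ultrafilter ℕ} {x : ℕ → ℕ}

/-- the sharp cutoff -/
theorem cut {μ : ℕ → ℕ → ℂ} (hx : ∀ j, 1 ≤ x j) (hμ : Bd 𝒰 x μ) (h : ∀ m : ℕ, 1 ≤ m → Tendsto (Lp x μ m) 𝒰 (𝓝 0))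
    (C : ℝ) (hC : 0 ≤ C) (hL : ∀ ε : ℝ, 0 < ε → ∀ᶠ j in (𝒰 : Filter ℕ), ∑ n ∈ Ioc (x j) ⌊(1 + ε) * x j⌋₊, ‖μ j n‖ ≤ C * ε) :
    Tendsto (fun j => ∑ n ∈ range (x j + 1), μ j n) 𝒰 (𝓝 0) := by
  obtain ⟨C1, hC1, e1⟩ := hμ 1 one_pos
  rw [Metric.tendsto_nhds]
  intro ε₀ hε₀
  set ε : ℝ := ε₀ / (2 * (C + C1 + 1)) with hε
  have hε0 : 0 < ε := by positivity
  obtain ⟨p, hp⟩ := trap_poly ε hε0
  have e2 : Tendsto (fun j => ∑ i ∈ range (p.natDegree + 1), (p.coeff i : ℂ) * Lp x μ ((i + 1 : ℕ) : ℝ) j) 𝒰 (𝓝 0) := by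
    have := tendsto_finsetSum (range (p.natDegree + 1)) (fun i _ => (h (i + 1) (by omega)).const_mul (p.coeff i : ℂ))
    simpa using this
  have e3 : ∀ᶠ j in (𝒰 : Filter ℕ), ‖∑ i ∈ range (p.natDegree + 1), (p.coeff i : ℂ) * Lp x μ ((i + 1 : ℕ) : ℝ) j‖ < ε₀ / 2 := by
    have := (Metric.tendsto_nhds.1 e2) (ε₀ / 2) (by positivity)
    simpa only [dist_zero_right] using this
  have e4 : ∀ᶠ j in (𝒰 : Filter ℕ), ∀ i ∈ range (p.natDegree + 1), Summable (fun n => ‖μ j n‖ * ex ((i + 1 : ℕ) : ℝ) (x j) n) := by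
    rw [eventually_all_finset]
    intro i _
    obtain ⟨_, _, e5⟩ := hμ ((i + 1 : ℕ) : ℝ) (by positivity)
    filter_upwards [e5] with j hj
    exact hj.1
  filter_upwards [e1, e3, e4, hL ε hε0] with j k1 k3 k4 kL
  rw [dist_zero_right]
  have hxj : (0 : ℝ) < x j := by exact_mod_cast hx j
  have a0 : ∀ i n : ℕ, ex ((i + 1 : ℕ) : ℝ) (x j) n = Real.exp (-((n : ℝ) / x j)) ^ (i + 1) := by
    intro i n
    unfold ex
    rw [← Real.exp_nat_mul]
    congr 1
    push_cast; ring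
  have a1 : ∀ i n : ℕ, ‖μ j n * (ex ((i + 1 : ℕ) : ℝ) (x j) n : ℂ)‖ = ‖μ j n‖ * ex ((i + 1 : ℕ) : ℝ) (x j) n := by
    intro i n
    rw [norm_mul, Complex.norm_real, Real.norm_of_nonneg (ex_pos _ _ _).le]
  have a2 : ∀ i ∈ range (p.natDegree + 1), Summable (fun n => (p.coeff i : ℂ) * (μ j n * (ex ((i + 1 : ℕ) : ℝ) (x j) n : ℂ))) := by
    intro i hi
    apply Summable.mul_left
    apply Summable.of_norm
    exact (k4 i hi).congr fun n => (a1 i n).symm
  have c0 : ∀ n : ℕ, ∑ i ∈ range (p.natDegree + 1), (p.coeff i : ℂ) * (μ j n * (ex ((i + 1 : ℕ) : ℝ) (x j) n : ℂ)) =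
      μ j n * ((Real.exp (-((n : ℝ) / x j)) * p.eval (Real.exp (-((n : ℝ) / x j))) : ℝ) : ℂ) := by
    intro n
    have c1 : Real.exp (-((n : ℝ) / x j)) * p.eval (Real.exp (-((n : ℝ) / x j))) =
        ∑ i ∈ range (p.natDegree + 1), p.coeff i * ex ((i + 1 : ℕ) : ℝ) (x j) n := by
      rw [Polynomial.eval_eq_sum_range, mul_sum]
      apply sum_congr rfl
      intro i _
      rw [a0, pow_succ]
      ring
    rw [c1, Complex.ofReal_sum, mul_sum]
    apply sum_congr rfl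
    intro i _
    rw [Complex.ofReal_mul]
    ring
  have a3 : ∑ i ∈ range (p.natDegree + 1), (p.coeff i : ℂ) * Lp x μ ((i + 1 : ℕ) : ℝ) j =
      ∑' n, μ j n * ((Real.exp (-((n : ℝ) / x j)) * p.eval (Real.exp (-((n : ℝ) / x j))) : ℝ) : ℂ) := by
    have b1 : ∀ i ∈ range (p.natDegree + 1), (p.coeff i : ℂ) * Lp x μ ((i + 1 : ℕ) : ℝ) j = ∑' n, (p.coeff i : ℂ) * (μ j n * (ex ((i + 1 : ℕ) : ℝ) (x j) n : ℂ)) := by
      intro i _
      unfold Lp
      rw [tsum_mul_left]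
    rw [sum_congr rfl b1, ← Summable.tsum_finsetSum a2]
    exact tsum_congr c0
  have a4 : Summable (fun n => μ j n * ((Real.exp (-((n : ℝ) / x j)) * p.eval (Real.exp (-((n : ℝ) / x j))) : ℝ) : ℂ)) :=
    (summable_sum a2).congr c0
  have a5 : ∑ n ∈ range (x j + 1), μ j n = ∑' n, μ j n * (((if n ≤ x j then 1 else 0 : ℝ)) : ℂ) := by
    rw [tsum_eq_sum (s := range (x j + 1))]
    · apply sum_congr rfl
      intro n hn
      rw [mem_range] at hn
      rw [if_pos (by omega)]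
      push_cast; ring
    · intro n hn
      rw [mem_range] at hn
      rw [if_neg (by omega)]
      push_cast; ring
  have a6 : Summable (fun n => μ j n * (((if n ≤ x j then 1 else 0 : ℝ)) : ℂ)) := by
    apply summable_of_ne_finset_zero (s := range (x j + 1))
    intro n hn
    rw [mem_range] at hn
    rw [if_neg (by omega)]
    push_cast; ring
  set F : ℕ → ℝ := fun n => (if n ≤ x j then 1 else 0) - Real.exp (-((n : ℝ) / x j)) * p.eval (Real.exp (-((n : ℝ) / x j))) with hF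
  have a7 : ∑ n ∈ range (x j + 1), μ j n - ∑ i ∈ range (p.natDegree + 1), (p.coeff i : ℂ) * Lp x μ ((i + 1 : ℕ) : ℝ) j = ∑' n, μ j n * (F n : ℂ) := by
    rw [a3, a5, ← a6.tsum_sub a4]
    apply tsum_congr
    intro n
    simp only [hF]
    push_cast
    ring
  set T : ℕ → ℝ := fun n => if n ∈ Ioc (x j) ⌊(1 + ε) * x j⌋₊ then ‖μ j n‖ else 0 with hT
  have a8 : ∀ n, ‖μ j n * (F n : ℂ)‖ ≤ T n + ε * (‖μ j n‖ * ex 1 (x j) n) := by
    intro n
    rw [norm_mul, Complex.norm_real, Real.norm_eq_abs]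
    have b1 := hp ((n : ℝ) / x j) (by positivity)
    have b2 : ex 1 (x j) n = Real.exp (-((n : ℝ) / x j)) := by
      unfold ex; congr 1; ring
    rw [b2]
    have b3 : |F n| ≤ |(if n ≤ x j then 1 else 0) - trap ε ((n : ℝ) / x j)| + ε * Real.exp (-((n : ℝ) / x j)) := by
      have e : F n = ((if n ≤ x j then 1 else 0) - trap ε ((n : ℝ) / x j)) +
          (trap ε ((n : ℝ) / x j) - Real.exp (-((n : ℝ) / x j)) * p.eval (Real.exp (-((n : ℝ) / x j)))) := by
        simp only [hF]; ring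
      rw [e]
      exact (abs_add_le _ _).trans (by linarith)
    have b4 : ‖μ j n‖ * |(if n ≤ x j then 1 else 0) - trap ε ((n : ℝ) / x j)| ≤ T n := by
      by_cases c1 : n ≤ x j
      · have c2 : (n : ℝ) / x j ≤ 1 := by
          rw [div_le_one hxj]; exact_mod_cast c1
        rw [if_pos c1, trap_one ε _ hε0 c2, sub_self, abs_zero, mul_zero]
        simp only [hT]
        split_ifs <;> positivity
      · rw [if_neg c1, zero_sub, abs_neg, abs_of_nonneg (trap_nonneg _ _)]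
        by_cases c2 : n ≤ ⌊(1 + ε) * x j⌋₊
        · simp only [hT]
          rw [if_pos (mem_Ioc.2 ⟨by omega, c2⟩)]
          calc ‖μ j n‖ * trap ε ((n : ℝ) / x j) ≤ ‖μ j n‖ * 1 := mul_le_mul_of_nonneg_left (trap_le _ _) (norm_nonneg _)
            _ = _ := mul_one _
        · have c3 : (1 + ε) * x j < n := by
            push Not at c2
            exact (Nat.floor_lt (by positivity)).1 c2
          have c4 : 1 + ε ≤ (n : ℝ) / x j := by
            rw [le_div_iff₀ hxj]; exact c3.le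
          rw [trap_zero ε _ hε0 c4, mul_zero]
          simp only [hT]
          split_ifs <;> positivity
    calc ‖μ j n‖ * |F n| ≤ ‖μ j n‖ * (|(if n ≤ x j then 1 else 0) - trap ε ((n : ℝ) / x j)| + ε * Real.exp (-((n : ℝ) / x j))) :=
          mul_le_mul_of_nonneg_left b3 (norm_nonneg _)
      _ = ‖μ j n‖ * |(if n ≤ x j then 1 else 0) - trap ε ((n : ℝ) / x j)| + ε * (‖μ j n‖ * Real.exp (-((n : ℝ) / x j))) := by ring
      _ ≤ _ := by linarith
  have hTs : Summable T := by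
    apply summable_of_ne_finset_zero (s := Ioc (x j) ⌊(1 + ε) * x j⌋₊)
    intro n hn
    simp only [hT]
    rw [if_neg hn]
  have hTsum : ∑' n, T n = ∑ n ∈ Ioc (x j) ⌊(1 + ε) * x j⌋₊, ‖μ j n‖ := by
    rw [tsum_eq_sum (s := Ioc (x j) ⌊(1 + ε) * x j⌋₊)]
    · apply sum_congr rfl
      intro n hn
      simp only [hT]
      rw [if_pos hn]
    · intro n hn
      simp only [hT]
      rw [if_neg hn]
  have hsum2 : Summable (fun n => T n + ε * (‖μ j n‖ * ex 1 (x j) n)) := hTs.add (k1.1.mul_left _)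
  have hsm : Summable (fun n => ‖μ j n * (F n : ℂ)‖) := Summable.of_nonneg_of_le (fun _ => norm_nonneg _) a8 hsum2
  have a9 : ‖∑ n ∈ range (x j + 1), μ j n - ∑ i ∈ range (p.natDegree + 1), (p.coeff i : ℂ) * Lp x μ ((i + 1 : ℕ) : ℝ) j‖ ≤ (C + C1) * ε := by
    rw [a7]
    calc _ ≤ ∑' n, ‖μ j n * (F n : ℂ)‖ := norm_tsum_le_tsum_norm hsm
      _ ≤ ∑' n, (T n + ε * (‖μ j n‖ * ex 1 (x j) n)) := hsm.tsum_le_tsum a8 hsum2
      _ = ∑' n, T n + ε * ∑' n, ‖μ j n‖ * ex 1 (x j) n := by rw [hTs.tsum_add (k1.1.mul_left _), tsum_mul_left]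
      _ ≤ C * ε + ε * C1 := by
          rw [hTsum]
          exact add_le_add kL (mul_le_mul_of_nonneg_left k1.2 hε0.le)
      _ = _ := by ring
  have a10 : (C + C1) * ε ≤ ε₀ / 2 := by
    have : (C + C1 + 1) * ε = ε₀ / 2 := by rw [hε]; field_simp
    nlinarith
  have h6 := norm_add_le (∑ n ∈ range (x j + 1), μ j n - ∑ i ∈ range (p.natDegree + 1), (p.coeff i : ℂ) * Lp x μ ((i + 1 : ℕ) : ℝ) j)
    (∑ i ∈ range (p.natDegree + 1), (p.coeff i : ℂ) * Lp x μ ((i + 1 : ℕ) : ℝ) j)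
  rw [sub_add_cancel] at h6
  linarith

end

/-- the exponential sum over the primes -/
noncomputable def Ex (f : ℕ → ℝ) (α : ℝ) (x : ℕ) : ℂ := ∑ p ∈ (Icc 1 x).filter Nat.Prime, (f p : ℂ) * ee (α * p)

/-- the weights have no common frequency -/
def NoFreq (f g : ℕ → ℝ) : Prop := ∀ ε : ℝ, 0 < ε → ∀ᶠ x : ℕ in atTop, ∀ α : ℝ, ‖Ex f α x‖ * ‖Ex g α x‖ ≤ ε * ((x : ℝ) / Real.log x) ^ 2

/-- the normalised weight -/
noncomputable def mu (x : ℕ → ℕ) (α : ℕ → ℝ) (f : ℕ → ℝ) (j n : ℕ) : ℂ :=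
  if n.Prime then (f n : ℂ) * ee (α j * n) * ((Real.log (x j) / x j : ℝ) : ℂ) else 0

lemma mu_norm (x : ℕ → ℕ) (α : ℕ → ℝ) (f : ℕ → ℝ) (hf : ∀ p, |f p| ≤ 1) (j n : ℕ) (hx : 3 ≤ x j) :
    ‖mu x α f j n‖ ≤ (Real.log (x j) / x j) * (if n.Prime then (1 : ℝ) else 0) := by
  have h0 : 0 ≤ Real.log (x j) / x j := div_nonneg (Real.log_nonneg (by exact_mod_cast (by omega : 1 ≤ x j))) (Nat.cast_nonneg _)
  unfold mu
  split_ifs
  · rw [norm_mul, norm_mul, N_J5b.norm_ee, Complex.norm_real, Complex.norm_real, Real.norm_eq_abs, Real.norm_of_nonneg h0, mul_one, mul_one]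
    calc |f n| * (Real.log (x j) / x j) ≤ 1 * (Real.log (x j) / x j) := mul_le_mul_of_nonneg_right (hf n) h0
      _ = _ := one_mul _
  · rw [norm_zero, mul_zero]

lemma mu_cv (x : ℕ → ℕ) (α : ℕ → ℝ) (f g : ℕ → ℝ) (j N : ℕ) :
    cv (mu x α f) (mu x α g) j N = (rep2 f g N : ℂ) * ee (α j * N) * ((Real.log (x j) / x j : ℝ) : ℂ) ^ 2 := by
  unfold cv rep2
  rw [Finset.Nat.sum_antidiagonal_eq_sum_range_succ (fun k l => mu x α f j k * mu x α g j l) N, sum_range_succ]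
  have h0 : mu x α g j (N - N) = 0 := by
    unfold mu
    rw [Nat.sub_self, if_neg Nat.not_prime_zero]
  rw [h0, mul_zero, add_zero, Complex.ofReal_sum]
  unfold G1
  rw [sum_filter, sum_mul, sum_mul]
  apply sum_congr rfl
  intro p hp
  rw [mem_range] at hp
  unfold mu
  by_cases h1 : p.Prime
  · by_cases h2 : (N - p).Prime
    · rw [if_pos h1, if_pos h2, if_pos (show p.Prime ∧ (N - p).Prime from ⟨h1, h2⟩), Complex.ofReal_mul]
      have h3 : ee (α j * N) = ee (α j * p) * ee (α j * ((N - p : ℕ) : ℝ)) := by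
        rw [← N_J5b.ee_add]
        congr 1
        rw [Nat.cast_sub hp.le]; ring
      rw [h3]; ring
    · rw [if_neg h2, if_neg (show ¬ (p.Prime ∧ (N - p).Prime) from fun h => h2 h.2)]; ring
  · rw [if_neg h1, if_neg (show ¬ (p.Prime ∧ (N - p).Prime) from fun h => h1 h.1)]; ring

lemma rep2_le (f g : ℕ → ℝ) (hf : ∀ p, |f p| ≤ 1) (hg : ∀ p, |g p| ≤ 1) (n : ℕ) : |rep2 f g n| ≤ #(G1 n) := by
  unfold rep2
  calc |∑ p ∈ G1 n, f p * g (n - p)| ≤ ∑ p ∈ G1 n, |f p * g (n - p)| := abs_sum_le_sum_abs _ _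
    _ ≤ ∑ p ∈ G1 n, 1 := sum_le_sum fun p _ => by
        rw [abs_mul]; exact mul_le_one₀ (hf p) (abs_nonneg _) (hg _)
    _ = _ := by rw [sum_const, nsmul_eq_mul, mul_one]

/-- **Necessity.** -/
theorem nec2 {f g : ℕ → ℝ} (hf : ∀ p, |f p| ≤ 1) (hg : ∀ p, |g p| ≤ 1) (h : SmF (rep2 f g)) : NoFreq f g := by
  by_contra hcon
  unfold NoFreq at hcon
  push Not at hcon
  obtain ⟨ε, hε, hfr⟩ := hcon
  have h1 : ∀ j : ℕ, ∃ x : ℕ, j + 3 ≤ x ∧ ∃ α : ℝ, ε * ((x : ℝ) / Real.log x) ^ 2 < ‖Ex f α x‖ * ‖Ex g α x‖ := by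
    intro j
    obtain ⟨x, hx1, hx2⟩ := (frequently_atTop.1 hfr) (j + 3)
    exact ⟨x, hx1, hx2⟩
  choose x hx α hα using h1
  set 𝒰 : Ultrafilter ℕ := hyperfilter ℕ with h𝒰
  have hle : (𝒰 : Filter ℕ) ≤ atTop := Nat.hyperfilter_le_atTop
  have hxt : Tendsto x 𝒰 atTop := (tendsto_atTop_mono (fun j => (by have := hx j; omega : j ≤ x j)) tendsto_id).mono_left hle
  have hx1 : ∀ j, 1 ≤ x j := fun j => by have := hx j; omega
  have hlx : ∀ j, 0 < Real.log (x j) := fun j => Real.log_pos (by have := hx j; exact_mod_cast (by omega : 1 < x j))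
  have hx0 : ∀ j, (0 : ℝ) < x j := fun j => by exact_mod_cast hx1 j
  have hBd : ∀ f' : ℕ → ℝ, (∀ p, |f' p| ≤ 1) → Bd 𝒰 x (mu x α f') := by
    intro f' hf' c hc
    refine ⟨4 * bc c, by have := bc_nonneg c; positivity, ?_⟩
    filter_upwards [hxt.eventually (abel_primes c hc)] with j hj
    have a1 : ∀ n, ‖mu x α f' j n‖ * ex c (x j) n ≤ (Real.log (x j) / x j) * ((if n.Prime then (1 : ℝ) else 0) * ex c (x j) n) := by
      intro n
      rw [← mul_assoc]
      exact mul_le_mul_of_nonneg_right (mu_norm x α f' hf' j n (by have := hx j; omega)) (ex_pos _ _ _).le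
    have a2 : Summable (fun n => ‖mu x α f' j n‖ * ex c (x j) n) :=
      Summable.of_nonneg_of_le (fun n => mul_nonneg (norm_nonneg _) (ex_pos _ _ _).le) a1 (hj.1.mul_left _)
    refine ⟨a2, (a2.tsum_le_tsum a1 (hj.1.mul_left _)).trans ?_⟩
    rw [tsum_mul_left]
    have := hx0 j
    have := hlx j
    calc Real.log (x j) / x j * ∑' n, (if n.Prime then (1 : ℝ) else 0) * ex c (x j) n ≤ Real.log (x j) / x j * (4 * bc c * ((x j : ℝ) / Real.log (x j))) :=
          mul_le_mul_of_nonneg_left hj.2 (by positivity)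
      _ = 4 * bc c := by field_simp
  have hcv : CvS 𝒰 x (mu x α f) (mu x α g) := by
    intro c hc κ hκ
    filter_upwards [hxt.eventually (abel_small (rep2 f g) (rep2_le f g hf hg) h c κ hc hκ)] with j hj
    have := hx0 j
    have := hlx j
    have a1 : ∀ n, ‖cv (mu x α f) (mu x α g) j n‖ * ex c (x j) n = (Real.log (x j) / x j) ^ 2 * (|rep2 f g n| * ex c (x j) n) := by
      intro n
      rw [mu_cv, norm_mul, norm_mul, N_J5b.norm_ee, norm_pow, Complex.norm_real, Complex.norm_real, Real.norm_eq_abs,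
        Real.norm_of_nonneg (by positivity)]
      ring
    simp only [a1]
    refine ⟨hj.1.mul_left _, ?_⟩
    rw [tsum_mul_left]
    calc (Real.log (x j) / x j) ^ 2 * ∑' n, |rep2 f g n| * ex c (x j) n ≤ (Real.log (x j) / x j) ^ 2 * (κ * ((x j : ℝ) / Real.log (x j)) ^ 2) :=
          mul_le_mul_of_nonneg_left hj.2 (by positivity)
      _ = κ := by field_simp
  obtain ⟨C, hC, hps⟩ := primes_short
  have hLip : ∀ f' : ℕ → ℝ, (∀ p, |f' p| ≤ 1) → ∀ ε : ℝ, 0 < ε → ∀ᶠ j in (𝒰 : Filter ℕ),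
      ∑ n ∈ Ioc (x j) ⌊(1 + ε) * x j⌋₊, ‖mu x α f' j n‖ ≤ C * ε := by
    intro f' hf' ε hε
    filter_upwards [hxt.eventually (hps ε hε)] with j hj
    have := hx0 j
    have := hlx j
    have a1 := hj (x j) ((Ioc (x j) ⌊(1 + ε) * x j⌋₊).filter Nat.Prime) (by
      intro p hp
      rw [mem_filter, mem_Ioc] at hp
      refine ⟨hp.2, hp.1.1.le, ?_⟩
      have := (Nat.le_floor_iff (by positivity)).1 hp.1.2
      linarith)
    calc ∑ n ∈ Ioc (x j) ⌊(1 + ε) * x j⌋₊, ‖mu x α f' j n‖ ≤ ∑ n ∈ Ioc (x j) ⌊(1 + ε) * x j⌋₊, (Real.log (x j) / x j) * (if n.Prime then (1 : ℝ) else 0) :=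
          sum_le_sum fun n _ => mu_norm x α f' hf' j n (by have := hx j; omega)
      _ = (Real.log (x j) / x j) * #((Ioc (x j) ⌊(1 + ε) * x j⌋₊).filter Nat.Prime) := by
          rw [← mul_sum, ← sum_filter, sum_const, nsmul_eq_mul, mul_one]
      _ ≤ (Real.log (x j) / x j) * (C * ε * ((x j : ℝ) / Real.log (x j))) := mul_le_mul_of_nonneg_left a1 (by positivity)
      _ = _ := by field_simp
  -- the sums with the sharp cutoff
  have hS : ∀ f' : ℕ → ℝ, ∀ j, ∑ n ∈ range (x j + 1), mu x α f' j n = Ex f' (α j) (x j) * ((Real.log (x j) / x j : ℝ) : ℂ) := by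
    intro f' j
    unfold mu Ex
    rw [← sum_filter, sum_mul]
    apply sum_congr _ fun _ _ => rfl
    ext n
    simp only [mem_filter, mem_range, mem_Icc]
    constructor
    · rintro ⟨a1, a2⟩
      exact ⟨⟨a2.one_le, by omega⟩, a2⟩
    · rintro ⟨⟨a1, a2⟩, a3⟩
      exact ⟨by omega, a3⟩
  -- a uniform bound
  have hB : ∀ f' : ℕ → ℝ, (∀ p, |f' p| ≤ 1) → ∀ᶠ j in (𝒰 : Filter ℕ), ‖∑ n ∈ range (x j + 1), mu x α f' j n‖ ≤ C := by
    intro f' hf'
    filter_upwards [hxt.eventually (hps 1 one_pos)] with j hj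
    have := hx0 j
    have := hlx j
    have a1 := hj 0 ((range (x j + 1)).filter Nat.Prime) (by
      intro p hp
      rw [mem_filter, mem_range] at hp
      refine ⟨hp.2, Nat.zero_le _, ?_⟩
      have : (p : ℝ) ≤ x j := by exact_mod_cast (by omega : p ≤ x j)
      push_cast; linarith)
    calc ‖∑ n ∈ range (x j + 1), mu x α f' j n‖ ≤ ∑ n ∈ range (x j + 1), ‖mu x α f' j n‖ := norm_sum_le _ _
      _ ≤ ∑ n ∈ range (x j + 1), (Real.log (x j) / x j) * (if n.Prime then (1 : ℝ) else 0) :=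
          sum_le_sum fun n _ => mu_norm x α f' hf' j n (by have := hx j; omega)
      _ = (Real.log (x j) / x j) * #((range (x j + 1)).filter Nat.Prime) := by
          rw [← mul_sum, ← sum_filter, sum_const, nsmul_eq_mul, mul_one]
      _ ≤ (Real.log (x j) / x j) * (C * 1 * ((x j : ℝ) / Real.log (x j))) := mul_le_mul_of_nonneg_left a1 (by positivity)
      _ = _ := by field_simp
  have hprod : ∀ j, ε < ‖∑ n ∈ range (x j + 1), mu x α f j n‖ * ‖∑ n ∈ range (x j + 1), mu x α g j n‖ := by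
    intro j
    have a0 := hx0 j
    have a00 := hlx j
    rw [hS f j, hS g j, norm_mul, norm_mul, Complex.norm_real, Real.norm_of_nonneg (by positivity)]
    have a1 := hα j
    have a2 : ‖Ex f (α j) (x j)‖ * (Real.log (x j) / x j) * (‖Ex g (α j) (x j)‖ * (Real.log (x j) / x j)) =
        (‖Ex f (α j) (x j)‖ * ‖Ex g (α j) (x j)‖) / ((x j : ℝ) / Real.log (x j)) ^ 2 := by field_simp
    rw [a2, lt_div_iff₀ (by positivity)]
    exact a1
  -- one of the factors tends to zero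
  have hmain : ∀ f' g' : ℕ → ℝ, (∀ p, |f' p| ≤ 1) → (∀ p, |g' p| ≤ 1) →
      (∀ j, ε < ‖∑ n ∈ range (x j + 1), mu x α f' j n‖ * ‖∑ n ∈ range (x j + 1), mu x α g' j n‖) →
      (∀ m : ℕ, 1 ≤ m → Tendsto (Lp x (mu x α f') m) 𝒰 (𝓝 0)) → False := by
    intro f' g' hf' hg' hpr hLp
    have a1 := cut hx1 (hBd f' hf') hLp C (by linarith) (hLip f' hf')
    have a2 := (Metric.tendsto_nhds.1 a1) (ε / C) (by positivity)
    obtain ⟨j, hj1, hj2⟩ := (a2.and (hB g' hg')).exists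
    rw [dist_zero_right, lt_div_iff₀ (by linarith)] at hj1
    have a3 := hpr j
    have a4 : ‖∑ n ∈ range (x j + 1), mu x α f' j n‖ * ‖∑ n ∈ range (x j + 1), mu x α g' j n‖ ≤ ‖∑ n ∈ range (x j + 1), mu x α f' j n‖ * C :=
      mul_le_mul_of_nonneg_left hj2 (norm_nonneg _)
    linarith
  rcases one_zero (hBd f hf) (hBd g hg) hcv with h2 | h2
  · exact hmain f g hf hg hprod h2
  · exact hmain g f hg hf (fun j => by rw [mul_comm]; exact hprod j) h2

lemma Ex_triv (f : ℕ → ℝ) (hf : ∀ p, |f p| ≤ 1) (α : ℝ) (x : ℕ) : ‖Ex f α x‖ ≤ Nat.primeCounting x := by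
  unfold Ex
  calc ‖∑ p ∈ (Icc 1 x).filter Nat.Prime, (f p : ℂ) * ee (α * p)‖ ≤ ∑ p ∈ (Icc 1 x).filter Nat.Prime, ‖(f p : ℂ) * ee (α * p)‖ := norm_sum_le _ _
    _ ≤ ∑ _p ∈ (Icc 1 x).filter Nat.Prime, (1 : ℝ) := sum_le_sum fun p _ => by
        rw [norm_mul, N_J5b.norm_ee, mul_one, Complex.norm_real, Real.norm_eq_abs]; exact hf p
    _ = #((Icc 1 x).filter Nat.Prime) := by rw [sum_const, nsmul_eq_mul, mul_one]
    _ = Nat.primeCounting x := by
        unfold Nat.primeCounting Nat.primeCounting'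
        rw [Nat.count_eq_card_filter_range]
        norm_cast
        congr 1
        ext p
        simp only [mem_filter, mem_Icc, mem_range]
        constructor
        · rintro ⟨⟨a1, a2⟩, a3⟩; exact ⟨by omega, a3⟩
        · rintro ⟨a1, a2⟩; exact ⟨⟨a2.one_le, by omega⟩, a2⟩

lemma hat_Ex (f : ℕ → ℝ) (hf : ∀ p, |f p| ≤ 1) (k M : ℕ) [NeZero M] (hk : k < M) (ξ : ZMod M) :
    ‖hat (wZ f k M) ξ‖ ≤ ‖Ex f ((ξ.val : ℝ) / M) k‖ + (Nat.sqrt k + 1) := by
  rw [hat_wZ f k hk]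
  have h1 : ∑ p ∈ PP k, (f p : ℂ) * ee ((ξ.val : ℝ) * p / M) = ∑ p ∈ PP k, (f p : ℂ) * ee ((ξ.val : ℝ) / M * p) := by
    apply sum_congr rfl
    intro p _
    congr 2
    ring
  have h2 : PP k ⊆ (Icc 1 k).filter Nat.Prime := by
    intro p hp
    rw [PP, mem_filter] at hp
    exact mem_filter.2 ⟨hp.1, hp.2.1⟩
  have h3 : ∑ p ∈ PP k, (f p : ℂ) * ee ((ξ.val : ℝ) / M * p) = Ex f ((ξ.val : ℝ) / M) k -
      ∑ p ∈ (Icc 1 k).filter Nat.Prime \ PP k, (f p : ℂ) * ee ((ξ.val : ℝ) / M * p) := by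
    unfold Ex
    rw [← sum_sdiff h2]; ring
  rw [h1, h3]
  refine (norm_sub_le _ _).trans ?_
  apply add_le_add le_rfl
  have h4 : (Icc 1 k).filter Nat.Prime \ PP k ⊆ range (Nat.sqrt k + 1) := by
    intro p hp
    rw [Finset.mem_sdiff, mem_filter, mem_Icc, PP, mem_filter, mem_Icc] at hp
    rw [mem_range, Nat.lt_succ_iff, Nat.le_sqrt, ← sq]
    by_contra h5
    exact hp.2 ⟨hp.1.1, hp.1.2, by omega⟩
  calc ‖∑ p ∈ (Icc 1 k).filter Nat.Prime \ PP k, (f p : ℂ) * ee ((ξ.val : ℝ) / M * p)‖ ≤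
      ∑ p ∈ (Icc 1 k).filter Nat.Prime \ PP k, ‖(f p : ℂ) * ee ((ξ.val : ℝ) / M * p)‖ := norm_sum_le _ _
    _ ≤ ∑ _p ∈ (Icc 1 k).filter Nat.Prime \ PP k, (1 : ℝ) := sum_le_sum fun p _ => by
        rw [norm_mul, N_J5b.norm_ee, mul_one, Complex.norm_real, Real.norm_eq_abs]; exact hf p
    _ = #((Icc 1 k).filter Nat.Prime \ PP k) := by rw [sum_const, nsmul_eq_mul, mul_one]
    _ ≤ ((Nat.sqrt k + 1 : ℕ) : ℝ) := by
        have := card_le_card h4
        rw [card_range] at this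
        exact_mod_cast this
    _ = _ := by push_cast; ring

/-- **Sufficiency.** -/
theorem suff2 {f g : ℕ → ℝ} (hf : ∀ p, |f p| ≤ 1) (hg : ∀ p, |g p| ≤ 1) (h : NoFreq f g) : SmF (rep2 f g) := by
  apply SmF_of_dyadic
  intro ε hε
  obtain ⟨C, hC, hw⟩ := window_two
  set δ : ℝ := ε ^ 3 / C with hδ
  have hδ0 : 0 < δ := by positivity
  set c : ℝ := min 1 (δ ^ 2 / 14) with hc
  have hc0 : 0 < c := by positivity
  have hc1 : c ≤ 1 := min_le_left _ _
  have hc2 : c ≤ δ ^ 2 / 14 := min_le_right _ _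
  obtain ⟨x₀, hx₀⟩ := eventually_atTop.1 (h (δ ^ 2 / 2) (by positivity))
  filter_upwards [hw δ hδ0, ev_sqrt 2 c (by norm_num) hc0, pc_upper, ev_log2, eventually_ge_atTop (x₀ + 3)] with X h1 h2 h3 h4 hX
  have hX0 : (0 : ℝ) < X := by exact_mod_cast (by omega : 0 < X)
  have hlX : 0 < Real.log X := by linarith [h4.1]
  have hl2 : Real.log ((2 * X : ℕ) : ℝ) ≤ 11 / 10 * Real.log X := by push_cast; exact h4.2
  have hl20 : 0 < Real.log ((2 * X : ℕ) : ℝ) := Real.log_pos (by exact_mod_cast (by omega : 1 < 2 * X))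
  set Z : ℝ := ((2 * X : ℕ) : ℝ) / Real.log ((2 * X : ℕ) : ℝ) with hZ
  have hZ0 : 0 < Z := by
    have : (0 : ℝ) < ((2 * X : ℕ) : ℝ) := by push_cast; linarith
    positivity
  have hXZ : X / Real.log X ≤ 11 / 20 * Z := by
    have : ((2 * X : ℕ) : ℝ) / (11 / 10 * Real.log X) ≤ Z := div_le_div_of_nonneg_left (by push_cast; linarith) hl20 hl2
    have e : ((2 * X : ℕ) : ℝ) / (11 / 10 * Real.log X) = 20 / 11 * (X / Real.log X) := by push_cast; field_simp; ring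
    rw [e] at this
    linarith
  have hsq : (Nat.sqrt (2 * X) : ℝ) + 1 ≤ c * Z := by
    have e : ((Nat.sqrt (2 * X) : ℝ) + 1) * Real.log X ^ 2 ≤ c / 2 * X := by
      have := h2
      nlinarith
    have e2 : (Nat.sqrt (2 * X) : ℝ) + 1 ≤ c / 2 * (X / Real.log X) := by
      rw [← mul_div_assoc, le_div_iff₀ hlX]
      refine le_trans ?_ e
      have : (0 : ℝ) ≤ (Nat.sqrt (2 * X) : ℝ) + 1 := by positivity
      apply mul_le_mul_of_nonneg_left _ this
      nlinarith [h4.1]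
    nlinarith
  have hsum := h1 f g hf hg (by
    intro M hM0 hM ξ
    have hM2 : 2 * X < M := by omega
    have a1 := hat_Ex f hf (2 * X) M hM2 ξ
    have a2 := hat_Ex g hg (2 * X) M hM2 ξ
    have a3 := hx₀ (2 * X) (by omega) ((ξ.val : ℝ) / M)
    have a4 : ‖Ex f ((ξ.val : ℝ) / M) (2 * X)‖ ≤ 3 * Z := (Ex_triv f hf _ _).trans (h3.trans (by linarith))
    have a5 : ‖Ex g ((ξ.val : ℝ) / M) (2 * X)‖ ≤ 3 * Z := (Ex_triv g hg _ _).trans (h3.trans (by linarith))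
    set A := ‖Ex f ((ξ.val : ℝ) / M) (2 * X)‖ with hA
    set B := ‖Ex g ((ξ.val : ℝ) / M) (2 * X)‖ with hB
    have hA0 : 0 ≤ A := norm_nonneg _
    have hB0 : 0 ≤ B := norm_nonneg _
    calc ‖hat (wZ f (2 * X) M) ξ‖ * ‖hat (wZ g (2 * X) M) ξ‖ ≤ (A + c * Z) * (B + c * Z) :=
          mul_le_mul (a1.trans (by linarith)) (a2.trans (by linarith)) (norm_nonneg _) (by positivity)
      _ = A * B + c * Z * (A + B) + c * (c * Z ^ 2) := by ring
      _ ≤ δ ^ 2 / 2 * Z ^ 2 + c * Z * (3 * Z + 3 * Z) + c * (1 * Z ^ 2) := by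
          apply add_le_add
          · apply add_le_add a3
            exact mul_le_mul_of_nonneg_left (by linarith) (by positivity)
          · apply mul_le_mul_of_nonneg_left _ hc0.le
            exact mul_le_mul_of_nonneg_right hc1 (by positivity)
      _ = (δ ^ 2 / 2 + 7 * c) * Z ^ 2 := by ring
      _ ≤ δ ^ 2 * Z ^ 2 := by
          apply mul_le_mul_of_nonneg_right _ (by positivity)
          linarith)
  set lam : ℝ := ε * ((X : ℝ) / Real.log X ^ 2) with hlam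
  have hlam0 : 0 < lam := by positivity
  have h5 : (#((Ioc X (2 * X)).filter (fun n : ℕ => lam < |rep2 f g n|)) : ℝ) * lam ^ 2 ≤ ∑ n ∈ Ioc X (2 * X), (rep2 f g n) ^ 2 := by
    calc (#((Ioc X (2 * X)).filter (fun n : ℕ => lam < |rep2 f g n|)) : ℝ) * lam ^ 2 =
        ∑ _n ∈ (Ioc X (2 * X)).filter (fun n : ℕ => lam < |rep2 f g n|), lam ^ 2 := by rw [sum_const, nsmul_eq_mul]
      _ ≤ ∑ n ∈ (Ioc X (2 * X)).filter (fun n : ℕ => lam < |rep2 f g n|), (rep2 f g n) ^ 2 := by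
          apply sum_le_sum
          intro n hn
          rw [mem_filter] at hn
          rw [← sq_abs (rep2 f g n)]
          exact pow_le_pow_left₀ hlam0.le hn.2.le 2
      _ ≤ _ := sum_le_sum_of_subset_of_nonneg (filter_subset _ _) fun _ _ _ => sq_nonneg _
  have h6 : C * δ * ((X : ℝ) ^ 3 / Real.log X ^ 4) = (ε * X) * lam ^ 2 := by
    rw [hδ, hlam]
    field_simp
  rw [h6] at hsum
  exact le_of_mul_le_mul_right (h5.trans hsum) (by positivity)

/-- **The criterion for two weights.** -/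
theorem crit2 {f g : ℕ → ℝ} (hf : ∀ p, |f p| ≤ 1) (hg : ∀ p, |g p| ≤ 1) : SmF (rep2 f g) ↔ NoFreq f g :=
  ⟨nec2 hf hg, suff2 hf hg⟩

end Pool.Agent.W5h22.CR
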