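import Mathlib
import Pool.Agent.W5h22.CR.H
import Pool.Agent.W5h22.CR.E

set_option autoImplicit false

/-! The criterion for two weights on the indices; weights which are orthogonal to all others. -/

namespace Pool.Agent.W5h22.CR
open Finset Filter Topology
open Pool.Agent.Helper602.MK
open Pool.Agent.W5h22.GS

/-- the exponential sum over the first `N` primes with a weight on the index -/
noncomputable def IS (f : ℕ → ℝ) (α : ℝ) (N : ℕ) : ℂ := ∑ k ∈ Icc 1 N, (f k : ℂ) * ee (α * Nat.nth Nat.Prime (k - 1))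

lemma IS_pi (f : ℕ → ℝ) (α : ℝ) (x : ℕ) : IS f α (Nat.primeCounting x) = Ex (fun p => f (Nat.primeCounting p)) α x := by
  unfold IS Ex
  apply sum_bij' (fun k _ => Nat.nth Nat.Prime (k - 1)) (fun p _ => Nat.primeCounting p)
  · intro k hk
    rw [mem_Icc] at hk
    have hp : (Nat.nth Nat.Prime (k - 1)).Prime := Nat.prime_nth_prime _
    rw [mem_filter, mem_Icc]
    refine ⟨⟨hp.one_le, ?_⟩, hp⟩
    by_contra h
    push Not at h
    have h1 : Nat.primeCounting (Nat.nth Nat.Prime (k - 1)) = k := pc_nth k hk.1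
    have h2 : Nat.primeCounting x < Nat.primeCounting (Nat.nth Nat.Prime (k - 1)) := by
      rw [pc_eq _ hp]
      have h3 : Nat.primeCounting x ≤ Nat.count Nat.Prime (Nat.nth Nat.Prime (k - 1)) := by
        unfold Nat.primeCounting Nat.primeCounting'
        exact Nat.count_monotone _ (by omega)
      omega
    omega
  · intro p hp
    rw [mem_filter, mem_Icc] at hp
    rw [mem_Icc]
    refine ⟨?_, Nat.monotone_primeCounting hp.1.2⟩
    rw [pc_eq p hp.2]; omega
  · intro k hk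
    rw [mem_Icc] at hk
    exact pc_nth k hk.1
  · intro p hp
    rw [mem_filter, mem_Icc] at hp
    rw [pc_eq p hp.2, Nat.add_sub_cancel]
    exact Nat.nth_count hp.2
  · intro k hk
    rw [mem_Icc] at hk
    simp only [pc_nth k hk.1]

lemma IS_triv (f : ℕ → ℝ) (hf : ∀ k, |f k| ≤ 1) (α : ℝ) (N : ℕ) : ‖IS f α N‖ ≤ N := by
  unfold IS
  calc ‖∑ k ∈ Icc 1 N, (f k : ℂ) * ee (α * Nat.nth Nat.Prime (k - 1))‖ ≤ ∑ k ∈ Icc 1 N, ‖(f k : ℂ) * ee (α * Nat.nth Nat.Prime (k - 1))‖ := norm_sum_le _ _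
    _ ≤ ∑ _k ∈ Icc 1 N, (1 : ℝ) := sum_le_sum fun k _ => by
        rw [norm_mul, N_J5b.norm_ee, mul_one, Complex.norm_real, Real.norm_eq_abs]; exact hf k
    _ = _ := by rw [sum_const, nsmul_eq_mul, mul_one, Nat.card_Icc, Nat.add_sub_cancel]

/-- no common frequency, in terms of the indices -/
def NoFreqI (f g : ℕ → ℝ) : Prop := ∀ ε : ℝ, 0 < ε → ∀ᶠ N : ℕ in atTop, ∀ α : ℝ, ‖IS f α N‖ * ‖IS g α N‖ ≤ ε * (N : ℝ) ^ 2

lemma NoFreq_iff (f g : ℕ → ℝ) : NoFreq (fun p => f (Nat.primeCounting p)) (fun p => g (Nat.primeCounting p)) ↔ NoFreqI f g := by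
  constructor
  · intro h ε hε
    have hnth : Tendsto (fun N : ℕ => Nat.nth Nat.Prime (N - 1)) atTop atTop :=
      (Nat.nth_strictMono Nat.infinite_setOfPred_prime).tendsto_atTop.comp (tendsto_sub_atTop_nat 1)
    filter_upwards [hnth.eventually (h (ε / 4) (by positivity)), hnth.eventually pc_lower, eventually_ge_atTop 3] with N h1 h2 h3
    intro α
    have h4 := h1 α
    rw [← IS_pi, ← IS_pi, pc_nth N (by omega)] at h4
    rw [pc_nth N (by omega)] at h2
    have hxp : (Nat.nth Nat.Prime (N - 1)).Prime := Nat.prime_nth_prime _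
    set x := Nat.nth Nat.Prime (N - 1) with hx
    have hx0 : (0 : ℝ) < x := by exact_mod_cast hxp.pos
    have hlx : 0 < Real.log x := Real.log_pos (by exact_mod_cast hxp.one_lt)
    refine h4.trans ?_
    have h5 : (x : ℝ) / Real.log x ≤ 2 * N := by linarith
    have h6 : ((x : ℝ) / Real.log x) ^ 2 ≤ (2 * N) ^ 2 := pow_le_pow_left₀ (by positivity) h5 2
    nlinarith
  · intro h ε hε
    have hpi : Tendsto Nat.primeCounting atTop atTop := Nat.tendsto_primeCounting
    filter_upwards [hpi.eventually (h (ε / 16) (by positivity)), pi_up, eventually_ge_atTop 3] with x h1 h2 h3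
    intro α
    have h4 := h1 α
    rw [IS_pi, IS_pi] at h4
    have hx0 : (0 : ℝ) < x := by exact_mod_cast (by omega : 0 < x)
    have hlx : 0 < Real.log x := Real.log_pos (by exact_mod_cast (by omega : 1 < x))
    refine h4.trans ?_
    have h5 : (Nat.primeCounting x : ℝ) ≤ 4 * ((x : ℝ) / Real.log x) := by
      rw [div_le_iff₀ hx0] at h2
      rw [← mul_div_assoc, le_div_iff₀ hlx]; exact h2
    have h6 : (Nat.primeCounting x : ℝ) ^ 2 ≤ (4 * ((x : ℝ) / Real.log x)) ^ 2 := pow_le_pow_left₀ (Nat.cast_nonneg _) h5 2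
    nlinarith

/-- **The criterion for two weights on the indices.** -/
theorem crit2I {f g : ℕ → ℝ} (hf : ∀ k, |f k| ≤ 1) (hg : ∀ k, |g k| ≤ 1) :
    SmF (rep2 (fun p => f (Nat.primeCounting p)) (fun p => g (Nat.primeCounting p))) ↔ NoFreqI f g :=
  (crit2 (fun _ => hf _) (fun _ => hg _)).trans (NoFreq_iff f g)

/-- one of the cosine and the sine has a large coefficient -/
lemma trig (α : ℝ) (N : ℕ) : ∃ h : ℕ → ℝ, (∀ k, |h k| ≤ 1) ∧ (N : ℝ) / 2 ≤ ‖IS h α N‖ := by
  set c : ℕ → ℝ := fun k => Real.cos (2 * Real.pi * (α * Nat.nth Nat.Prime (k - 1))) with hc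
  set s : ℕ → ℝ := fun k => Real.sin (2 * Real.pi * (α * Nat.nth Nat.Prime (k - 1))) with hs
  have h1 : IS c α N - Complex.I * IS s α N = N := by
    unfold IS
    rw [mul_sum, ← sum_sub_distrib]
    have h2 : ∀ k ∈ Icc 1 N, (c k : ℂ) * ee (α * Nat.nth Nat.Prime (k - 1)) - Complex.I * ((s k : ℂ) * ee (α * Nat.nth Nat.Prime (k - 1))) = 1 := by
      intro k _
      set t : ℝ := α * Nat.nth Nat.Prime (k - 1) with ht
      have h3 : (c k : ℂ) - Complex.I * (s k : ℂ) = ee (-t) := by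
        simp only [hc, hs]
        unfold ee
        have e : 2 * (Real.pi : ℂ) * ((-t : ℝ) : ℂ) * Complex.I = (-(2 * Real.pi * t : ℝ) : ℂ) * Complex.I := by push_cast; ring
        rw [e, Complex.exp_mul_I, Complex.cos_neg, Complex.sin_neg, ← ht]
        push_cast
        ring
      calc _ = ((c k : ℂ) - Complex.I * (s k : ℂ)) * ee t := by ring
        _ = ee (-t + t) := by rw [h3, ← N_J5b.ee_add]
        _ = 1 := by rw [neg_add_cancel, N_J5b.ee_zero]
    rw [sum_congr rfl h2, sum_const, Nat.card_Icc, Nat.add_sub_cancel, nsmul_eq_mul, mul_one]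
  have h2 : (N : ℝ) ≤ ‖IS c α N‖ + ‖IS s α N‖ := by
    calc (N : ℝ) = ‖(N : ℂ)‖ := by rw [Complex.norm_natCast]
      _ = ‖IS c α N - Complex.I * IS s α N‖ := by rw [h1]
      _ ≤ ‖IS c α N‖ + ‖Complex.I * IS s α N‖ := norm_sub_le _ _
      _ = _ := by rw [norm_mul, Complex.norm_I, one_mul]
  by_cases h3 : (N : ℝ) / 2 ≤ ‖IS c α N‖
  · exact ⟨c, fun k => Real.abs_cos_le_one _, h3⟩
  · exact ⟨s, fun k => Real.abs_sin_le_one _, by push Not at h3; linarith⟩

/-- the weights with small exponential sums -/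
def Unif (f : ℕ → ℝ) : Prop := ∀ ε : ℝ, 0 < ε → ∀ᶠ N : ℕ in atTop, ∀ α : ℝ, ‖IS f α N‖ ≤ ε * N

/-- **The weights which are orthogonal to every weight.** -/
theorem orth {f : ℕ → ℝ} : (∀ g : ℕ → ℝ, (∀ k, |g k| ≤ 1) → NoFreqI f g) ↔ Unif f := by
  constructor
  · intro h
    by_contra hcon
    unfold Unif at hcon
    push Not at hcon
    obtain ⟨c, hc, hfr⟩ := hcon
    have step : ∀ N₀ : ℕ, ∃ N : ℕ, 8 * N₀ + 1 ≤ N ∧ ∃ (h : ℕ → ℝ) (α : ℝ), (∀ k, |h k| ≤ 1) ∧ c * N < ‖IS f α N‖ ∧ (N : ℝ) / 2 ≤ ‖IS h α N‖ := by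
      intro N₀
      obtain ⟨N, hN, α, hα⟩ := (frequently_atTop.1 hfr) (8 * N₀ + 1)
      obtain ⟨h, h1, h2⟩ := trig α N
      exact ⟨N, hN, h, α, h1, hα, h2⟩
    choose Nf hNf hh α h1 h2 h3 using step
    set n : ℕ → ℕ := fun j => Nat.rec 0 (fun _ m => Nf m) j with hn
    have hn1 : ∀ j, n (j + 1) = Nf (n j) := fun j => rfl
    have hn2 : ∀ j, 8 * n j + 1 ≤ n (j + 1) := fun j => by rw [hn1]; exact hNf _
    have hmono : ∀ j, j ≤ n j := by
      intro j
      induction j with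
      | zero => exact Nat.zero_le _
      | succ j ih => have := hn2 j; omega
    have hmono2 : Monotone n := monotone_nat_of_le_succ fun j => by have := hn2 j; omega
    have hex : ∀ k, ∃ j, k ≤ n (j + 1) := fun k => ⟨k, by have := hmono (k + 1); omega⟩
    set g : ℕ → ℝ := fun k => hh (n (Nat.find (hex k))) k with hg
    have hg1 : ∀ k, |g k| ≤ 1 := fun k => h1 _ _
    have hg2 : ∀ j k, n j < k → k ≤ n (j + 1) → g k = hh (n j) k := by
      intro j k hk1 hk2
      have h4 : Nat.find (hex k) = j := by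
        rw [Nat.find_eq_iff]
        refine ⟨hk2, fun i hi => ?_⟩
        have := hmono2 (show i + 1 ≤ j by omega)
        omega
      simp only [hg]
      rw [h4]
    have hG : ∀ j, (n (j + 1) : ℝ) / 4 ≤ ‖IS g (α (n j)) (n (j + 1))‖ := by
      intro j
      have h5 := h3 (n j)
      rw [← hn1] at h5
      have h6 : ‖IS (hh (n j)) (α (n j)) (n (j + 1)) - IS g (α (n j)) (n (j + 1))‖ ≤ 2 * n j := by
        unfold IS
        rw [← sum_sub_distrib]
        have h7 : ∑ k ∈ Icc 1 (n (j + 1)), ((hh (n j) k : ℂ) * ee (α (n j) * Nat.nth Nat.Prime (k - 1)) - (g k : ℂ) * ee (α (n j) * Nat.nth Nat.Prime (k - 1))) =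
            ∑ k ∈ Icc 1 (n j), ((hh (n j) k : ℂ) * ee (α (n j) * Nat.nth Nat.Prime (k - 1)) - (g k : ℂ) * ee (α (n j) * Nat.nth Nat.Prime (k - 1))) := by
          symm
          apply sum_subset
          · intro k hk
            rw [mem_Icc] at hk ⊢
            have := hmono2 (show j ≤ j + 1 by omega)
            omega
          · intro k hk1 hk2
            rw [mem_Icc] at hk1 hk2
            rw [hg2 j k (by omega) hk1.2, sub_self]
        rw [h7]
        calc _ ≤ ∑ k ∈ Icc 1 (n j), ‖((hh (n j) k : ℂ) * ee (α (n j) * Nat.nth Nat.Prime (k - 1)) - (g k : ℂ) * ee (α (n j) * Nat.nth Nat.Prime (k - 1)))‖ := norm_sum_le _ _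
          _ ≤ ∑ _k ∈ Icc 1 (n j), (2 : ℝ) := by
              apply sum_le_sum
              intro k _
              refine (norm_sub_le _ _).trans ?_
              rw [norm_mul, norm_mul, N_J5b.norm_ee, Complex.norm_real, Complex.norm_real, Real.norm_eq_abs, Real.norm_eq_abs]
              have := h1 (n j) k
              have := hg1 k
              linarith
          _ = _ := by rw [sum_const, Nat.card_Icc, Nat.add_sub_cancel, nsmul_eq_mul]; ring
      have h7 := norm_sub_norm_le (IS (hh (n j)) (α (n j)) (n (j + 1))) (IS g (α (n j)) (n (j + 1)))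
      have h8 : (8 : ℝ) * n j + 1 ≤ n (j + 1) := by exact_mod_cast hn2 j
      linarith
    have h4 := h g hg1 (c / 5) (by positivity)
    obtain ⟨N₁, hN₁⟩ := eventually_atTop.1 h4
    have h5 := hN₁ (n (N₁ + 1)) ((hmono (N₁ + 1)).trans' (by omega)) (α (n N₁))
    have h6 := h2 (n N₁)
    rw [← hn1] at h6
    have h7 := hG N₁
    have h8 : (0 : ℝ) < n (N₁ + 1) := by
      have := hmono (N₁ + 1)
      exact_mod_cast (by omega : 0 < n (N₁ + 1))
    have h9 : c * n (N₁ + 1) * ((n (N₁ + 1) : ℝ) / 4) ≤ ‖IS f (α (n N₁)) (n (N₁ + 1))‖ * ‖IS g (α (n N₁)) (n (N₁ + 1))‖ :=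
      mul_le_mul h6.le h7 (by positivity) (norm_nonneg _)
    have h10 : c * n (N₁ + 1) * ((n (N₁ + 1) : ℝ) / 4) = c / 4 * (n (N₁ + 1) : ℝ) ^ 2 := by ring
    have h11 : 0 < c * (n (N₁ + 1) : ℝ) ^ 2 := by positivity
    rw [h10] at h9
    linarith
  · intro h g hg ε hε
    filter_upwards [h ε hε] with N hN
    intro α
    calc ‖IS f α N‖ * ‖IS g α N‖ ≤ (ε * N) * N := mul_le_mul (hN α) (IS_triv g hg α N) (norm_nonneg _) (by positivity)
      _ = _ := by ring

end Pool.Agent.W5h22.CR
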